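import Mathlib
import Pool.Agent.FewNeg.Defs
import Pool.Agent.CGame.Defs

/-!
# Definitions for the optimal trade-off between messages and size
-/

set_option autoImplicit false

namespace Pool.Agent.TOpt

open Pool.Agent.FewNeg Pool.Agent.CGame

/-- `f` has a monotone span program over the field `𝔽` with at most `s` rows: there are vectors
`v j`, labelled by variables `l j`, and a vector `τ` such that `f x = 1` if and only if `τ` is a
linear combination of the vectors `v j` with `x (l j) = 1`. -/
def HasSP (𝔽 : Type) [Field 𝔽] {ι : Type} (s : ℕ) (f : BF ι) : Prop :=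
  ∃ (R : Type) (_ : Fintype R) (W : Type) (_ : AddCommGroup W) (_ : Module 𝔽 W) (v : R → W)
    (l : R → ι) (τ : W), Fintype.card R ≤ s ∧
    ∀ x : ι → Bool, f x = true ↔ τ ∈ Submodule.span 𝔽 (v '' {j | x (l j) = true})

/-- `G.Uses 𝒜 P`: all functions in the protocol `G` are in the class `𝒜`, and the product of the
numbers `T + 1`, over the rounds of any play of the game, is at most `P`. -/
def GUses {ι : Type} (𝒜 : BF ι → Prop) : Game ι → ℕ → Prop
  | .out f, P => 𝒜 f ∧ 1 ≤ P
  | .round T q next, P => (∀ i, 𝒜 (q i)) ∧
      ∃ P' : ℕ, (T + 1) * P' ≤ P ∧ ∀ a, GUses 𝒜 (next a) P'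

/-- The Boolean function `f` is decided by a protocol for `Game`, where Bob knows the values of the
variables in `S` from the beginning: all functions used by Alice are in the class `𝒜`, and the
product of the numbers `T + 1`, over the rounds of any play of the game, is at most `P`. -/
def GDecides {n : ℕ} (𝒜 : BF (Fin n) → Prop) (S : Finset (Fin n)) (P : ℕ) (f : BF (Fin n)) :
    Prop :=
  ∃ G : (Fin n → Bool) → Game (Fin n), (∀ x y : Fin n → Bool, (∀ i ∈ S, x i = y i) → G x = G y) ∧
    (∀ x, GUses 𝒜 (G x) P) ∧ ∀ x, (G x).val x = f x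

/-! ### Closures and their lifted versions -/

/-- The closure of the element `s` under the rules `j` with `z j = 1`; the rule `j` with
`r j = (a, b, c)` allows to derive `c` from `a` and `b`. -/
inductive Cl {E J : Type} (r : J → E × E × E) (s : E) (z : J → Bool) : E → Prop
  | start : Cl r s z s
  | step (j : J) : z j = true → Cl r s z (r j).1 → Cl r s z (r j).2.1 → Cl r s z (r j).2.2

open Classical in
/-- Is `t` derivable from `s`? -/
noncomputable def clF {E J : Type} (r : J → E × E × E) (s t : E) : BF J := fun z =>
  decide (Cl r s z t)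

/-- The predecessors of a node of a directed graph in which every node has no or two
predecessors. -/
def prs {V : Type} [DecidableEq V] (pd : V → Option (V × V)) (v : V) : Finset V :=
  match pd v with
  | none => ∅
  | some p => {p.1, p.2}

/-- The sets of nodes which are reachable, from the empty set, in the reversible pebble game with
at most `d` pebbles. -/
inductive Reach {V : Type} [DecidableEq V] (pr : V → Finset V) (d : ℕ) : Finset V → Prop
  | empty : Reach pr d ∅
  | add {T : Finset V} {v : V} : Reach pr d T → v ∉ T → pr v ⊆ T → T.card < d →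
      Reach pr d (insert v T)
  | del {T : Finset V} {v : V} : Reach pr d (insert v T) → v ∉ T → pr v ⊆ T → Reach pr d T

/-- The rules of the lifted graph: the elements are the coloured nodes, the start (`false`) and the
goal (`true`). -/
def lrule {V : Type} (pd : V → Option (V × V)) (τ : V) (q : ℕ) :
    (V × Fin q × Fin q × Fin q) ⊕ Fin q →
      ((V × Fin q) ⊕ Bool) × ((V × Fin q) ⊕ Bool) × ((V × Fin q) ⊕ Bool)
  | Sum.inl (v, a, b, c) =>
      match pd v with
      | none => (Sum.inr false, Sum.inr false, Sum.inl (v, c))
      | some p => (Sum.inl (p.1, a), Sum.inl (p.2, b), Sum.inl (v, c))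
  | Sum.inr a => (Sum.inl (τ, a), Sum.inr false, Sum.inr true)

/-- The nodes at which two colourings agree. -/
def agr {V : Type} [Fintype V] [DecidableEq V] {q : ℕ} (x y : V → Fin q) : Finset V :=
  Finset.univ.filter fun v => x v = y v

open Classical in
/-- The matrix for the rank method. -/
noncomputable def matA (𝔽 : Type) [Field 𝔽] {V : Type} [Fintype V] [DecidableEq V]
    (pr : V → Finset V) (d q : ℕ) : Matrix (V → Fin q) (V → Fin q) 𝔽 :=
  fun x y => ∑ T ∈ Finset.univ.filter (fun T : Finset V => Reach pr d T),
    if agr x y ⊆ T then (-1) ^ T.card else 0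

/-! ### Pebbling sequences -/

/-- Pebbling sequences: in every step at most one new pebble is placed, on a node whose
predecessors carry pebbles; any pebbles may be removed. -/
def Legal {V : Type} [DecidableEq V] (pr : V → Finset V) (C : ℕ → Finset V) : Prop :=
  ∀ t, C (t + 1) ⊆ C t ∨ ∃ v, C (t + 1) ⊆ insert v (C t) ∧ pr v ⊆ C t

/-- The node `v` gets a pebble between the times `s` and `e`. -/
def Placed {V : Type} (C : ℕ → Finset V) (s e : ℕ) (v : V) : Prop :=
  ∃ t, s ≤ t ∧ t < e ∧ v ∉ C t ∧ v ∈ C (t + 1)

open Classical in
/-- If less than `θ` nodes carry pebbles at time `s`, and at least `w` of the nodes `E i` get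
pebbles between the times `s` and `e`, then at some time between `s` and `e` at least `F` nodes
carry pebbles. -/
def Claim {V : Type} [DecidableEq V] (pr : V → Finset V) {m : ℕ} (E : Fin m → V) (θ F w : ℕ) :
    Prop :=
  ∀ (C : ℕ → Finset V) (s e : ℕ), Legal pr C → s ≤ e → (C s).card < θ →
    w ≤ (Finset.univ.filter fun i => Placed C s e (E i)).card →
    ∃ t, s ≤ t ∧ t ≤ e ∧ F ≤ (C t).card

/-- Every set of `b` elements has neighbours at at least half of the elements. -/
def Disperser {V : Type} [DecidableEq V] {m Δ : ℕ} (b : ℕ) (φ : V → Fin Δ → Fin m) : Prop :=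
  ∀ B : Finset V, b ≤ B.card → m ≤ 2 * (B.biUnion fun v => Finset.univ.image (φ v)).card

end Pool.Agent.TOpt
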