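import Mathlib
import Pool.Agent.TOpt.Defs
import Pool.Agent.FewNeg.LDefs

/-!
# Closure properties of monotone span programs

PACKAGE. Prove the theorems below (helper lemmas allowed, keep the statements).

* `HasSP.mono`: trivial.
* `HasSP.monotone`: the span of the image of a larger set is larger.
* `HasSP.subst`: let `U` be the span of the vectors whose label is sent to the constant `true`; the
  new space is `W ⧸ U`, the new rows are the `j` with label sent to a variable `k`
  (`{j // ∃ k, σ (l j) = Sum.inl k}`), with the vector `U.mkQ (v j)`; the target is `U.mkQ τ`.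
  `U.mkQ τ ∈ span (U.mkQ '' A) ↔ τ ∈ span A ⊔ U` (`Submodule.map_span`, `Submodule.comap_map_mkQ`).
* `HasSP.const`: no rows, the space is `𝔽`, the target is `0` (true) or `1` (false).
* `HasSP.var`: one row, the space is `𝔽`, the row is `1`, the target is `1`.
* `HasSP.and`: the space `W₁ × W₂`, the rows are `(v₁ j, 0)` and `(0, v₂ j)`, the target `(τ₁, τ₂)`.
* `HasSP.or`: the space `(W₁ × W₂) ⧸ span {(τ₁, -τ₂)}`, the rows are the classes of `(v₁ j, 0)` and
  `(0, v₂ j)`, the target is the class of `(τ₁, 0)`. If `(τ₁, 0) = (a, b) + c (τ₁, -τ₂)` with `a`, `b`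
  in the two spans, then `(1 - c) τ₁ = a` and `c τ₂ = b`; `c ≠ 1` or `c = 1 ≠ 0`.
* `HasSP.or_list`: induction on the list.
* `HasSP.of_md`: induction, `2 ^ d + 2 ^ d = 2 ^ (d + 1)`.
-/

set_option autoImplicit false

namespace Pool.Agent.TOpt

open Pool.Agent.FewNeg Pool.Agent.CGame

variable {𝔽 : Type} [Field 𝔽] {ι κ : Type}

theorem HasSP.mono {s s' : ℕ} {f : BF ι} (h : HasSP 𝔽 s f) (hs : s ≤ s') : HasSP 𝔽 s' f := by
  obtain ⟨R, hR, W, hW, hm, v, l, τ, hc, hx⟩ := h
  exact ⟨R, hR, W, hW, hm, v, l, τ, hc.trans hs, hx⟩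

theorem HasSP.monotone {s : ℕ} {f : BF ι} (h : HasSP 𝔽 s f) : Monotone f := by
  obtain ⟨R, hR, W, hW, hm, v, l, τ, hc, hx⟩ := h
  intro x y hxy
  rw [Bool.le_iff_imp]
  intro h1
  rw [hx] at h1 ⊢
  refine Submodule.span_mono (Set.image_mono ?_) h1
  intro j hj
  have h2 := hxy (l j)
  rw [Bool.le_iff_imp] at h2
  exact h2 hj

/-- Membership in a span modulo a subspace. -/
private theorem spOps_mkQ {W : Type} [AddCommGroup W] [Module 𝔽 W] (U : Submodule 𝔽 W)
    (A : Set W) (τ : W) :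
    U.mkQ τ ∈ Submodule.span 𝔽 (U.mkQ '' A) ↔ τ ∈ Submodule.span 𝔽 A ⊔ U := by
  rw [← Submodule.map_span, ← Submodule.mem_comap, Submodule.comap_map_mkQ, sup_comm]

theorem HasSP.subst {s : ℕ} {f : BF ι} (h : HasSP 𝔽 s f) (σ : ι → κ ⊕ Bool) :
    HasSP 𝔽 s (fun y : κ → Bool => f fun i => Sum.elim y id (σ i)) := by
  classical
  obtain ⟨R, hR, W, hW, hm, v, l, τ, hc, hx⟩ := h
  refine ⟨{j : R // ∃ k, σ (l j) = Sum.inl k}, inferInstance,
    W ⧸ Submodule.span 𝔽 (v '' {j | σ (l j) = Sum.inr true}), inferInstance, inferInstance,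
    fun j => Submodule.mkQ _ (v j.1), fun j => j.2.choose, Submodule.mkQ _ τ,
    (Fintype.card_subtype_le _).trans hc, fun y => ?_⟩
  have e : (fun j : {j : R // ∃ k, σ (l j) = Sum.inl k} =>
        Submodule.mkQ (Submodule.span 𝔽 (v '' {j | σ (l j) = Sum.inr true})) (v j.1)) ''
      {j | y j.2.choose = true} =
      Submodule.mkQ (Submodule.span 𝔽 (v '' {j | σ (l j) = Sum.inr true})) ''
        (v '' {j | ∃ k, σ (l j) = Sum.inl k ∧ y k = true}) := by
    ext w
    constructor
    · rintro ⟨j, hj, rfl⟩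
      exact ⟨_, ⟨j.1, ⟨_, j.2.choose_spec, hj⟩, rfl⟩, rfl⟩
    · rintro ⟨_, ⟨j, ⟨k, hk, hy⟩, rfl⟩, rfl⟩
      refine ⟨⟨j, k, hk⟩, ?_, rfl⟩
      have h1 : ∃ k, σ (l j) = Sum.inl k := ⟨k, hk⟩
      have h2 : h1.choose = k := Sum.inl_injective (h1.choose_spec.symm.trans hk)
      change y h1.choose = true
      rw [h2, hy]
  rw [e, spOps_mkQ, hx, ← Submodule.span_union, ← Set.image_union]
  have e2 : {j | Sum.elim y id (σ (l j)) = true} =
      {j | ∃ k, σ (l j) = Sum.inl k ∧ y k = true} ∪ {j | σ (l j) = Sum.inr true} := by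
    ext j
    simp only [Set.mem_ofPred_eq, Set.mem_union]
    rcases h1 : σ (l j) with k | b
    · simp
    · simp
  rw [e2]

theorem HasSP.const (b : Bool) : HasSP 𝔽 0 (fun _ : ι → Bool => b) := by
  refine ⟨Empty, inferInstance, 𝔽, inferInstance, inferInstance, Empty.elim, Empty.elim,
    if b = true then 0 else 1, by simp, fun x => ?_⟩
  have e : ((Empty.elim : Empty → 𝔽) '' {j | x (Empty.elim j) = true}) = ∅ := by
    ext w
    constructor
    · rintro ⟨j, _⟩
      exact j.elim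
    · intro h
      exact h.elim
  rw [e, Submodule.span_empty, Submodule.mem_bot]
  cases b <;> simp

theorem HasSP.var (i : ι) : HasSP 𝔽 1 (fun x : ι → Bool => x i) := by
  refine ⟨Unit, inferInstance, 𝔽, inferInstance, inferInstance, fun _ => 1, fun _ => i, 1,
    by simp, fun x => ?_⟩
  by_cases h : x i = true
  · simp only [h, Set.ofPred_true, Set.image_univ, Set.range_const, true_iff]
    exact Submodule.subset_span rfl
  · simp [h]

/-- The span of the rows of two programs. -/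
private theorem spOps_prod {W W' R R' : Type} [AddCommGroup W] [Module 𝔽 W] [AddCommGroup W']
    [Module 𝔽 W'] (v : R → W) (v' : R' → W') (l : R → ι) (l' : R' → ι) (x : ι → Bool) :
    Submodule.span 𝔽 ((Sum.elim (fun j => (v j, 0)) (fun j => (0, v' j)) : R ⊕ R' → W × W') ''
      {j | x (Sum.elim l l' j) = true}) =
      (Submodule.span 𝔽 (v '' {j | x (l j) = true})).prod
        (Submodule.span 𝔽 (v' '' {j | x (l' j) = true})) := by
  rw [← LinearMap.span_inl_union_inr]
  congr 1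
  ext w
  constructor
  · rintro ⟨j | j, hj, rfl⟩
    · exact Or.inl ⟨_, ⟨j, hj, rfl⟩, rfl⟩
    · exact Or.inr ⟨_, ⟨j, hj, rfl⟩, rfl⟩
  · rintro (⟨_, ⟨j, hj, rfl⟩, rfl⟩ | ⟨_, ⟨j, hj, rfl⟩, rfl⟩)
    · exact ⟨Sum.inl j, hj, rfl⟩
    · exact ⟨Sum.inr j, hj, rfl⟩

theorem HasSP.and {s s' : ℕ} {f g : BF ι} (hf : HasSP 𝔽 s f) (hg : HasSP 𝔽 s' g) :
    HasSP 𝔽 (s + s') (fun x => f x && g x) := by
  obtain ⟨R, hR, W, hW, hm, v, l, τ, hc, hx⟩ := hf
  obtain ⟨R', hR', W', hW', hm', v', l', τ', hc', hx'⟩ := hg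
  refine ⟨R ⊕ R', inferInstance, W × W', inferInstance, inferInstance,
    Sum.elim (fun j => (v j, 0)) (fun j => (0, v' j)), Sum.elim l l', (τ, τ'), ?_, fun x => ?_⟩
  · rw [Fintype.card_sum]
    exact add_le_add hc hc'
  · rw [spOps_prod, Submodule.mem_prod, Bool.and_eq_true, hx, hx']

theorem HasSP.or {s s' : ℕ} {f g : BF ι} (hf : HasSP 𝔽 s f) (hg : HasSP 𝔽 s' g) :
    HasSP 𝔽 (s + s') (fun x => f x || g x) := by
  obtain ⟨R, hR, W, hW, hm, v, l, τ, hc, hx⟩ := hf
  obtain ⟨R', hR', W', hW', hm', v', l', τ', hc', hx'⟩ := hg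
  refine ⟨R ⊕ R', inferInstance, (W × W') ⧸ Submodule.span 𝔽 {((τ, -τ') : W × W')},
    inferInstance, inferInstance,
    fun j => Submodule.mkQ _ ((Sum.elim (fun j => (v j, 0)) (fun j => (0, v' j)) :
      R ⊕ R' → W × W') j), Sum.elim l l', Submodule.mkQ _ (τ, 0), ?_, fun x => ?_⟩
  · rw [Fintype.card_sum]
    exact add_le_add hc hc'
  · have e : (fun j => Submodule.mkQ (Submodule.span 𝔽 {((τ, -τ') : W × W')})
        ((Sum.elim (fun j => (v j, 0)) (fun j => (0, v' j)) : R ⊕ R' → W × W') j)) ''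
        {j | x (Sum.elim l l' j) = true} =
        Submodule.mkQ (Submodule.span 𝔽 {((τ, -τ') : W × W')}) ''
          ((Sum.elim (fun j => (v j, 0)) (fun j => (0, v' j)) : R ⊕ R' → W × W') ''
            {j | x (Sum.elim l l' j) = true}) := by
      rw [Set.image_image]
    rw [e, spOps_mkQ, spOps_prod, Submodule.mem_sup, Bool.or_eq_true, hx, hx']
    constructor
    · rintro (h | h)
      · exact ⟨(τ, 0), Submodule.mem_prod.2 ⟨h, Submodule.zero_mem _⟩, 0,
          Submodule.zero_mem _, add_zero _⟩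
      · refine ⟨(0, τ'), Submodule.mem_prod.2 ⟨Submodule.zero_mem _, h⟩, (τ, -τ'),
          Submodule.subset_span rfl, ?_⟩
        ext <;> simp
    · rintro ⟨a, ha, b, hb, hab⟩
      rw [Submodule.mem_span_singleton] at hb
      obtain ⟨c, rfl⟩ := hb
      rw [Submodule.mem_prod] at ha
      have h1 : a.1 + c • τ = τ := congrArg Prod.fst hab
      have h2 : a.2 + c • (-τ') = 0 := congrArg Prod.snd hab
      by_cases hc1 : c = 1
      · right
        rw [hc1, one_smul, add_neg_eq_zero] at h2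
        rw [← h2]
        exact ha.2
      · left
        have h3 : (1 - c) • τ = a.1 := by
          rw [sub_smul, one_smul, sub_eq_iff_eq_add]
          exact h1.symm
        have h4 : (1 - c)⁻¹ • ((1 - c) • τ) = τ := inv_smul_smul₀ (sub_ne_zero.2 (Ne.symm hc1)) τ
        rw [← h4, h3]
        exact Submodule.smul_mem _ _ ha.1

theorem HasSP.or_list {s : ℕ} (l : List (BF ι)) (hl : ∀ h ∈ l, HasSP 𝔽 s h) {F : BF ι}
    (hF : ∀ u, F u = true ↔ ∃ h ∈ l, h u = true) : HasSP 𝔽 (l.length * s) F := by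
  classical
  induction l generalizing F with
  | nil =>
    have e : F = fun _ => false := by
      funext u
      rw [← Bool.not_eq_true, hF]
      simp
    rw [e, List.length_nil, zero_mul]
    exact HasSP.const false
  | cons h t ih =>
    have h1 : HasSP 𝔽 (t.length * s) (fun u => decide (∃ h ∈ t, h u = true)) :=
      ih (fun g hg => hl g (List.mem_cons_of_mem _ hg)) (fun u => by rw [decide_eq_true_iff])
    have h2 := (hl h List.mem_cons_self).or h1
    have e : F = fun u => h u || decide (∃ h ∈ t, h u = true) := by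
      funext u
      rw [Bool.eq_iff_iff, hF, Bool.or_eq_true, decide_eq_true_iff, List.exists_mem_cons_iff]
    rw [e, List.length_cons, add_mul, one_mul, add_comm]
    exact h2

theorem HasSP.of_md {d : ℕ} {f : BF ι} (h : MD d f) : HasSP 𝔽 (2 ^ d) f := by
  induction h with
  | var i => exact HasSP.var i
  | const b => exact (HasSP.const b).mono (Nat.zero_le _)
  | and _ _ hf hg =>
    refine (hf.and hg).mono (le_of_eq ?_)
    rw [pow_succ, mul_two]
  | or _ _ hf hg =>
    refine (hf.or hg).mono (le_of_eq ?_)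
    rw [pow_succ, mul_two]
  | succ _ hf => exact hf.mono (Nat.pow_le_pow_right two_pos (Nat.le_succ _))

end Pool.Agent.TOpt
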