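import Mathlib
import Pool.Agent.FewNeg.Lev
import Pool.Agent.FewNeg.LBasic
import Pool.Agent.CGame.Circ
import Pool.Agent.TOpt.SPGame

/-!
# Circuits with `t` NOT gates as protocols
-/

set_option autoImplicit false

namespace Pool.Agent.TOpt

open Pool.Agent.FewNeg Pool.Agent.CGame

variable {ι : Type}

theorem SLP.toLSLP (S : Finset ι) {L : List (BF ι × ℕ)} {s t : ℕ} (h : SLP L s t) :
    ∃ (L' : List (BF ι × ℕ × ℕ)) (N : List ℕ), LSLP S L' s N ∧ N.length = t ∧
      ∀ p ∈ L, ∃ r, (p.1, p.2, r) ∈ L' := by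
  induction h with
  | nil => exact ⟨[], [], LSLP.nil, rfl, by simp⟩
  | @var L s t i _ ih =>
    obtain ⟨L', N, h1, h2, h3⟩ := ih
    refine ⟨_, N, LSLP.var i h1, h2, fun p hp => ?_⟩
    rcases List.mem_cons.1 hp with rfl | hp
    · exact ⟨0, List.mem_cons_self⟩
    · obtain ⟨r, hr⟩ := h3 p hp
      exact ⟨r, List.mem_cons_of_mem _ hr⟩
  | @const L s t b _ ih =>
    obtain ⟨L', N, h1, h2, h3⟩ := ih
    refine ⟨_, N, LSLP.free (fun _ => b) (fun _ _ _ => rfl) h1, h2, fun p hp => ?_⟩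
    rcases List.mem_cons.1 hp with rfl | hp
    · exact ⟨0, List.mem_cons_self⟩
    · obtain ⟨r, hr⟩ := h3 p hp
      exact ⟨r, List.mem_cons_of_mem _ hr⟩
  | @and L s t f g d e _ hf hg ih =>
    obtain ⟨L', N, h1, h2, h3⟩ := ih
    obtain ⟨r, hr⟩ := h3 _ hf
    obtain ⟨q, hq⟩ := h3 _ hg
    refine ⟨_, N, LSLP.and h1 hr hq, h2, fun p hp => ?_⟩
    rcases List.mem_cons.1 hp with rfl | hp
    · exact ⟨max r q, List.mem_cons_self⟩
    · obtain ⟨r', hr'⟩ := h3 p hp
      exact ⟨r', List.mem_cons_of_mem _ hr'⟩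
  | @or L s t f g d e _ hf hg ih =>
    obtain ⟨L', N, h1, h2, h3⟩ := ih
    obtain ⟨r, hr⟩ := h3 _ hf
    obtain ⟨q, hq⟩ := h3 _ hg
    refine ⟨_, N, LSLP.or h1 hr hq, h2, fun p hp => ?_⟩
    rcases List.mem_cons.1 hp with rfl | hp
    · exact ⟨max r q, List.mem_cons_self⟩
    · obtain ⟨r', hr'⟩ := h3 p hp
      exact ⟨r', List.mem_cons_of_mem _ hr'⟩
  | @not L s t f d _ hf ih =>
    obtain ⟨L', N, h1, h2, h3⟩ := ih
    obtain ⟨r, hr⟩ := h3 _ hf
    refine ⟨_, (r + 1) :: N, LSLP.not h1 hr, by simp [h2], fun p hp => ?_⟩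
    rcases List.mem_cons.1 hp with rfl | hp
    · exact ⟨r + 1, List.mem_cons_self⟩
    · obtain ⟨r', hr'⟩ := h3 p hp
      exact ⟨r', List.mem_cons_of_mem _ hr'⟩

/-- Circuits with `t` NOT gates are circuits for which the product, over the levels, of one plus the
number of the NOT gates on the level is at most `2 ^ t`. -/
theorem Computes.computesL {s d t : ℕ} {f : BF ι} (h : Computes s d t f) (S : Finset ι) :
    ComputesL S s d (2 ^ t) f := by
  obtain ⟨L, s', d', t', h1, h2, h3, h4, h5⟩ := h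
  obtain ⟨L', N, h6, h7, h8⟩ := SLP.toLSLP S h1
  obtain ⟨r, hr⟩ := h8 _ h2
  refine ⟨L', s', N, d', r, h6, hr, h3, h4, (levelProd_le N).trans ?_⟩
  rw [h7]
  exact Nat.pow_le_pow_right (by norm_num) h5

/-- Circuits with `t` NOT gates and depth `d` are a special case of the games with span programs
with `2 ^ d` rows. -/
theorem Computes.gdecides (𝔽 : Type) [Field 𝔽] {n s d t : ℕ} {f : BF (Fin n)}
    (h : Computes s d t f) (S : Finset (Fin n)) : GDecides (HasSP 𝔽 (2 ^ d)) S (2 ^ t) f :=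
  decides_gdecides (ComputesL.decides (Computes.computesL h S))

end Pool.Agent.TOpt
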