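import Mathlib
import Pool.Agent.TOpt.Defs
import Pool.Agent.FewNeg.LBasic

/-!
# Monotone formulas: substitution, large ORs, threshold functions

PACKAGE. Prove the theorems below (helper lemmas allowed, keep the statements). `MD d f`: `f` has a
monotone formula of depth at most `d` (`Pool/Agent/FewNeg/LDefs.lean`, `MD.mono` in `LBasic.lean`).

* `MD.comp`: induction on the formula `h`; for a variable `k` use `(hg k)`, for constants and `succ`
  use `MD.mono`.
* `MD.or_finset`: induction on `r`: split the finite set into two parts of at most `2 ^ r` elements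
  (`Finset.exists_subset_card_eq`), the OR of the two ORs. For `r = 0` the set is empty (constant
  `false`) or a singleton.
* `MD.thr`: induction on `r`. `r = 0`: `A` is empty or a singleton `{i}`, the function is a constant or
  the variable `i`. Step: `A = A₁ ∪ A₂`, disjoint, with at most `2 ^ r` elements each; at least `k`
  ones in `A` iff for some `j ≤ 2 ^ r`: at least `j` ones in `A₁` and at least `k - j` ones in `A₂`
  (`k - j = 0` if `j ≥ k`). The OR of `2 ^ r + 1 ≤ 2 ^ (r + 1)` functions of depth
  `(r + 1) ^ 2 + 1`: depth `(r + 1) ^ 2 + 1 + (r + 1) ≤ (r + 2) ^ 2`.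
-/

set_option autoImplicit false

namespace Pool.Agent.TOpt

open Pool.Agent.FewNeg

variable {ι κ : Type}

theorem MD.comp {d e : ℕ} {f : BF κ} (h : MD d f) (g : κ → BF ι) (hg : ∀ k, MD e (g k)) :
    MD (d + e) (fun x => f fun k => g k x) := by
  induction h with
  | var k =>
    rw [Nat.zero_add]
    exact hg k
  | const b => exact (MD.const b).mono (Nat.zero_le _)
  | and _ _ ih1 ih2 =>
    rw [Nat.add_right_comm]
    exact MD.and ih1 ih2
  | or _ _ ih1 ih2 =>
    rw [Nat.add_right_comm]
    exact MD.or ih1 ih2
  | succ _ ih =>
    rw [Nat.add_right_comm]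
    exact MD.succ ih

/-- A finite set of at most `2 ^ (r + 1)` elements has two complementary parts of at most `2 ^ r`
elements. -/
private theorem nnf_split {Y : Type} [DecidableEq Y] (r : ℕ) (T : Finset Y)
    (hT : T.card ≤ 2 ^ (r + 1)) : ∃ T₁ T₂ : Finset Y, Disjoint T₁ T₂ ∧ T₁ ∪ T₂ = T ∧
      T₁.card ≤ 2 ^ r ∧ T₂.card ≤ 2 ^ r := by
  by_cases h : T.card ≤ 2 ^ r
  · exact ⟨T, ∅, Finset.disjoint_empty_right _, Finset.union_empty _, h, by simp⟩
  · push Not at h
    obtain ⟨T₁, hT₁, hc⟩ := Finset.exists_subset_card_eq h.le
    refine ⟨T₁, T \ T₁, Finset.disjoint_sdiff, Finset.union_sdiff_of_subset hT₁, hc.le, ?_⟩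
    rw [Finset.card_sdiff_of_subset hT₁, hc]
    rw [pow_succ] at hT
    omega

theorem MD.or_finset {Y : Type} [DecidableEq Y] {h : Y → BF ι} {d : ℕ} (r : ℕ) (T : Finset Y)
    (hT : T.card ≤ 2 ^ r) (hh : ∀ a ∈ T, MD d (h a)) {F : BF ι}
    (hF : ∀ u, F u = true ↔ ∃ a ∈ T, h a u = true) : MD (d + r) F := by
  induction r generalizing T F with
  | zero =>
    rw [pow_zero] at hT
    rcases T.eq_empty_or_nonempty with rfl | ⟨a, ha⟩
    · have e : F = fun _ => false := by
        funext u
        rw [Bool.eq_false_iff]
        intro hu
        obtain ⟨a, ha, _⟩ := (hF u).1 hu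
        exact Finset.notMem_empty a ha
      rw [e]
      exact (MD.const false).mono (Nat.zero_le _)
    · have e : F = h a := by
        funext u
        rw [Bool.eq_iff_iff, hF]
        constructor
        · rintro ⟨b, hb, hu⟩
          rwa [Finset.card_le_one.1 hT b hb a ha] at hu
        · intro hu
          exact ⟨a, ha, hu⟩
      rw [e]
      exact hh a ha
  | succ r ih =>
    obtain ⟨T₁, T₂, _, hU, h1, h2⟩ := nnf_split r T hT
    have e : F = fun u => decide (∃ a ∈ T₁, h a u = true) || decide (∃ a ∈ T₂, h a u = true) := by
      funext u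
      rw [Bool.eq_iff_iff, hF, Bool.or_eq_true, decide_eq_true_eq, decide_eq_true_eq, ← hU]
      constructor
      · rintro ⟨a, ha, hu⟩
        rcases Finset.mem_union.1 ha with ha | ha
        · exact Or.inl ⟨a, ha, hu⟩
        · exact Or.inr ⟨a, ha, hu⟩
      · rintro (⟨a, ha, hu⟩ | ⟨a, ha, hu⟩)
        · exact ⟨a, Finset.mem_union_left _ ha, hu⟩
        · exact ⟨a, Finset.mem_union_right _ ha, hu⟩
    rw [e, ← Nat.add_assoc]
    exact MD.or
      (ih T₁ h1 (fun a ha => hh a (by rw [← hU]; exact Finset.mem_union_left _ ha))
        (fun u => by rw [decide_eq_true_eq]))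
      (ih T₂ h2 (fun a ha => hh a (by rw [← hU]; exact Finset.mem_union_right _ ha))
        (fun u => by rw [decide_eq_true_eq]))

/-- The threshold functions. -/
theorem MD.thr [DecidableEq ι] (r k : ℕ) (A : Finset ι) (hA : A.card ≤ 2 ^ r) :
    MD ((r + 1) ^ 2) (fun x : ι → Bool => decide (k ≤ (A.filter fun i => x i = true).card)) := by
  induction r generalizing k A with
  | zero =>
    rw [pow_zero] at hA
    refine MD.mono (d := 0) ?_ (Nat.zero_le _)
    rcases A.eq_empty_or_nonempty with rfl | ⟨i, hi⟩
    · exact MD.const (decide (k ≤ 0))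
    · have hAi : A = {i} := Finset.eq_singleton_iff_unique_mem.2
        ⟨hi, fun j hj => Finset.card_le_one.1 hA j hj i hi⟩
      subst hAi
      rcases k with _ | _ | k
      · have e : (fun x : ι → Bool =>
            decide (0 ≤ (({i} : Finset ι).filter fun i => x i = true).card)) =
            fun _ => true := by
          funext x
          simp
        rw [e]
        exact MD.const true
      · have e : (fun x : ι → Bool =>
            decide (0 + 1 ≤ (({i} : Finset ι).filter fun i => x i = true).card)) =
            fun x => x i := by
          funext x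
          by_cases hx : x i = true
          · simp [Finset.filter_singleton, hx]
          · simp [Finset.filter_singleton, hx]
        rw [e]
        exact MD.var i
      · have e : (fun x : ι → Bool =>
            decide (k + 1 + 1 ≤ (({i} : Finset ι).filter fun i => x i = true).card)) =
            fun _ => false := by
          funext x
          have h1 : (({i} : Finset ι).filter fun i => x i = true).card ≤ 1 :=
            (Finset.card_filter_le _ _).trans (by simp)
          rw [decide_eq_false_iff_not]
          omega
        rw [e]
        exact MD.const false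
  | succ r ih =>
    obtain ⟨A₁, A₂, hd, hU, h1, h2⟩ := nnf_split r A hA
    have hc : ∀ x : ι → Bool, (A.filter fun i => x i = true).card =
        (A₁.filter fun i => x i = true).card + (A₂.filter fun i => x i = true).card := by
      intro x
      rw [← hU, Finset.filter_union, Finset.card_union_of_disjoint]
      exact Finset.disjoint_filter_filter hd
    have hle : ∀ x : ι → Bool, (A₁.filter fun i => x i = true).card ≤ 2 ^ r := fun x =>
      (Finset.card_filter_le _ _).trans h1
    have key := MD.or_finset (ι := ι) (d := (r + 1) ^ 2 + 1)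
      (h := fun j x => decide (j ≤ (A₁.filter fun i => x i = true).card) &&
        decide (k - j ≤ (A₂.filter fun i => x i = true).card)) (r + 1)
      (Finset.range (2 ^ r + 1)) (by
        rw [Finset.card_range, pow_succ]
        have := Nat.one_le_two_pow (n := r)
        omega)
      (fun j _ => MD.and (ih j A₁ h1) (ih (k - j) A₂ h2))
      (F := fun x : ι → Bool => decide (k ≤ (A.filter fun i => x i = true).card)) (fun x => by
        simp only [decide_eq_true_eq, Bool.and_eq_true, Finset.mem_range]
        rw [hc x]
        constructor
        · intro hk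
          exact ⟨(A₁.filter fun i => x i = true).card, Nat.lt_succ_of_le (hle x), le_refl _,
            by omega⟩
        · rintro ⟨j, _, h3, h4⟩
          omega)
    refine key.mono ?_
    nlinarith

end Pool.Agent.TOpt
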