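import Mathlib
import Pool.Agent.TOpt.Defs
import Pool.Agent.FewNeg.MS

/-!
# The block language

A block of scale `i` consists of `2 ^ i` rules; every rule takes `6 i + 1` letters: three pointers of
`i` bits, each bit given by two letters (the bit and the opposite bit), and a letter which says
whether the rule is present.
-/

set_option autoImplicit false

namespace Pool.Agent.TOpt

open Pool.Agent.FewNeg

/-- The length of the blocks of scale `i`. -/
def bl (i : ℕ) : ℕ := 2 ^ i * (6 * i + 1)

/-- The pointer `k` of the rule `j` in the block `y`. -/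
def ptr (i : ℕ) (y : ℕ → Bool) (j k : ℕ) : ℕ :=
  ∑ t ∈ Finset.range i, if y (j * (6 * i + 1) + 2 * (k * i + t)) = true then 2 ^ t else 0

/-- The rules of the block `y`. -/
def brule (i : ℕ) (y : ℕ → Bool) (j : Fin (2 ^ i)) : ℕ × ℕ × ℕ :=
  (ptr i y j 0, ptr i y j 1, ptr i y j 2)

open Classical in
/-- The value of the block `y` of scale `i`: `0` if some pair of letters is `00`; otherwise `1` if
some pair is `11`; otherwise `1` if the element `1` can be derived from the element `0` with the
rules which are present. -/
noncomputable def blockF (i : ℕ) (y : ℕ → Bool) : Bool := decide (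
  (∀ j, j < 2 ^ i → ∀ u, u < 3 * i →
    (y (j * (6 * i + 1) + 2 * u) = true ∨ y (j * (6 * i + 1) + 2 * u + 1) = true)) ∧
  ((∃ j, j < 2 ^ i ∧ ∃ u, u < 3 * i ∧
    (y (j * (6 * i + 1) + 2 * u) = true ∧ y (j * (6 * i + 1) + 2 * u + 1) = true)) ∨
  Cl (brule i y) 0 (fun j => y (j.val * (6 * i + 1) + 6 * i)) 1))

/-- The words of length `n` are divided into `log n + 1` segments, the segment `i` is divided into
blocks of scale `i`; accepted are the words with a block with the value `1`. -/
noncomputable def LTC : Set (List Bool) :=
  MS (fun n => Nat.log 2 n + 1) (fun _ i => bl i) (fun _ i => blockF i)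

end Pool.Agent.TOpt
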