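import Mathlib
import Pool.Agent.TOpt.BlkDefs

/-!
# Simple properties of the blocks

PACKAGE. Prove the theorems below (helper lemmas allowed, keep the statements).

* `Cl.mono_z`: induction.
* `blockF_monotone`: let `y ≤ y'` and `blockF i y = true`. No pair is `00` in `y`, so none in `y'`. If
  some pair is `11` in `y`, it is so in `y'`. Otherwise, if some pair is `11` in `y'`, done; otherwise
  all pairs of `y` and of `y'` are `01` or `10`, and as `y ≤ y'` they are equal, so `ptr` is the same
  for `y` and `y'` (its positions are `j * (6 i + 1) + 2 u` with `u = k i + t < 3 i`), and the presence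
  letters of `y'` are larger: `Cl.mono_z`.
* `blockF_congr`: all letters used by `blockF i` are at positions `< bl i`:
  `j (6i+1) + 2u + 1 < (j + 1)(6i+1)` for `u < 3i`, and `j (6i+1) + 6i < (j+1)(6i+1) ≤ 2^i (6i+1)`.
* `blockF_zero`: for `i ≥ 1` the pair `j = 0`, `u = 0` is `00`. For `i = 0` there are no pairs, all
  pointers are `0` (empty sums), so only the element `0` is derivable.
* `bl_pos`, `two_pow_le_bl`: trivial.
-/

set_option autoImplicit false

namespace Pool.Agent.TOpt

open Pool.Agent.FewNeg

theorem Cl.mono_z {E J : Type} {r : J → E × E × E} {s t : E} {z z' : J → Bool}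
    (h : ∀ j, z j = true → z' j = true) (ht : Cl r s z t) : Cl r s z' t := by
  induction ht with
  | start => exact Cl.start
  | step j hj _ _ h1 h2 => exact Cl.step j (h j hj) h1 h2

/-- The positions of the letters of the pointers are those of the pairs. -/
private theorem ptr_congr {i : ℕ} {y y' : ℕ → Bool} {j k : ℕ} (hk : k < 3)
    (h : ∀ u, u < 3 * i → y (j * (6 * i + 1) + 2 * u) = y' (j * (6 * i + 1) + 2 * u)) :
    ptr i y j k = ptr i y' j k := by
  unfold ptr
  refine Finset.sum_congr rfl fun t ht => ?_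
  rw [Finset.mem_range] at ht
  have h1 : k * i + t < 3 * i := by
    have h2 : (k + 1) * i ≤ 3 * i := Nat.mul_le_mul_right _ hk
    have h3 : (k + 1) * i = k * i + i := by ring
    omega
  rw [h _ h1]

private theorem brule_congr {i : ℕ} {y y' : ℕ → Bool}
    (h : ∀ j, j < 2 ^ i → ∀ u, u < 3 * i →
      y (j * (6 * i + 1) + 2 * u) = y' (j * (6 * i + 1) + 2 * u)) :
    brule i y = brule i y' := by
  funext j
  unfold brule
  rw [ptr_congr (k := 0) (by norm_num) (h j.val j.isLt),
    ptr_congr (k := 1) (by norm_num) (h j.val j.isLt),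
    ptr_congr (k := 2) (by norm_num) (h j.val j.isLt)]

/-- The positions of the block are smaller than its length. -/
private theorem pos_lt {i j q : ℕ} (hj : j < 2 ^ i) (hq : q < 6 * i + 1) :
    j * (6 * i + 1) + q < bl i := by
  unfold bl
  have h1 : (j + 1) * (6 * i + 1) ≤ 2 ^ i * (6 * i + 1) := Nat.mul_le_mul_right _ hj
  have h2 : (j + 1) * (6 * i + 1) = j * (6 * i + 1) + (6 * i + 1) := by ring
  omega

theorem blockF_monotone (i : ℕ) : Monotone (blockF i) := by
  classical
  intro y y' hy
  have hle : ∀ p, y p = true → y' p = true := fun p => by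
    have h1 := hy p
    rw [Bool.le_iff_imp] at h1
    exact h1
  rw [Bool.le_iff_imp]
  intro h
  unfold blockF at h ⊢
  rw [decide_eq_true_iff] at h ⊢
  obtain ⟨h0, h1⟩ := h
  refine ⟨fun j hj u hu => (h0 j hj u hu).imp (hle _) (hle _), ?_⟩
  rcases h1 with ⟨j, hj, u, hu, h2, h3⟩ | h1
  · exact Or.inl ⟨j, hj, u, hu, hle _ h2, hle _ h3⟩
  · by_cases h4 : ∃ j, j < 2 ^ i ∧ ∃ u, u < 3 * i ∧
      (y' (j * (6 * i + 1) + 2 * u) = true ∧ y' (j * (6 * i + 1) + 2 * u + 1) = true)
    · exact Or.inl h4
    · right
      have h5 : brule i y' = brule i y := by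
        refine brule_congr fun j hj u hu => ?_
        have h6 : ¬ (y' (j * (6 * i + 1) + 2 * u) = true ∧
            y' (j * (6 * i + 1) + 2 * u + 1) = true) := fun h7 => h4 ⟨j, hj, u, hu, h7⟩
        rcases h0 j hj u hu with h7 | h7
        · rw [h7, hle _ h7]
        · have h8 := hle _ h7
          have h9 : y' (j * (6 * i + 1) + 2 * u) = false := by
            cases h10 : y' (j * (6 * i + 1) + 2 * u)
            · rfl
            · exact absurd ⟨h10, h8⟩ h6
          rw [h9]
          cases h10 : y (j * (6 * i + 1) + 2 * u)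
          · rfl
          · rw [hle _ h10] at h9
            exact absurd h9 (by simp)
      rw [h5]
      exact Cl.mono_z (fun j => hle _) h1

theorem blockF_congr (i : ℕ) {y y' : ℕ → Bool} (h : ∀ p, p < bl i → y p = y' p) :
    blockF i y = blockF i y' := by
  have ha : ∀ j, j < 2 ^ i → ∀ u, u < 3 * i →
      y (j * (6 * i + 1) + 2 * u) = y' (j * (6 * i + 1) + 2 * u) := fun j hj u hu =>
    h _ (pos_lt hj (by omega))
  have hb : ∀ j, j < 2 ^ i → ∀ u, u < 3 * i →
      y (j * (6 * i + 1) + 2 * u + 1) = y' (j * (6 * i + 1) + 2 * u + 1) := fun j hj u hu => by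
    rw [add_assoc]
    exact h _ (pos_lt hj (by omega))
  have hc : (fun j : Fin (2 ^ i) => y (j.val * (6 * i + 1) + 6 * i)) =
      fun j : Fin (2 ^ i) => y' (j.val * (6 * i + 1) + 6 * i) := by
    funext j
    exact h _ (pos_lt j.isLt (by omega))
  classical
  unfold blockF
  rw [decide_eq_decide, brule_congr ha, hc]
  refine and_congr ?_ (or_congr ?_ Iff.rfl)
  · refine forall_congr' fun j => forall_congr' fun hj => forall_congr' fun u =>
      forall_congr' fun hu => ?_
    rw [ha j hj u hu, hb j hj u hu]
  · refine exists_congr fun j => and_congr_right fun hj => exists_congr fun u =>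
      and_congr_right fun hu => ?_
    rw [ha j hj u hu, hb j hj u hu]

theorem blockF_zero (i : ℕ) (y : ℕ → Bool) (h : ∀ p, p < bl i → y p = false) :
    blockF i y = false := by
  classical
  unfold blockF
  rw [decide_eq_false_iff_not]
  rintro ⟨h0, h1⟩
  rcases Nat.eq_zero_or_pos i with rfl | hi
  · rcases h1 with ⟨j, hj, u, hu, h2, h3⟩ | h1
    · omega
    · have h2 : ∀ t, Cl (brule 0 y) 0 (fun j => y (j.val * (6 * 0 + 1) + 6 * 0)) t → t = 0 := by
        intro t ht
        cases ht with
        | start => rfl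
        | step j hj h3 h4 => simp [brule, ptr]
      exact absurd (h2 1 h1) (by norm_num)
  · have hp : 0 < 2 ^ i := pow_pos (by norm_num) i
    have ha := h _ (pos_lt (i := i) (j := 0) (q := 2 * 0) hp (by omega))
    have hb := h _ (pos_lt (i := i) (j := 0) (q := 2 * 0 + 1) hp (by omega))
    rw [← add_assoc] at hb
    rcases h0 0 hp 0 (by omega) with h2 | h2
    · rw [ha] at h2
      exact absurd h2 (by simp)
    · rw [hb] at h2
      exact absurd h2 (by simp)

theorem bl_pos (i : ℕ) : 0 < bl i :=
  Nat.mul_pos (pow_pos (by norm_num) i) (Nat.succ_pos _)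

theorem two_pow_le_bl (i : ℕ) : 2 ^ i ≤ bl i :=
  Nat.le_mul_of_pos_right _ (Nat.succ_pos _)

theorem LTC_monotone (n : ℕ) : Monotone (slice LTC n) :=
  MS_monotone (fun _ i => blockF_monotone i) n

end Pool.Agent.TOpt
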