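import Mathlib
import Pool.Agent.TOpt.BlkDefs

/-!
# All rule systems are contained in blocks

PACKAGE. Prove `blockF_embed` (helper lemmas allowed, keep the statement).

PROOF. By `hE` there is an injection `eE : E → Fin (2 ^ i)` with `eE s = 0` and `eE t = 1` (compose any
injection with transpositions; `Equiv.swap`), by `hJ` an injection `eJ : J → Fin (2 ^ i)`. For
`j < 2 ^ i` let `pt j k : ℕ` (`k < 3`) be the value of `eE` at the `k`-th component of `r j'` if
`j = eJ j'`, and `0` otherwise. Define `ρ p`: write `p = j (6i + 1) + v` with `v = p % (6i+1)`,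
`j = p / (6i+1)`. If `v = 6i`: `ρ p = inl j'` if `j = eJ j'` for some `j'`, otherwise `inr false`. If
`v < 6i`: let `u = v / 2 < 3i`, `k = u / i`, `t = u % i`, and `b = (pt j k).testBit t`; `ρ p = inr b` if
`v` is even, `inr (!b)` if `v` is odd. Let `y p = Sum.elim z id (ρ p)`. Then all pairs are `01` or `10`,
and `ptr i y j k = pt j k` for `k < 3` (`∑ t < i, (testBit t) 2 ^ t`, as `pt j k < 2 ^ i`:
`Nat.sum_range_bit..`/prove by induction on `i` via `Nat.testBit`, or use `Nat.ofBits`/
`Finset.sum_filter_testBit..`). The presence letter of `j` is `z j'` if `j = eJ j'` and `false`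
otherwise. So `Cl (brule i y) 0 _ 1 ↔ Cl r s z t`: (←) by induction, `Cl r s z e` implies
`Cl (brule i y) 0 _ (eE e)`; (→) by induction every derivable number is `eE e` for some `e` with
`Cl r s z e` (a rule `j` which is present is `eJ j'`, and its premises are `eE` of the premises of
`j'`, use the injectivity of `eE`); `1 = eE t`.
-/

set_option autoImplicit false

namespace Pool.Agent.TOpt

open Pool.Agent.FewNeg

/-- The component `k` of a triple. -/
private def cmp {E : Type} (x : E × E × E) (k : ℕ) : E :=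
  if k = 0 then x.1 else if k = 1 then x.2.1 else x.2.2

private theorem exists_num {E : Type} [Fintype E] (i : ℕ) (hE : Fintype.card E ≤ 2 ^ i)
    (s t : E) (hst : s ≠ t) :
    ∃ e : E → ℕ, Function.Injective e ∧ (∀ x, e x < 2 ^ i) ∧ e s = 0 ∧ e t = 1 := by
  have hN : 1 < 2 ^ i := lt_of_lt_of_le (Fintype.one_lt_card_iff.2 ⟨s, t, hst⟩) hE
  obtain ⟨f⟩ : Nonempty (E ↪ Fin (2 ^ i)) :=
    Function.Embedding.nonempty_of_card_le (by rwa [Fintype.card_fin])
  set a0 : Fin (2 ^ i) := ⟨0, by omega⟩ with ha0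
  set a1 : Fin (2 ^ i) := ⟨1, hN⟩ with ha1
  have h01 : a0 ≠ a1 := fun h => by
    have := congrArg Fin.val h
    simp [ha0, ha1] at this
  set g : E → Fin (2 ^ i) := fun x => Equiv.swap (f s) a0 (f x) with hg
  have hgi : Function.Injective g := fun x x' h => f.injective ((Equiv.swap (f s) a0).injective h)
  have hgs : g s = a0 := Equiv.swap_apply_left _ _
  have hgt : g t ≠ a0 := fun h => hst (hgi (hgs.trans h.symm))
  refine ⟨fun x => (Equiv.swap (g t) a1 (g x)).val, ?_, fun x => Fin.is_lt _, ?_, ?_⟩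
  · intro x x' h
    exact hgi ((Equiv.swap (g t) a1).injective (Fin.ext h))
  · simp only [hgs]
    rw [Equiv.swap_apply_of_ne_of_ne hgt.symm h01]
  · simp only [Equiv.swap_apply_left, ha1]

private theorem sum_bits (n i : ℕ) :
    (∑ t ∈ Finset.range i, if n.testBit t = true then 2 ^ t else 0) = n % 2 ^ i := by
  induction i with
  | zero => simp [Nat.mod_one]
  | succ i ih =>
    rw [Finset.sum_range_succ, ih, Nat.mod_pow_succ, Nat.testBit_eq_decide_div_mod_eq]
    rcases Nat.mod_two_eq_zero_or_one (n / 2 ^ i) with h | h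
    · simp [h]
    · simp [h]

theorem blockF_embed {E J : Type} [Fintype E] [Fintype J] (i : ℕ) (hE : Fintype.card E ≤ 2 ^ i)
    (hJ : Fintype.card J ≤ 2 ^ i) (r : J → E × E × E) (s t : E) (hst : s ≠ t) :
    ∃ ρ : ℕ → J ⊕ Bool, ∀ z : J → Bool,
      blockF i (fun p => Sum.elim z id (ρ p)) = clF r s t z := by
  classical
  obtain ⟨e, hei, helt, hes, het⟩ := exists_num i hE s t hst
  obtain ⟨eJ⟩ : Nonempty (J ↪ Fin (2 ^ i)) :=
    Function.Embedding.nonempty_of_card_le (by rwa [Fintype.card_fin])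
  have hpos : 0 < 6 * i + 1 := by omega
  -- the pointers
  obtain ⟨pt, hpt, hptlt⟩ : ∃ pt : ℕ → ℕ → ℕ, (∀ j' k, pt (eJ j').val k = e (cmp (r j') k)) ∧
      ∀ j k, pt j k < 2 ^ i := by
    refine ⟨fun j k => if h : ∃ j' : J, (eJ j').val = j then e (cmp (r h.choose) k) else 0,
      fun j' k => ?_, fun j k => ?_⟩
    · have h : ∃ j'' : J, (eJ j'').val = (eJ j').val := ⟨j', rfl⟩
      simp only [dif_pos h]
      rw [eJ.injective (Fin.ext h.choose_spec)]
    · dsimp only
      split_ifs with h
      · exact helt _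
      · positivity
  obtain ⟨pr, hpr1, hpr2⟩ : ∃ pr : ℕ → J ⊕ Bool, (∀ j', pr (eJ j').val = Sum.inl j') ∧
      ∀ j, (∀ j', (eJ j').val ≠ j) → pr j = Sum.inr false := by
    refine ⟨fun j => if h : ∃ j' : J, (eJ j').val = j then Sum.inl h.choose else Sum.inr false,
      fun j' => ?_, fun j hj => ?_⟩
    · have h : ∃ j'' : J, (eJ j'').val = (eJ j').val := ⟨j', rfl⟩
      simp only [dif_pos h]
      rw [eJ.injective (Fin.ext h.choose_spec)]
    · have h : ¬ ∃ j' : J, (eJ j').val = j := fun ⟨j', h⟩ => hj j' h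
      simp only [dif_neg h]
  set ρ : ℕ → J ⊕ Bool := fun p =>
    if p % (6 * i + 1) = 6 * i then pr (p / (6 * i + 1)) else
      Sum.inr (if p % (6 * i + 1) % 2 = 0 then
        (pt (p / (6 * i + 1)) (p % (6 * i + 1) / 2 / i)).testBit (p % (6 * i + 1) / 2 % i) else
        !(pt (p / (6 * i + 1)) (p % (6 * i + 1) / 2 / i)).testBit (p % (6 * i + 1) / 2 % i))
    with hρ
  have hmod : ∀ j v, v < 6 * i + 1 → (j * (6 * i + 1) + v) % (6 * i + 1) = v := fun j v hv => by
    rw [add_comm, Nat.add_mul_mod_self_right, Nat.mod_eq_of_lt hv]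
  have hdiv : ∀ j v, v < 6 * i + 1 → (j * (6 * i + 1) + v) / (6 * i + 1) = j := fun j v hv => by
    rw [add_comm, Nat.add_mul_div_right _ _ hpos, Nat.div_eq_of_lt hv, zero_add]
  refine ⟨ρ, fun z => ?_⟩
  set y : ℕ → Bool := fun p => Sum.elim z id (ρ p) with hy
  have hy0 : ∀ j u, u < 3 * i → y (j * (6 * i + 1) + 2 * u) = (pt j (u / i)).testBit (u % i) := by
    intro j u hu
    have h1 := hmod j (2 * u) (by omega)
    have h2 := hdiv j (2 * u) (by omega)
    have h3 : 2 * u ≠ 6 * i := by omega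
    have h4 : 2 * u % 2 = 0 := by omega
    have h5 : 2 * u / 2 = u := by omega
    simp only [hy, hρ, h1, h2, if_neg h3, h4, h5, if_true, Sum.elim_inr, id]
  have hy1 : ∀ j u, u < 3 * i →
      y (j * (6 * i + 1) + 2 * u + 1) = !(pt j (u / i)).testBit (u % i) := by
    intro j u hu
    have h1 := hmod j (2 * u + 1) (by omega)
    have h2 := hdiv j (2 * u + 1) (by omega)
    have h3 : 2 * u + 1 ≠ 6 * i := by omega
    have h4 : ¬ (2 * u + 1) % 2 = 0 := by omega
    have h5 : (2 * u + 1) / 2 = u := by omega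
    rw [add_assoc]
    simp only [hy, hρ, h1, h2, if_neg h3, if_neg h4, h5, Sum.elim_inr, id]
  have hyp : ∀ j, y (j * (6 * i + 1) + 6 * i) = Sum.elim z id (pr j) := by
    intro j
    have h1 := hmod j (6 * i) (by omega)
    have h2 := hdiv j (6 * i) (by omega)
    simp only [hy, hρ, h1, h2, if_true]
  have hptr : ∀ j k, k < 3 → ptr i y j k = pt j k := by
    intro j k hk
    have h1 : ptr i y j k = ∑ t ∈ Finset.range i, if (pt j k).testBit t = true then 2 ^ t else 0 := by
      unfold ptr
      refine Finset.sum_congr rfl fun t ht => ?_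
      have ht' := Finset.mem_range.1 ht
      have hi : 0 < i := by omega
      have hu : k * i + t < 3 * i := by
        calc k * i + t < k * i + i := by omega
          _ = (k + 1) * i := by ring
          _ ≤ 3 * i := Nat.mul_le_mul_right _ hk
      have h2 : (k * i + t) / i = k := by
        rw [add_comm, Nat.add_mul_div_right _ _ hi, Nat.div_eq_of_lt ht', zero_add]
      have h3 : (k * i + t) % i = t := by
        rw [add_comm, Nat.add_mul_mod_self_right, Nat.mod_eq_of_lt ht']
      rw [hy0 j _ hu, h2, h3]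
    rw [h1, sum_bits, Nat.mod_eq_of_lt (hptlt j k)]
  have hb : ∀ j' : J, brule i y (eJ j') = (e (r j').1, e (r j').2.1, e (r j').2.2) := by
    intro j'
    unfold brule
    rw [hptr _ 0 (by norm_num), hptr _ 1 (by norm_num), hptr _ 2 (by norm_num), hpt, hpt, hpt]
    rfl
  have hz1 : ∀ j' : J, y ((eJ j').val * (6 * i + 1) + 6 * i) = z j' := fun j' => by
    rw [hyp, hpr1]
    rfl
  have key1 : ∀ m, Cl (brule i y) 0 (fun j => y (j.val * (6 * i + 1) + 6 * i)) m →
      ∃ x, e x = m ∧ Cl r s z x := by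
    intro m hm
    induction hm with
    | start => exact ⟨s, hes, Cl.start⟩
    | step j hj h1 h2 ih1 ih2 =>
      obtain ⟨j', hj'⟩ : ∃ j' : J, eJ j' = j := by
        by_contra hcon
        push Not at hcon
        rw [hyp, hpr2 j.val fun j' h => hcon j' (Fin.ext h)] at hj
        exact Bool.false_ne_true hj
      subst hj'
      rw [hb] at ih1 ih2 ⊢
      obtain ⟨x1, hx1, hc1⟩ := ih1
      obtain ⟨x2, hx2, hc2⟩ := ih2
      have e1 := hei hx1
      have e2 := hei hx2
      subst e1 e2
      rw [hz1] at hj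
      exact ⟨_, rfl, Cl.step j' hj hc1 hc2⟩
  have key2 : ∀ x, Cl r s z x →
      Cl (brule i y) 0 (fun j => y (j.val * (6 * i + 1) + 6 * i)) (e x) := by
    intro x hx
    induction hx with
    | start =>
      rw [hes]
      exact Cl.start
    | step j hj h1 h2 ih1 ih2 =>
      have h3 := Cl.step (r := brule i y) (s := 0)
        (z := fun j => y (j.val * (6 * i + 1) + 6 * i)) (eJ j) ((hz1 j).trans hj)
        (by rw [hb]; exact ih1) (by rw [hb]; exact ih2)
      rw [hb] at h3
      exact h3
  unfold blockF clF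
  rw [decide_eq_decide]
  constructor
  · rintro ⟨-, ⟨j, hj, u, hu, h1, h2⟩ | h⟩
    · rw [hy0 j u hu] at h1
      rw [hy1 j u hu, h1] at h2
      exact absurd h2 (by simp)
    · obtain ⟨x, hx, hc⟩ := key1 1 h
      rwa [← hei (hx.trans het.symm)]
  · intro h
    refine ⟨fun j hj u hu => ?_, Or.inr ?_⟩
    · rw [hy0 j u hu, hy1 j u hu]
      cases (pt j (u / i)).testBit (u % i) <;> simp
    · have h1 := key2 t h
      rwa [het] at h1

end Pool.Agent.TOpt
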