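import Mathlib
import Pool.Agent.TOpt.Defs

/-!
# Expansion to a graph with two predecessors

PACKAGE. Prove `exists_chain` (helper lemmas allowed, keep the statement).

PROOF. For `o : Option V` let `pl o : List V` be `List.ofFn E` for `o = none` and
`(pr v).toList` for `o = some v`. The new nodes are the pairs `(o, i)`, `i ≤ (pl o).length`:
`V' = Σ o : Option V, Fin ((pl o).length + 1)`. `(o, 0)` has no predecessors, `(o, i + 1)` has the two
predecessors `(o, i)` and `(some p, last)`, `p = (pl o)[i]`. The sink is `τ = (none, last)`.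
`card V' = m + 1 + ∑ v, ((pr v).card + 1)`. The height function: `h' (some v, i) = h v * B + i`, with
`B` greater than all `(pr v).card + 1`, and `h' (none, i) = H * B + i` with `H` greater than all `h v`.
Suppose that `T` is reachable in the reversible pebble game with at most `d` pebbles and `τ ∈ T`.
From `Reach` one gets (by induction) a sequence `D : ℕ → Finset V'` and `e` with `D 0 = ∅`, `D e = T`,
`(D t).card ≤ d` for all `t`, and for every `t`: `D (t + 1) ⊆ D t` or
`D (t + 1) = insert x (D t)` with `prs pd x ⊆ D t` (for `t ≥ e` the sequence is constant). Let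
`C t : Finset V` be the set of all `u` such that `(some u, last) ∈ D t`, or `u` is one of the first
`i` elements of `pl (some v)` for some `(some v, i) ∈ D t`. Then
(1) `(C t).card ≤ (r + 1) * d`: every `(some v, i) ∈ D t` contributes at most `i + 1 ≤ r + 1` nodes.
(2) `Legal pr C`: if `D (t+1) ⊆ D t` then `C (t+1) ⊆ C t`. If `x = (some v, i + 1)` is added, then
`(some v, i) ∈ D t` and `(some p, last) ∈ D t`, `p = (pl (some v))[i]`, so the first `i + 1` elements
of `pl (some v)` are in `C t`; if `i + 1` is the length then these are all predecessors of `v`, and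
`C (t + 1) ⊆ insert v (C t)`, otherwise `C (t + 1) ⊆ C t`. If `x = (some v, 0)`: if `pl (some v) = []`
then `C (t + 1) ⊆ insert v (C t)` and `pr v = ∅`, otherwise `C (t+1) ⊆ C t`. If `x = (none, _)` then
`C (t + 1) ⊆ C t`.
(3) For every `i : Fin m`, `E i ∈ C t` for some `t ≤ e`: by induction on `t` and `j`: if
`(none, j) ∈ D t`, `t ≤ e`, then for all `i < j` there is `t' < t` with `(some (E i), last) ∈ D t'`
(look at the step in which `(none, j)` was placed: `D 0 = ∅`). So `Placed C 0 e (E i)`, as `C 0 = ∅`
(take the first time at which `E i ∈ C t`).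
So by `Claim` with `s = 0` (`(C 0).card = 0 < θ`, `w ≤ m`) there is `t` with
`F ≤ (C t).card ≤ (r + 1) * d`, a contradiction to `(r + 1) * d < F`.
-/

set_option autoImplicit false

namespace Pool.Agent.TOpt

section Build

variable {V : Type}

private def len (pr : V → Finset V) (m : ℕ) : Option V → ℕ
  | none => m
  | some v => (pr v).card

private noncomputable def gg (pr : V → Finset V) {m : ℕ} (E : Fin m → V) :
    (o : Option V) → Fin (len pr m o) → V
  | none => E
  | some v => fun k => (((pr v).equivFin.symm k : {x // x ∈ pr v}) : V)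

private abbrev NN (pr : V → Finset V) (m : ℕ) : Type := Σ o : Option V, Fin (len pr m o + 1)

private noncomputable def pdd (pr : V → Finset V) {m : ℕ} (E : Fin m → V) (x : NN pr m) :
    Option (NN pr m × NN pr m) :=
  Fin.cases none (fun j : Fin (len pr m x.1) =>
    some (⟨x.1, j.castSucc⟩, ⟨some (gg pr E x.1 j), Fin.last _⟩)) x.2

private lemma gg_mem (pr : V → Finset V) {m : ℕ} (E : Fin m → V) (v : V)
    (k : Fin (len pr m (some v))) : gg pr E (some v) k ∈ pr v :=
  ((pr v).equivFin.symm k).2

private lemma gg_surj (pr : V → Finset V) {m : ℕ} (E : Fin m → V) (v : V) {u : V}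
    (hu : u ∈ pr v) : ∃ k : Fin (len pr m (some v)), gg pr E (some v) k = u := by
  refine ⟨(pr v).equivFin ⟨u, hu⟩, ?_⟩
  change (((pr v).equivFin.symm ((pr v).equivFin ⟨u, hu⟩) : {x // x ∈ pr v}) : V) = u
  rw [Equiv.symm_apply_apply]

private lemma pdd_zero (pr : V → Finset V) {m : ℕ} (E : Fin m → V) (o : Option V) :
    pdd pr E ⟨o, 0⟩ = none := rfl

private lemma pdd_succ (pr : V → Finset V) {m : ℕ} (E : Fin m → V) (o : Option V)
    (j : Fin (len pr m o)) : pdd pr E ⟨o, j.succ⟩ =
      some (⟨o, j.castSucc⟩, ⟨some (gg pr E o j), Fin.last _⟩) := rfl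

variable [DecidableEq V]

private lemma prs_succ (pr : V → Finset V) {m : ℕ} (E : Fin m → V) (o : Option V)
    (j : Fin (len pr m o)) : prs (pdd pr E) ⟨o, j.succ⟩ =
      {⟨o, j.castSucc⟩, ⟨some (gg pr E o j), Fin.last _⟩} := rfl

/-- the contribution of one node -/
private noncomputable def ff (pr : V → Finset V) {m : ℕ} (E : Fin m → V) (x : NN pr m) :
    Finset V :=
  match x with
  | ⟨none, _⟩ => ∅
  | ⟨some v, i⟩ => (if i = Fin.last _ then {v} else ∅) ∪
      ((Finset.univ.filter fun k : Fin (len pr m (some v)) => (k : ℕ) < i).image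
        (gg pr E (some v)))

private noncomputable def Ph (pr : V → Finset V) {m : ℕ} (E : Fin m → V)
    (D : Finset (NN pr m)) : Finset V := D.biUnion (ff pr E)

private lemma Ph_mono (pr : V → Finset V) {m : ℕ} (E : Fin m → V) {D D' : Finset (NN pr m)}
    (h : D ⊆ D') : Ph pr E D ⊆ Ph pr E D' :=
  Finset.biUnion_subset_biUnion_of_subset_left _ h

private lemma ff_sub (pr : V → Finset V) {m : ℕ} (E : Fin m → V) {D : Finset (NN pr m)}
    {x : NN pr m} (h : x ∈ D) : ff pr E x ⊆ Ph pr E D :=
  Finset.subset_biUnion_of_mem _ h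

private lemma last_mem (pr : V → Finset V) {m : ℕ} (E : Fin m → V) (v : V) :
    v ∈ ff pr E ⟨some v, Fin.last _⟩ := by
  simp [ff]

private lemma lt_mem (pr : V → Finset V) {m : ℕ} (E : Fin m → V) (v : V)
    (i : Fin (len pr m (some v) + 1)) (k : Fin (len pr m (some v))) (hk : (k : ℕ) < i) :
    gg pr E (some v) k ∈ ff pr E ⟨some v, i⟩ :=
  Finset.mem_union_right _ (Finset.mem_image_of_mem _ (Finset.mem_filter.2 ⟨Finset.mem_univ _, hk⟩))

private lemma ff_card (pr : V → Finset V) {m r : ℕ} (E : Fin m → V) (hr : ∀ v, (pr v).card ≤ r)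
    (x : NN pr m) : (ff pr E x).card ≤ r + 1 := by
  obtain ⟨o, i⟩ := x
  cases o with
  | none => simp [ff]
  | some v =>
    have h1 : (if i = Fin.last _ then ({v} : Finset V) else ∅).card ≤ 1 := by
      split_ifs <;> simp
    have h2 : ((Finset.univ.filter fun k : Fin (len pr m (some v)) => (k : ℕ) < i).image
        (gg pr E (some v))).card ≤ r := by
      refine Finset.card_image_le.trans ((Finset.card_filter_le _ _).trans ?_)
      rw [Finset.card_univ, Fintype.card_fin]
      exact hr v
    refine (Finset.card_union_le _ _).trans ?_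
    omega

private lemma Ph_card (pr : V → Finset V) {m r : ℕ} (E : Fin m → V) (hr : ∀ v, (pr v).card ≤ r)
    (D : Finset (NN pr m)) : (Ph pr E D).card ≤ (r + 1) * D.card := by
  refine Finset.card_biUnion_le.trans ((Finset.sum_le_card_nsmul D _ (r + 1)
    fun x _ => ff_card pr E hr x).trans ?_)
  rw [smul_eq_mul, mul_comm]

/-- one step of the game -/
private lemma step (pr : V → Finset V) {m : ℕ} (E : Fin m → V) {D : Finset (NN pr m)}
    {x : NN pr m} (hx : prs (pdd pr E) x ⊆ D) :
    ff pr E x ⊆ Ph pr E D ∨ ∃ v, ff pr E x ⊆ insert v (Ph pr E D) ∧ pr v ⊆ Ph pr E D := by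
  obtain ⟨o, i⟩ := x
  cases o with
  | none => exact Or.inl (Finset.empty_subset _)
  | some v =>
    have key : (∀ k : Fin (len pr m (some v)), (k : ℕ) < i → gg pr E (some v) k ∈ Ph pr E D) := by
      revert hx
      refine Fin.cases (fun _ k hk => absurd hk (Nat.not_lt_zero _)) (fun j hx k hk => ?_) i
      rw [prs_succ] at hx
      have h1 := hx (Finset.mem_insert_self _ _)
      have h2 := hx (Finset.mem_insert_of_mem (Finset.mem_singleton_self _))
      rw [Fin.val_succ] at hk
      rcases Nat.lt_succ_iff_lt_or_eq.1 hk with h3 | h3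
      · exact ff_sub pr E h1 (lt_mem pr E v _ k (by simpa using h3))
      · have h4 : k = j := Fin.ext h3
        rw [h4]
        exact ff_sub pr E h2 (last_mem pr E _)
    have himg : ((Finset.univ.filter fun k : Fin (len pr m (some v)) => (k : ℕ) < i).image
        (gg pr E (some v))) ⊆ Ph pr E D := by
      intro u hu
      obtain ⟨k, hk, rfl⟩ := Finset.mem_image.1 hu
      exact key k (Finset.mem_filter.1 hk).2
    by_cases hi : i = Fin.last _
    · refine Or.inr ⟨v, ?_, ?_⟩
      · refine Finset.union_subset ?_ (himg.trans (Finset.subset_insert _ _))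
        rw [if_pos hi]
        exact Finset.singleton_subset_iff.2 (Finset.mem_insert_self _ _)
      · intro u hu
        obtain ⟨k, rfl⟩ := gg_surj pr E v hu
        refine key k ?_
        rw [hi]
        exact k.2
    · refine Or.inl (Finset.union_subset ?_ himg)
      rw [if_neg hi]
      exact Finset.empty_subset _

/-- the sequence of positions -/
private lemma exists_seq {V' : Type} [DecidableEq V'] {pr : V' → Finset V'} {d : ℕ}
    {T : Finset V'} (h : Reach pr d T) : ∃ (D : ℕ → Finset V') (e : ℕ), D 0 = ∅ ∧ D e = T ∧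
      (∀ t, e ≤ t → D t = T) ∧ (∀ t, (D t).card ≤ d) ∧
      ∀ t, D (t + 1) ⊆ D t ∨ ∃ x, D (t + 1) = insert x (D t) ∧ pr x ⊆ D t := by
  induction h with
  | empty => exact ⟨fun _ => ∅, 0, rfl, rfl, fun _ _ => rfl, fun _ => by simp,
      fun _ => Or.inl (Finset.Subset.refl _)⟩
  | @add T v _ hv hpr hcard ih =>
    obtain ⟨D, e, h0, he, hge, hc, hs⟩ := ih
    refine ⟨fun t => if t ≤ e then D t else insert v T, e + 1, ?_, ?_, ?_, ?_, ?_⟩
    · simp [h0]
    · simp
    · intro t ht
      dsimp only
      rw [if_neg (by omega)]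
    · intro t
      dsimp only
      split_ifs with h1
      · exact hc t
      · exact (Finset.card_insert_le _ _).trans hcard
    · intro t
      dsimp only
      by_cases h1 : t + 1 ≤ e
      · rw [if_pos h1, if_pos (by omega : t ≤ e)]
        exact hs t
      · rw [if_neg h1]
        by_cases h2 : t ≤ e
        · rw [if_pos h2]
          have h3 : t = e := by omega
          subst h3
          rw [he]
          exact Or.inr ⟨v, rfl, hpr⟩
        · rw [if_neg h2]
          exact Or.inl (Finset.Subset.refl _)
  | @del T v _ hv hpr ih =>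
    obtain ⟨D, e, h0, he, hge, hc, hs⟩ := ih
    refine ⟨fun t => if t ≤ e then D t else T, e + 1, ?_, ?_, ?_, ?_, ?_⟩
    · simp [h0]
    · simp
    · intro t ht
      dsimp only
      rw [if_neg (by omega)]
    · intro t
      dsimp only
      split_ifs with h1
      · exact hc t
      · refine (Finset.card_le_card (Finset.subset_insert v T)).trans ?_
        rw [← he]
        exact hc e
    · intro t
      dsimp only
      by_cases h1 : t + 1 ≤ e
      · rw [if_pos h1, if_pos (by omega : t ≤ e)]
        exact hs t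
      · rw [if_neg h1]
        by_cases h2 : t ≤ e
        · rw [if_pos h2]
          have h3 : t = e := by omega
          subst h3
          rw [he]
          exact Or.inl (Finset.subset_insert _ _)
        · rw [if_neg h2]
          exact Or.inl (Finset.Subset.refl _)

/-- the nodes `E i` are pebbled before the sink -/
private lemma exists_time (pr : V → Finset V) {m : ℕ} (E : Fin m → V) {D : ℕ → Finset (NN pr m)}
    (h0 : D 0 = ∅) (hs : ∀ t, D (t + 1) ⊆ D t ∨ ∃ x, D (t + 1) = insert x (D t) ∧
      prs (pdd pr E) x ⊆ D t) (t : ℕ) : ∀ j : Fin (m + 1), (⟨none, j⟩ : NN pr m) ∈ D t →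
      ∀ i : Fin m, (i : ℕ) < j → ∃ t' ≤ t, (⟨some (E i), Fin.last _⟩ : NN pr m) ∈ D t' := by
  induction t with
  | zero =>
    intro j hj
    rw [h0] at hj
    exact absurd hj (Finset.notMem_empty _)
  | succ t ih =>
    intro j hj i hi
    rcases hs t with h1 | ⟨x, h1, h2⟩
    · obtain ⟨t', ht', hm⟩ := ih j (h1 hj) i hi
      exact ⟨t', by omega, hm⟩
    · rw [h1, Finset.mem_insert] at hj
      rcases hj with h3 | h3
      · subst h3
        revert h2 hi
        refine Fin.cases (fun hi _ => absurd hi (Nat.not_lt_zero _)) (fun k hi h2 => ?_) j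
        have h2' : ({(⟨none, k.castSucc⟩ : NN pr m), ⟨some (E k), Fin.last _⟩} :
            Finset (NN pr m)) ⊆ D t := h2
        have h4 := h2' (Finset.mem_insert_self _ _)
        have h5 := h2' (Finset.mem_insert_of_mem (Finset.mem_singleton_self _))
        rw [Fin.val_succ] at hi
        rcases Nat.lt_succ_iff_lt_or_eq.1 hi with h6 | h6
        · obtain ⟨t', ht', hm⟩ := ih _ h4 i (by simpa using h6)
          exact ⟨t', by omega, hm⟩
        · have h7 : i = k := Fin.ext h6
          subst h7
          exact ⟨t, by omega, h5⟩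
      · obtain ⟨t', ht', hm⟩ := ih j h3 i hi
        exact ⟨t', by omega, hm⟩

end Build

theorem exists_chain {V : Type} [Fintype V] [DecidableEq V] {m r θ F w d : ℕ} (pr : V → Finset V)
    (h : V → ℕ) (E : Fin m → V) (hh : ∀ v, ∀ u ∈ pr v, h u < h v) (hr : ∀ v, (pr v).card ≤ r)
    (hC : Claim pr E θ F w) (hθ : 1 ≤ θ) (hw : w ≤ m) (hd : (r + 1) * d < F) :
    ∃ (V' : Type) (_ : Fintype V') (_ : DecidableEq V') (pd : V' → Option (V' × V')) (τ : V')
      (h' : V' → ℕ), Fintype.card V' ≤ Fintype.card V * (r + 1) + m + 1 ∧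
      (∀ v p, pd v = some p → h' p.1 < h' v ∧ h' p.2 < h' v) ∧
      ∀ T, Reach (prs pd) d T → τ ∉ T := by
  classical
  let H : Option V → ℕ := fun o => match o with
    | none => Finset.univ.sup h + 1
    | some v => h v
  have hH : ∀ v, H (some v) = h v := fun v => rfl
  have hHn : ∀ v, h v < H none := fun v =>
    Nat.lt_succ_of_le (Finset.le_sup (f := h) (Finset.mem_univ v))
  refine ⟨NN pr m, inferInstance, inferInstance, pdd pr E, ⟨none, Fin.last _⟩,
    fun x => H x.1 * (r + 1) + x.2, ?_, ?_, ?_⟩
  · rw [Fintype.card_sigma, Fintype.sum_option]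
    simp only [Fintype.card_fin]
    have h1 : ∑ v : V, (len pr m (some v) + 1) ≤ Fintype.card V * (r + 1) := by
      refine (Finset.sum_le_card_nsmul _ _ (r + 1) fun v _ => ?_).trans ?_
      · exact Nat.succ_le_succ (hr v)
      · rw [Finset.card_univ, smul_eq_mul]
    have h2 : len pr m none = m := rfl
    rw [h2]
    omega
  · rintro ⟨o, i⟩ p hp
    revert hp
    refine Fin.cases (fun hp => ?_) (fun j hp => ?_) i
    · rw [pdd_zero] at hp
      exact absurd hp (by simp)
    · rw [pdd_succ, Option.some.injEq] at hp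
      subst hp
      dsimp only
      constructor
      · rw [Fin.val_succ, Fin.val_castSucc]
        omega
      · have h1 : H (some (gg pr E o j)) < H o := by
          cases o with
          | none => exact hHn _
          | some v => exact hh v _ (gg_mem pr E v j)
        have h2 : ((Fin.last (len pr m (some (gg pr E o j))) : Fin _) : ℕ) ≤ r := hr _
        have h3 : (H (some (gg pr E o j)) + 1) * (r + 1) ≤ H o * (r + 1) :=
          Nat.mul_le_mul_right _ h1
        rw [add_mul, one_mul] at h3
        omega
  · intro T hT hτ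
    obtain ⟨D, e, h0, he, -, hc, hs⟩ := exists_seq hT
    set C : ℕ → Finset V := fun t => Ph pr E (D t) with hCdef
    have hC0 : C 0 = ∅ := by
      simp only [hCdef, h0, Ph, Finset.biUnion_empty]
    have hlegal : Legal pr C := by
      intro t
      rcases hs t with h1 | ⟨x, h1, h2⟩
      · exact Or.inl (Ph_mono pr E h1)
      · have h3 : C (t + 1) = ff pr E x ∪ C t := by
          simp only [hCdef, h1, Ph, Finset.biUnion_insert]
        rw [h3]
        rcases step pr E h2 with h4 | ⟨v, h4, h5⟩
        · exact Or.inl (Finset.union_subset h4 (Finset.Subset.refl _))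
        · exact Or.inr ⟨v, Finset.union_subset h4 (Finset.subset_insert _ _), h5⟩
    have hplaced : ∀ i : Fin m, Placed C 0 e (E i) := by
      intro i
      obtain ⟨t', ht', hm⟩ := exists_time pr E h0 hs e (Fin.last m) (he ▸ hτ) i i.2
      have h1 : ∃ t, E i ∈ C t := ⟨t', ff_sub pr E hm (last_mem pr E _)⟩
      have h2 := Nat.find_spec h1
      have h3 : Nat.find h1 ≤ t' := Nat.find_min' h1 (ff_sub pr E hm (last_mem pr E _))
      rcases Nat.eq_zero_or_pos (Nat.find h1) with h4 | h4
      · rw [h4, hC0] at h2
        exact absurd h2 (Finset.notMem_empty _)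
      · refine ⟨Nat.find h1 - 1, Nat.zero_le _, by omega, Nat.find_min h1 (by omega), ?_⟩
        rw [Nat.sub_add_cancel h4]
        exact h2
    obtain ⟨t, -, -, hF⟩ := hC C 0 e hlegal (Nat.zero_le _)
      (by rw [hC0, Finset.card_empty]; exact hθ) (by
        rw [Finset.filter_true_of_mem fun i _ => hplaced i, Finset.card_univ, Fintype.card_fin]
        exact hw)
    have h1 : (C t).card ≤ (r + 1) * (D t).card := Ph_card pr E hr (D t)
    have h2 := Nat.mul_le_mul_left (r + 1) (hc t)
    omega

end Pool.Agent.TOpt
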