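import Mathlib
import Pool.Agent.TOpt.Defs

/-!
# Random dispersers

PACKAGE. Prove `exists_disperser` (helper lemmas allowed, keep the statement).

PROOF (counting). Suppose that no `φ : V → Fin Δ → Fin m` is a disperser. Then for every `φ` there is
`B₀` with `b ≤ B₀.card` and `2 * (neighbours of B₀).card < m`; take a subset `B` of `B₀` with exactly
`b` elements (`Finset.exists_subset_card_eq`), its neighbours are fewer, and a set `A : Finset (Fin m)`
containing the neighbours of `B` with `2 * A.card ≤ m` (for example the neighbours themselves). So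
every `φ` belongs to one of the sets
`bad B A := {φ | ∀ v ∈ B, ∀ j, φ v j ∈ A}`, `B.card = b`, `2 * A.card ≤ m`. Each of them satisfies
`card (bad B A) * 2 ^ (Δ * b) ≤ card (V → Fin Δ → Fin m)`, because
`card (bad B A) = (A.card ^ Δ) ^ b * (m ^ Δ) ^ (card V - b)` (`Fintype.card_piFinset` with the set
`Fintype.piFinset (fun _ => A)` for `v ∈ B` and `univ` otherwise, `Finset.prod_ite`), and
`A.card ^ (Δ * b) * 2 ^ (Δ * b) = (2 * A.card) ^ (Δ * b) ≤ m ^ (Δ * b)`. The number of pairs `(B, A)`
is at most `(card V).choose b * 2 ^ m ≤ card V ^ b * 2 ^ m`. So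
`card (V → Fin Δ → Fin m) * 2 ^ (Δ * b) ≤ card V ^ b * 2 ^ m * card (V → Fin Δ → Fin m)`, and as
there is at least one `φ` (it is enough that `0 < m` or that the function space is nonempty; if it is
empty then `m = 0`, `V` is nonempty and `0 < Δ`; in the case `m = 0` and the function space is
nonempty every `φ` is a disperser; the case `m = 0`, function space empty is excluded by `hm`),
`2 ^ (Δ * b) ≤ card V ^ b * 2 ^ m`, a contradiction.
-/

set_option autoImplicit false

namespace Pool.Agent.TOpt

/-- The functions with all values on `B` in `A`. -/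
private def badD {V : Type} [Fintype V] [DecidableEq V] {m Δ : ℕ} (B : Finset V)
    (A : Finset (Fin m)) : Finset (V → Fin Δ → Fin m) :=
  Fintype.piFinset fun v => if v ∈ B then Fintype.piFinset fun _ => A else Finset.univ

private theorem card_badD {V : Type} [Fintype V] [DecidableEq V] {m Δ b : ℕ} (B : Finset V)
    (A : Finset (Fin m)) (hB : B.card = b) (hA : 2 * A.card ≤ m) :
    (badD B A : Finset (V → Fin Δ → Fin m)).card * 2 ^ (Δ * b) ≤
      Fintype.card (V → Fin Δ → Fin m) := by
  have h1 : (2 : ℕ) ^ (Δ * b) = ∏ v : V, if v ∈ B then 2 ^ Δ else 1 := by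
    rw [Finset.prod_ite_mem, Finset.univ_inter, Finset.prod_const, hB, ← pow_mul]
  have h2 : Fintype.card (V → Fin Δ → Fin m) = ∏ _v : V, m ^ Δ := by
    simp
  rw [badD, Fintype.card_piFinset, h1, h2, ← Finset.prod_mul_distrib]
  refine Finset.prod_le_prod' fun v _ => ?_
  by_cases hv : v ∈ B
  · simp only [if_pos hv]
    rw [Fintype.card_piFinset, Finset.prod_const, Finset.card_univ, Fintype.card_fin, ← mul_pow]
    exact Nat.pow_le_pow_left (by rw [mul_comm]; exact hA) _
  · simp only [if_neg hv]
    simp

theorem exists_disperser {V : Type} [Fintype V] [DecidableEq V] (m Δ b : ℕ) (hm : 0 < m)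
    (h : Fintype.card V ^ b * 2 ^ m < 2 ^ (Δ * b)) :
    ∃ φ : V → Fin Δ → Fin m, Disperser b φ := by
  classical
  by_contra hno
  push Not at hno
  set P : Finset (Finset V × Finset (Fin m)) :=
    (Finset.powersetCard b Finset.univ) ×ˢ (Finset.univ.filter fun A => 2 * A.card ≤ m) with hP
  have hcov : (Finset.univ : Finset (V → Fin Δ → Fin m)) ⊆ P.biUnion fun p => badD p.1 p.2 := by
    intro φ _
    have h1 := hno φ
    unfold Disperser at h1
    push Not at h1
    obtain ⟨B₀, hB₀, hlt⟩ := h1
    obtain ⟨B, hBB, hB⟩ := Finset.exists_subset_card_eq hB₀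
    rw [Finset.mem_biUnion]
    refine ⟨(B, B.biUnion fun v => Finset.univ.image (φ v)), ?_, ?_⟩
    · rw [hP, Finset.mem_product]
      refine ⟨Finset.mem_powersetCard.2 ⟨Finset.subset_univ _, hB⟩,
        Finset.mem_filter.2 ⟨Finset.mem_univ _, ?_⟩⟩
      have h2 : (B.biUnion fun v => Finset.univ.image (φ v)).card ≤
          (B₀.biUnion fun v => Finset.univ.image (φ v)).card :=
        Finset.card_le_card (Finset.biUnion_subset_biUnion_of_subset_left _ hBB)
      show 2 * (B.biUnion fun v => Finset.univ.image (φ v)).card ≤ m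
      omega
    · show φ ∈ badD B (B.biUnion fun v => Finset.univ.image (φ v))
      rw [badD, Fintype.mem_piFinset]
      intro v
      by_cases hv : v ∈ B
      · rw [if_pos hv, Fintype.mem_piFinset]
        intro j
        exact Finset.mem_biUnion.2 ⟨v, hv, Finset.mem_image_of_mem _ (Finset.mem_univ j)⟩
      · rw [if_neg hv]
        exact Finset.mem_univ _
  have hcard : Fintype.card (V → Fin Δ → Fin m) ≤ ∑ p ∈ P, (badD p.1 p.2 :
      Finset (V → Fin Δ → Fin m)).card := by
    rw [← Finset.card_univ]
    exact (Finset.card_le_card hcov).trans Finset.card_biUnion_le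
  have hsum : (∑ p ∈ P, (badD p.1 p.2 : Finset (V → Fin Δ → Fin m)).card) * 2 ^ (Δ * b) ≤
      P.card * Fintype.card (V → Fin Δ → Fin m) := by
    rw [Finset.sum_mul, ← smul_eq_mul (a := P.card), ← Finset.sum_const]
    refine Finset.sum_le_sum fun p hp => ?_
    rw [hP, Finset.mem_product, Finset.mem_powersetCard, Finset.mem_filter] at hp
    exact card_badD p.1 p.2 hp.1.2 hp.2.2
  have hPc : P.card ≤ Fintype.card V ^ b * 2 ^ m := by
    rw [hP, Finset.card_product, Finset.card_powersetCard, Finset.card_univ]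
    refine Nat.mul_le_mul (Nat.choose_le_pow _ _) ?_
    refine (Finset.card_filter_le _ _).trans ?_
    rw [Finset.card_univ, Fintype.card_finset, Fintype.card_fin]
  have hpos : 0 < Fintype.card (V → Fin Δ → Fin m) := by
    have : Nonempty (V → Fin Δ → Fin m) := ⟨fun _ _ => ⟨0, hm⟩⟩
    exact Fintype.card_pos
  have h3 : Fintype.card (V → Fin Δ → Fin m) * 2 ^ (Δ * b) ≤
      (Fintype.card V ^ b * 2 ^ m) * Fintype.card (V → Fin Δ → Fin m) :=
    (Nat.mul_le_mul_right _ hcard).trans (hsum.trans (Nat.mul_le_mul_right _ hPc))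
  rw [mul_comm] at h3
  exact absurd (Nat.le_of_mul_le_mul_right h3 hpos) (not_le.2 h)

end Pool.Agent.TOpt
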