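import Mathlib
import Pool.Agent.TOpt.Defs

/-!
# The recursive step for graphs with large pebbling number

PACKAGE. Prove `claim_base` and `claim_step` (helper lemmas allowed, keep the statements).

The new graph has the nodes `(V ⊕ V) ⊕ Fin m'`: two copies `G¹`, `G²` of the graph on `V`, and a new
end layer `T = Fin m'`. A node `v` of `G²` gets the additional predecessors `E (φ v j)` in `G¹`, a
node `t` of `T` has the predecessors `E (ψ t j)` in `G²`.

PROOF of `claim_base`. The graph has the nodes `Fin f ⊕ Fin m`, the predecessors of every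
`Sum.inr _` are all `Sum.inl _`. As `1 ≤ w`, some `Sum.inr i` is placed between `s` and `e`: there is
`t` with `s ≤ t < e`, `inr i ∉ C t`, `inr i ∈ C (t + 1)`. By `Legal` (the first alternative is
impossible; in the second one the new node is `inr i`), `C t` contains all `inl _`, so
`f ≤ (C t).card`.

PROOF of `claim_step`. Let `C`, `s`, `e` be given, `C` legal, `(C s).card < θ'`, and at least `w'`
nodes of `T` placed between `s` and `e`. Suppose that `(C t).card < F'` for all `t` in `[s, e]`. Let
`C1 t`, `C2 t : Finset V` be the parts of `C t` in the two copies (`preimage`s of `C t`, e.g.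
`univ.filter` is not available without `Fintype`; use `(C t).preimage (inl ∘ inl)`), `c1 t`, `c2 t`
their cardinalities. `c1 t + c2 t ≤ (C t).card`. `C1` and `C2` are legal for `pr`; `c2 (t + 1) ≤
c2 t + 1`. General facts: (F1) if `t` of the new graph is placed between `a` and `b` then all its
predecessors carry a pebble at some time `t'` with `a ≤ t' < b`. (F2) a node which carries a pebble at
some time `t'`, `a ≤ t' ≤ b`, and not at time `a`, is placed between `a` and `b`.
Let `NT B := B.biUnion fun t => univ.image (ψ t)` be the neighbours (in `Fin m`) of `B`.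
(1) There are `a ≤ b` in `[s, e]` with `θ ≤ c2 t` for all `t ∈ [a, b]`, and at least `β` nodes `v : V`
are placed for `C2` between `a` and `b`.
 Case (i): `θ ≤ c2 t` for all `t ∈ [s, e]`, or, with `t3` the first time `≥ s` with `c2 t3 < θ`
 (`t3 ≤ e`), at least `u` nodes of `T` are placed between `s` and `t3`. Take `a = s` and `b = e` or
 `b = t3 - 1` (note `t3 > s`, as `u ≥ 1` nodes are placed before; every node placed between `s` and
 `t3` is placed in a step `t → t + 1` with `t ≤ t3 - 1`). Let `B` be the set of these at least `u`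
 nodes of `T` (in the first alternative `w' ≥ 2 u ≥ u`). By `hψ`, `m ≤ 2 (NT B).card`; for `i ∈ NT B`
 the node `E i` of `G²` carries a pebble at some time in `[a, b]` (F1: in the step `t → t+1` of the
 placement the predecessors are in `C t`, `t ≤ b`). At most `(C s).card < θ'` of them carry a pebble
 at time `s` (`E` is injective), the others are placed between `a` and `b` (F2). Their number is at
 least `β` since `2 (β + θ') ≤ m`.
 Case (ii): `t3` exists and less than `u` nodes of `T` are placed between `s` and `t3`. Then more than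
 `w' - u ≥ u` nodes of `T` are placed between `t3` and `e` (a node placed between `s` and `e` is
 placed between `s` and `t3` or between `t3` and `e`). As before at least `m / 2` of the nodes `E i`
 of `G²` carry a pebble at some time in `[t3, e]`, less than `θ` of them at time `t3`, so, since
 `2 (w + θ) ≤ m`, at least `w` of them are placed for `C2` between `t3` and `e`. By `h` for `C2`
 there is `b` in `[t3, e]` with `F ≤ c2 b`. Let `a - 1` be the last time in `[t3, b]` with
 `c2 (a - 1) < θ` (`Nat.findGreatest` or induction on `b`); then `a ≤ b`, `θ ≤ c2` on `[a, b]` and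
 `c2 a ≤ θ`, so at least `c2 b - c2 a ≥ F - θ = β` nodes are in `C2 b \ C2 a`, and they are placed
 between `a` and `b` (F2).
(2) At time `a`: `c1 a + c2 a ≤ (C a).card < F' ≤ 2 θ` and `θ ≤ c2 a`, so `c1 a < θ`. Let `B : Finset V`
 be a set of at least `β` nodes placed for `C2` between `a` and `b`. By `hφ` they have at least
 `m / 2` neighbours `i : Fin m`; for these `E i` of `G¹` carries a pebble at some time in `[a, b]`, less
 than `θ` of them at time `a`, so at least `w` of the `E i` are placed for `C1` between `a` and `b`.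
 By `h` for `C1` there is `t ∈ [a, b]` with `F ≤ c1 t`, and `θ ≤ c2 t`. So
 `(C t).card ≥ F + θ ≥ 2 θ ≥ F'`, a contradiction.
-/

set_option autoImplicit false

namespace Pool.Agent.TOpt

section RecStepAux

variable {N : Type} [DecidableEq N]

/-- Predecessors carry pebbles when a node is placed. -/
private theorem recStep_F1 {pr : N → Finset N} {C : ℕ → Finset N} (hL : Legal pr C) {a b : ℕ}
    {x : N} (h : Placed C a b x) : ∃ t, a ≤ t ∧ t < b ∧ pr x ⊆ C t := by
  obtain ⟨t, h1, h2, h3, h4⟩ := h
  refine ⟨t, h1, h2, ?_⟩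
  rcases hL t with h5 | ⟨v, h5, h6⟩
  · exact absurd (h5 h4) h3
  · have h7 := h5 h4
    rw [Finset.mem_insert] at h7
    rcases h7 with h7 | h7
    · rw [h7]; exact h6
    · exact absurd h7 h3

/-- A node with a pebble at some time but not at time `a` is placed. -/
private theorem recStep_F2 {C : ℕ → Finset N} {a b t : ℕ} {x : N} (hat : a ≤ t) (htb : t ≤ b)
    (hx : x ∈ C t) (ha : x ∉ C a) : Placed C a b x := by
  induction t, hat using Nat.le_induction with
  | base => exact absurd hx ha
  | succ t hat ih =>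
    by_cases h : x ∈ C t
    · exact ih (by omega) h
    · exact ⟨t, hat, by omega, h, hx⟩

/-- Splitting an interval. -/
private theorem recStep_split {N : Type} {C : ℕ → Finset N} {s c e : ℕ} {x : N}
    (h : Placed C s e x) : Placed C s c x ∨ Placed C c e x := by
  obtain ⟨t, h1, h2, h3, h4⟩ := h
  by_cases h5 : t < c
  · exact Or.inl ⟨t, h1, h5, h3, h4⟩
  · exact Or.inr ⟨t, by omega, h2, h3, h4⟩

/-- The part of a pebbling sequence. -/
private noncomputable def recPart {V : Type} (ι : V → N) (hι : Function.Injective ι)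
    (C : ℕ → Finset N) (t : ℕ) : Finset V :=
  (C t).preimage ι hι.injOn

private theorem recPart_mem {N V : Type} {ι : V → N} {hι : Function.Injective ι}
    {C : ℕ → Finset N} {t : ℕ} {v : V} : v ∈ recPart ι hι C t ↔ ι v ∈ C t := by
  simp [recPart]

private theorem recPart_legal {V : Type} [DecidableEq V] {ι : V → N} {hι : Function.Injective ι}
    {C : ℕ → Finset N} {pr' : N → Finset N} {pr : V → Finset V}
    (hp : ∀ v, ∀ u ∈ pr v, ι u ∈ pr' (ι v)) (hL : Legal pr' C) : Legal pr (recPart ι hι C) := by
  intro t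
  rcases hL t with h | ⟨x, h1, h2⟩
  · exact Or.inl fun v hv => recPart_mem.2 (h (recPart_mem.1 hv))
  · by_cases hx : ∃ v, ι v = x
    · obtain ⟨v, rfl⟩ := hx
      refine Or.inr ⟨v, fun u hu => ?_, fun u hu => recPart_mem.2 (h2 (hp v u hu))⟩
      have := h1 (recPart_mem.1 hu)
      rw [Finset.mem_insert] at this ⊢
      rcases this with h3 | h3
      · exact Or.inl (hι h3)
      · exact Or.inr (recPart_mem.2 h3)
    · refine Or.inl fun u hu => ?_
      have := h1 (recPart_mem.1 hu)
      rw [Finset.mem_insert] at this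
      rcases this with h3 | h3
      · exact absurd ⟨u, h3⟩ hx
      · exact recPart_mem.2 h3

private theorem recPart_placed {N V : Type} {ι : V → N} {hι : Function.Injective ι}
    {C : ℕ → Finset N} {a b : ℕ} {v : V} (h : Placed (recPart ι hι C) a b v) :
    Placed C a b (ι v) := by
  obtain ⟨t, h1, h2, h3, h4⟩ := h
  exact ⟨t, h1, h2, fun h => h3 (recPart_mem.2 h), recPart_mem.1 h4⟩

private theorem recStep_succ {pr : N → Finset N} {C : ℕ → Finset N} (hL : Legal pr C) (t : ℕ) :
    (C (t + 1)).card ≤ (C t).card + 1 := by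
  rcases hL t with h | ⟨x, h1, _⟩
  · exact (Finset.card_le_card h).trans (Nat.le_succ _)
  · exact (Finset.card_le_card h1).trans (Finset.card_insert_le _ _)

open Classical in
/-- The counting step. -/
private theorem recStep_count {V W : Type} [DecidableEq V] [DecidableEq W] {m Δ b' a b : ℕ}
    {E : Fin m → V}
    (hE : Function.Injective E) {φ : W → Fin Δ → Fin m} (hφ : Disperser b' φ)
    (D : ℕ → Finset V) (B : Finset W) (hB : b' ≤ B.card)
    (hfull : ∀ y ∈ B, ∃ t, a ≤ t ∧ t ≤ b ∧ ∀ j, E (φ y j) ∈ D t) :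
    m ≤ 2 * ((Finset.univ.filter fun i => Placed D a b (E i)).card + (D a).card) := by
  have h1 := hφ B hB
  refine h1.trans (Nat.mul_le_mul_left 2 ?_)
  have h2 : (B.biUnion fun v => Finset.univ.image (φ v)) ⊆
      (Finset.univ.filter fun i => Placed D a b (E i)) ∪
        (Finset.univ.filter fun i => E i ∈ D a) := by
    intro i hi
    rw [Finset.mem_biUnion] at hi
    obtain ⟨y, hy, hi⟩ := hi
    rw [Finset.mem_image] at hi
    obtain ⟨j, _, rfl⟩ := hi
    obtain ⟨t, h3, h4, h5⟩ := hfull y hy
    rw [Finset.mem_union, Finset.mem_filter, Finset.mem_filter]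
    by_cases h6 : E (φ y j) ∈ D a
    · exact Or.inr ⟨Finset.mem_univ _, h6⟩
    · exact Or.inl ⟨Finset.mem_univ _, recStep_F2 h3 h4 (h5 j) h6⟩
  refine (Finset.card_le_card h2).trans ((Finset.card_union_le _ _).trans ?_)
  refine Nat.add_le_add_left ?_ _
  exact Finset.card_le_card_of_injOn E
    (fun i hi => by simpa using hi) hE.injOn

end RecStepAux

/-- The first graph. -/
def pr0 (f m : ℕ) : Fin f ⊕ Fin m → Finset (Fin f ⊕ Fin m)
  | Sum.inl _ => ∅
  | Sum.inr _ => Finset.univ.image Sum.inl

theorem claim_base (f m θ w : ℕ) (hw : 1 ≤ w) :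
    Claim (pr0 f m) (fun i : Fin m => Sum.inr i) θ f w := by
  classical
  intro C s e hL hse hs hcount
  obtain ⟨i, hi⟩ := Finset.card_pos.1 (lt_of_lt_of_le hw hcount)
  obtain ⟨t, h1, h2, h3⟩ := recStep_F1 hL (Finset.mem_filter.1 hi).2
  refine ⟨t, h1, h2.le, ?_⟩
  have h4 : (Finset.univ.image (Sum.inl : Fin f → Fin f ⊕ Fin m)).card ≤ (C t).card :=
    Finset.card_le_card h3
  rw [Finset.card_image_of_injective _ Sum.inl_injective, Finset.card_univ,
    Fintype.card_fin] at h4
  exact h4

/-- The step of the recursion. -/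
def prS {V : Type} [DecidableEq V] {m m' Δ : ℕ} (pr : V → Finset V) (E : Fin m → V)
    (φ : V → Fin Δ → Fin m) (ψ : Fin m' → Fin Δ → Fin m) :
    (V ⊕ V) ⊕ Fin m' → Finset ((V ⊕ V) ⊕ Fin m')
  | Sum.inl (Sum.inl v) => (pr v).image fun u => Sum.inl (Sum.inl u)
  | Sum.inl (Sum.inr v) => ((pr v).image fun u => Sum.inl (Sum.inr u)) ∪
      Finset.univ.image fun j => Sum.inl (Sum.inl (E (φ v j)))
  | Sum.inr t => Finset.univ.image fun j => Sum.inl (Sum.inr (E (ψ t j)))

theorem claim_step {V : Type} [DecidableEq V] {m m' Δ : ℕ} {pr : V → Finset V} {E : Fin m → V}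
    (hE : Function.Injective E) {θ F w β u θ' F' w' : ℕ} (h : Claim pr E θ F w)
    {φ : V → Fin Δ → Fin m} (hφ : Disperser β φ) {ψ : Fin m' → Fin Δ → Fin m}
    (hψ : Disperser u ψ) (hF : F = θ + β) (hu : 1 ≤ u) (hw : 2 * u ≤ w') (hF' : F' ≤ 2 * θ)
    (hm1 : 2 * (w + θ) ≤ m) (hm2 : 2 * (β + θ') ≤ m) :
    Claim (prS pr E φ ψ) (fun t : Fin m' => (Sum.inr t : (V ⊕ V) ⊕ Fin m')) θ' F' w' := by
  classical
  intro C s e hL hse hs hcount
  by_contra hcon
  push Not at hcon
  set ι1 : V → (V ⊕ V) ⊕ Fin m' := fun v => Sum.inl (Sum.inl v) with hι1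
  set ι2 : V → (V ⊕ V) ⊕ Fin m' := fun v => Sum.inl (Sum.inr v) with hι2
  have inj1 : Function.Injective ι1 := fun a b hab => by simpa [hι1] using hab
  have inj2 : Function.Injective ι2 := fun a b hab => by simpa [hι2] using hab
  set C1 := recPart ι1 inj1 C with hC1
  set C2 := recPart ι2 inj2 C with hC2
  have hL1 : Legal pr C1 := recPart_legal (pr' := prS pr E φ ψ) (by
    intro v u hu
    simp only [hι1, prS, Finset.mem_image]
    exact ⟨u, hu, rfl⟩) hL
  have hL2 : Legal pr C2 := recPart_legal (pr' := prS pr E φ ψ) (by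
    intro v u hu
    simp only [hι2, prS, Finset.mem_union, Finset.mem_image]
    exact Or.inl ⟨u, hu, rfl⟩) hL
  have hsum : ∀ t, (C1 t).card + (C2 t).card ≤ (C t).card := by
    intro t
    have h1 : (C1 t).card = ((C1 t).image ι1).card := (Finset.card_image_of_injective _ inj1).symm
    have h2 : (C2 t).card = ((C2 t).image ι2).card := (Finset.card_image_of_injective _ inj2).symm
    rw [h1, h2, ← Finset.card_union_of_disjoint]
    · refine Finset.card_le_card ?_
      intro x hx
      rw [Finset.mem_union, Finset.mem_image, Finset.mem_image] at hx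
      rcases hx with ⟨v, hv, rfl⟩ | ⟨v, hv, rfl⟩
      · exact recPart_mem.1 hv
      · exact recPart_mem.1 hv
    · rw [Finset.disjoint_left]
      intro x hx hx'
      rw [Finset.mem_image] at hx hx'
      obtain ⟨v, _, rfl⟩ := hx
      obtain ⟨v', _, h'⟩ := hx'
      simp [hι1, hι2] at h'
  have hfullT : ∀ {a b : ℕ} (t : Fin m'), Placed C a b (Sum.inr t : (V ⊕ V) ⊕ Fin m') →
      ∃ t', a ≤ t' ∧ t' < b ∧ ∀ j, E (ψ t j) ∈ C2 t' := by
    intro a b t ht
    obtain ⟨t', h1, h2, h3⟩ := recStep_F1 hL ht
    refine ⟨t', h1, h2, fun j => recPart_mem.2 (h3 ?_)⟩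
    simp only [prS, Finset.mem_image]
    exact ⟨j, Finset.mem_univ _, rfl⟩
  have hfullV : ∀ {a b : ℕ} (v : V), Placed C2 a b v →
      ∃ t', a ≤ t' ∧ t' < b ∧ ∀ j, E (φ v j) ∈ C1 t' := by
    intro a b v hv
    obtain ⟨t', h1, h2, h3⟩ := recStep_F1 hL (recPart_placed hv)
    refine ⟨t', h1, h2, fun j => recPart_mem.2 (h3 ?_)⟩
    simp only [hι2, prS, Finset.mem_union, Finset.mem_image]
    exact Or.inr ⟨j, Finset.mem_univ _, rfl⟩
  -- the nodes of `T` placed between `s` and `e`
  set P : ℕ → ℕ → Finset (Fin m') := fun a b =>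
    Finset.univ.filter fun t => Placed C a b (Sum.inr t : (V ⊕ V) ⊕ Fin m') with hP
  have hPse : w' ≤ (P s e).card := hcount
  -- step (1)
  have key1 : ∃ a b, s ≤ a ∧ a ≤ b ∧ b ≤ e ∧ (∀ t, a ≤ t → t ≤ b → θ ≤ (C2 t).card) ∧
      ∃ B : Finset V, β ≤ B.card ∧ ∀ v ∈ B, Placed C2 a b v := by
    have first : ∀ b, s ≤ b → b ≤ e → (∀ t, s ≤ t → t ≤ b → θ ≤ (C2 t).card) →
        ∀ B : Finset (Fin m'), u ≤ B.card →
        (∀ y ∈ B, ∃ t, s ≤ t ∧ t ≤ b ∧ ∀ j, E (ψ y j) ∈ C2 t) →
        ∃ a b, s ≤ a ∧ a ≤ b ∧ b ≤ e ∧ (∀ t, a ≤ t → t ≤ b → θ ≤ (C2 t).card) ∧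
      ∃ B : Finset V, β ≤ B.card ∧ ∀ v ∈ B, Placed C2 a b v := by
      intro b hsb hbe hθ B hB hfull
      have h1 := recStep_count hE hψ C2 B hB hfull
      have h2 := hsum s
      refine ⟨s, b, le_rfl, hsb, hbe, hθ,
        (Finset.univ.filter fun i => Placed C2 s b (E i)).image E, ?_, ?_⟩
      · rw [Finset.card_image_of_injective _ hE]
        omega
      · intro v hv
        rw [Finset.mem_image] at hv
        obtain ⟨i, hi, rfl⟩ := hv
        exact (Finset.mem_filter.1 hi).2
    by_cases hall : ∀ t, s ≤ t → t ≤ e → θ ≤ (C2 t).card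
    · refine first e hse le_rfl hall (P s e) (by omega) ?_
      intro y hy
      obtain ⟨t', h1, h2, h3⟩ := hfullT y (Finset.mem_filter.1 hy).2
      exact ⟨t', h1, h2.le, h3⟩
    · push Not at hall
      have hex : ∃ t, s ≤ t ∧ t ≤ e ∧ (C2 t).card < θ := hall
      set t3 := Nat.find hex with ht3
      obtain ⟨h31, h32, h33⟩ : s ≤ t3 ∧ t3 ≤ e ∧ (C2 t3).card < θ := Nat.find_spec hex
      have hmin : ∀ t, s ≤ t → t < t3 → θ ≤ (C2 t).card := by
        intro t hst htt
        by_contra hlt
        exact Nat.find_min hex htt ⟨hst, by omega, by omega⟩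
      by_cases hu3 : u ≤ (P s t3).card
      · have hpos : 0 < (P s t3).card := by omega
        obtain ⟨y0, hy0⟩ := Finset.card_pos.1 hpos
        obtain ⟨t0, h01, h02, -, -⟩ := (Finset.mem_filter.1 hy0).2
        refine first (t3 - 1) (by omega) (by omega) (fun t h1 h2 => hmin t h1 (by omega))
          (P s t3) hu3 ?_
        intro y hy
        obtain ⟨t', h1, h2, h3⟩ := hfullT y (Finset.mem_filter.1 hy).2
        exact ⟨t', h1, by omega, h3⟩
      · push Not at hu3
        have hsub : P s e ⊆ P s t3 ∪ P t3 e := by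
          intro y hy
          rw [Finset.mem_union]
          rcases recStep_split (c := t3) (Finset.mem_filter.1 hy).2 with h1 | h1
          · exact Or.inl (Finset.mem_filter.2 ⟨Finset.mem_univ _, h1⟩)
          · exact Or.inr (Finset.mem_filter.2 ⟨Finset.mem_univ _, h1⟩)
        have hc := (Finset.card_le_card hsub).trans (Finset.card_union_le _ _)
        have h1 := recStep_count hE hψ C2 (P t3 e) (a := t3) (b := e) (by omega) (by
          intro y hy
          obtain ⟨t', h1, h2, h3⟩ := hfullT y (Finset.mem_filter.1 hy).2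
          exact ⟨t', h1, h2.le, h3⟩)
        have h4 : w ≤ (Finset.univ.filter fun i => Placed C2 t3 e (E i)).card := by omega
        obtain ⟨b, hb1, hb2, hb3⟩ := h C2 t3 e hL2 h32 h33 h4
        -- the last time before `b` with few pebbles
        set c := Nat.findGreatest (fun t => t3 ≤ t ∧ (C2 t).card < θ) b with hc'
        have hcs : t3 ≤ c ∧ (C2 c).card < θ :=
          Nat.findGreatest_spec (P := fun t => t3 ≤ t ∧ (C2 t).card < θ) hb1 ⟨le_rfl, h33⟩
        have hcb : c ≤ b := Nat.findGreatest_le b
        have hcb' : c < b := by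
          rcases lt_or_eq_of_le hcb with h5 | h5
          · exact h5
          · exfalso
            have := hcs.2
            rw [h5] at this
            omega
        have hgr : ∀ t, c < t → t ≤ b → θ ≤ (C2 t).card := by
          intro t h5 h6
          by_contra h7
          exact Nat.findGreatest_is_greatest h5 h6 ⟨by omega, by omega⟩
        have hstep := recStep_succ hL2 c
        refine ⟨c + 1, b, by omega, hcb', hb2, fun t h5 h6 => hgr t (by omega) h6,
          C2 b \ C2 (c + 1), ?_, ?_⟩
        · have h5 := Finset.le_card_sdiff (C2 (c + 1)) (C2 b)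
          omega
        · intro v hv
          rw [Finset.mem_sdiff] at hv
          exact recStep_F2 hcb' le_rfl hv.1 hv.2
  obtain ⟨a, b, hsa, hab, hbe, hθ, B, hB, hBp⟩ := key1
  have hlt : (C1 a).card < θ := by
    have h1 := hcon a hsa (hab.trans hbe)
    have h2 := hsum a
    have h3 := hθ a le_rfl hab
    omega
  have h1 := recStep_count hE hφ C1 B (a := a) (b := b) hB (by
    intro y hy
    obtain ⟨t', h1, h2, h3⟩ := hfullV y (hBp y hy)
    exact ⟨t', h1, h2.le, h3⟩)
  have h5 : w ≤ (Finset.univ.filter fun i => Placed C1 a b (E i)).card := by omega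
  obtain ⟨t, ht1, ht2, ht3⟩ := h C1 a b hL1 hab hlt h5
  have h2 := hcon t (hsa.trans ht1) (ht2.trans hbe)
  have h3 := hsum t
  have h4 := hθ t ht1 ht2
  omega

end Pool.Agent.TOpt
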