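import Mathlib
import Pool.Agent.TOpt.RecStep
import Pool.Agent.TOpt.Disp

/-!
# The family of graphs

PACKAGE. Prove `exists_family` from the theorems of the imported files (other packages; use them as
they are stated).

PROOF. Induction on `k`. `k = 0`: the graph `pr0 (2 * K) (8 * K + 2)`, with `E i = inr i`,
`h (inl _) = 0`, `h (inr _) = 1`, `claim_base` (`2 * K ≥ 1`); `card = 2K + 8K + 2`.
Step `k → k + 1 ≤ K`: `m = 2 ^ k * (8K + 2)`, `m' = 2 ^ (k+1) * (8K+2)`, `Δ = 16 K`, `β = 2 ^ k`,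
`u = 2 ^ k * (2K)`, `θ = 2 ^ k (2K - k - 1)`, `F = 2 ^ k (2K - k) = θ + β`,
`θ' = 2 ^ (k+1) (2K - k - 2)`, `F' = 2 ^ (k+1) (2K - k - 1) = 2 θ`, `w = 2 ^ k * (2K)`,
`w' = 2 ^ (k+1) * (2K) = 2 u`. `2 (w + θ) ≤ 2 * 2 ^ k * 4K ≤ m`, `2 (β + θ') ≤ 2 * 2 ^ k (1 + 4K) = m`.
Dispersers: `exists_disperser` for `V`, `m`, `Δ`, `β`: with
`card V = 2 ^ k (10K + 2 + k (8K + 2)) ≤ 2 ^ k * 2 ^ (c)`. One needs
`card V ^ β * 2 ^ m < 2 ^ (Δ β)`, i.e. `card V * 2 ^ (8K+2) < 2 ^ (16 K)` (then raise to the power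
`β = 2 ^ k ≥ 1`), i.e. `card V < 2 ^ (8K - 2)`: true for `K ≥ 2`, as
`card V ≤ 2 ^ K (10K + 2 + K (8K+2)) = 2 ^ K (8 K^2 + 12 K + 2)` and `8K^2+12K+2 < 2 ^ (7K - 2)` for
`K ≥ 2` (`K = 2`: `58 < 4096`). And for `Fin m'`, `m`, `Δ`, `u = 2K β`: `m' ^ u * 2 ^ m < 2 ^ (Δ u)`:
`m = β (8K+2) ≤ u * (8K+2)`, so it suffices that `m' * 2 ^ (8K+2) < 2 ^ (16K)`, true as
`m' ≤ 2 ^ K (8K+2)`. New graph `prS pr E φ ψ`, `h' (inl (inl v)) = h v`, `h' (inl (inr v)) = h v + H`,
`h' (inr t) = 2 H`, where `H` is greater than all `h v`. In-degrees: at most the old one, the old one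
plus `Δ`, and `Δ`. `card = 2 card V + m'`.
-/

set_option autoImplicit false

namespace Pool.Agent.TOpt

private theorem rf_num (K : ℕ) (hK : 2 ≤ K) : 8 * K ^ 2 + 12 * K + 2 < 2 ^ (7 * K - 2) := by
  induction K, hK using Nat.le_induction with
  | base => norm_num
  | succ K hK ih =>
    have e : 7 * (K + 1) - 2 = (7 * K - 2) + 7 := by omega
    rw [e, pow_add]
    nlinarith

private theorem rf_main (K : ℕ) (hK : 2 ≤ K) :
    2 ^ K * (8 * K ^ 2 + 12 * K + 2) * 2 ^ (8 * K + 2) < 2 ^ (16 * K) := by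
  have h := rf_num K hK
  have e : 2 ^ (16 * K) = 2 ^ K * 2 ^ (7 * K - 2) * 2 ^ (8 * K + 2) := by
    rw [← pow_add, ← pow_add]
    congr 1
    omega
  rw [e]
  exact Nat.mul_lt_mul_of_pos_right (Nat.mul_lt_mul_of_pos_left h (by positivity)) (by positivity)

private theorem rf_pow {c K β : ℕ} (hβ : 1 ≤ β) (h : c * 2 ^ (8 * K + 2) < 2 ^ (16 * K)) {m : ℕ}
    (hm : m ≤ β * (8 * K + 2)) : c ^ β * 2 ^ m < 2 ^ (16 * K * β) := by
  calc c ^ β * 2 ^ m ≤ c ^ β * 2 ^ (β * (8 * K + 2)) :=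
        Nat.mul_le_mul_left _ (Nat.pow_le_pow_right (by norm_num) hm)
    _ = (c * 2 ^ (8 * K + 2)) ^ β := by
        rw [mul_pow, ← pow_mul, mul_comm β]
    _ < (2 ^ (16 * K)) ^ β := Nat.pow_lt_pow_left h (by omega)
    _ = 2 ^ (16 * K * β) := by rw [← pow_mul]

theorem exists_family (K : ℕ) (hK : 2 ≤ K) : ∀ k ≤ K, ∃ (V : Type) (_ : Fintype V)
    (_ : DecidableEq V) (pr : V → Finset V) (h : V → ℕ) (E : Fin (2 ^ k * (8 * K + 2)) → V),
    Function.Injective E ∧ (∀ v, ∀ u ∈ pr v, h u < h v) ∧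
    (∀ v, (pr v).card ≤ 2 * K + k * (16 * K)) ∧
    Fintype.card V = 2 ^ k * (10 * K + 2 + k * (8 * K + 2)) ∧
    Claim pr E (2 ^ k * (2 * K - k - 1)) (2 ^ k * (2 * K - k)) (2 ^ k * (2 * K)) := by
  intro k
  induction k with
  | zero =>
    intro _
    refine ⟨Fin (2 * K) ⊕ Fin (2 ^ 0 * (8 * K + 2)), inferInstance, inferInstance,
      pr0 (2 * K) (2 ^ 0 * (8 * K + 2)), Sum.elim (fun _ => 0) (fun _ => 1),
      fun i => Sum.inr i, Sum.inr_injective, ?_, ?_, ?_, ?_⟩
    · rintro (v | v) u hu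
      · simp [pr0] at hu
      · simp only [pr0, Finset.mem_image] at hu
        obtain ⟨i, -, rfl⟩ := hu
        simp
    · rintro (v | v)
      · simp [pr0]
      · have h1 : (pr0 (2 * K) (2 ^ 0 * (8 * K + 2)) (Sum.inr v)).card ≤ 2 * K := by
          refine (Finset.card_image_le).trans ?_
          rw [Finset.card_univ, Fintype.card_fin]
        omega
    · rw [Fintype.card_sum, Fintype.card_fin, Fintype.card_fin]
      ring
    · have e : 2 ^ 0 * (2 * K - 0) = 2 * K := by rw [pow_zero, one_mul, Nat.sub_zero]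
      rw [e]
      refine claim_base (2 * K) (2 ^ 0 * (8 * K + 2)) _ _ ?_
      rw [pow_zero, one_mul]
      omega
  | succ k ih =>
    intro hk
    obtain ⟨V, _, _, pr, h, E, hE, hlt, hdeg, hcard, hcl⟩ := ih (by omega)
    have hk2 : 1 ≤ 2 ^ k := Nat.one_le_two_pow
    have hkK : 2 ^ k ≤ 2 ^ K := Nat.pow_le_pow_right (by norm_num) (by omega)
    have hkK1 : 2 ^ (k + 1) ≤ 2 ^ K := Nat.pow_le_pow_right (by norm_num) hk
    have hmain := rf_main K hK
    have hu1 : 1 ≤ 2 ^ k * (2 * K) := Nat.one_le_iff_ne_zero.2 (by positivity)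
    have hm0 : 0 < 2 ^ k * (8 * K + 2) := by positivity
    -- the first disperser
    have h1 : Fintype.card V ^ (2 ^ k) * 2 ^ (2 ^ k * (8 * K + 2)) < 2 ^ (16 * K * 2 ^ k) := by
      refine rf_pow hk2 (lt_of_le_of_lt (Nat.mul_le_mul_right _ ?_) hmain) le_rfl
      rw [hcard]
      refine Nat.mul_le_mul hkK ?_
      have h2 : k * (8 * K + 2) ≤ K * (8 * K + 2) := Nat.mul_le_mul_right _ (by omega)
      nlinarith
    obtain ⟨φ, hφ⟩ := exists_disperser (V := V) (2 ^ k * (8 * K + 2)) (16 * K) (2 ^ k) hm0 h1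
    -- the second one
    have h2 : Fintype.card (Fin (2 ^ (k + 1) * (8 * K + 2))) ^ (2 ^ k * (2 * K)) *
        2 ^ (2 ^ k * (8 * K + 2)) < 2 ^ (16 * K * (2 ^ k * (2 * K))) := by
      refine rf_pow hu1 (lt_of_le_of_lt (Nat.mul_le_mul_right _ ?_) hmain) ?_
      · rw [Fintype.card_fin]
        refine Nat.mul_le_mul hkK1 ?_
        nlinarith
      · refine Nat.mul_le_mul_right _ ?_
        exact Nat.le_mul_of_pos_right _ (by omega)
    obtain ⟨ψ, hψ⟩ := exists_disperser (V := Fin (2 ^ (k + 1) * (8 * K + 2)))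
      (2 ^ k * (8 * K + 2)) (16 * K) (2 ^ k * (2 * K)) hm0 h2
    set H := Finset.univ.sup h + 1 with hH
    have hhH : ∀ v, h v < H := fun v => Nat.lt_succ_of_le (Finset.le_sup (Finset.mem_univ v))
    refine ⟨(V ⊕ V) ⊕ Fin (2 ^ (k + 1) * (8 * K + 2)), inferInstance, inferInstance,
      prS pr E φ ψ, Sum.elim (Sum.elim h fun v => h v + H) fun _ => 2 * H,
      fun t => Sum.inr t, Sum.inr_injective, ?_, ?_, ?_, ?_⟩
    · rintro ((v | v) | v) u hu
      · simp only [prS, Finset.mem_image] at hu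
        obtain ⟨u', hu', rfl⟩ := hu
        exact hlt v u' hu'
      · simp only [prS, Finset.mem_union, Finset.mem_image] at hu
        rcases hu with ⟨u', hu', rfl⟩ | ⟨j, -, rfl⟩
        · have h3 := hlt v u' hu'
          simp only [Sum.elim_inl, Sum.elim_inr]
          omega
        · have h3 := hhH (E (φ v j))
          simp only [Sum.elim_inl, Sum.elim_inr]
          omega
      · simp only [prS, Finset.mem_image] at hu
        obtain ⟨j, -, rfl⟩ := hu
        have h3 := hhH (E (ψ v j))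
        simp only [Sum.elim_inl, Sum.elim_inr]
        omega
    · have e : 2 * K + (k + 1) * (16 * K) = 2 * K + k * (16 * K) + 16 * K := by ring
      rw [e]
      rintro ((v | v) | v)
      · have h3 := hdeg v
        have h4 : (prS pr E φ ψ (Sum.inl (Sum.inl v))).card ≤ (pr v).card := Finset.card_image_le
        omega
      · have h3 := hdeg v
        have h4 : (prS pr E φ ψ (Sum.inl (Sum.inr v))).card ≤ (pr v).card + 16 * K := by
          refine (Finset.card_union_le _ _).trans (add_le_add Finset.card_image_le ?_)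
          refine (Finset.card_image_le).trans ?_
          rw [Finset.card_univ, Fintype.card_fin]
        omega
      · have h4 : (prS pr E φ ψ (Sum.inr v)).card ≤ 16 * K := by
          refine (Finset.card_image_le).trans ?_
          rw [Finset.card_univ, Fintype.card_fin]
        omega
    · rw [Fintype.card_sum, Fintype.card_sum, Fintype.card_fin, hcard]
      ring
    · obtain ⟨a, ha⟩ : ∃ a, 2 * K = a + k + 1 := ⟨2 * K - k - 1, by omega⟩
      refine claim_step hE hcl hφ hψ ?_ hu1 ?_ ?_ ?_ ?_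
      · have e1 : 2 * K - k = a + 1 := by omega
        have e2 : 2 * K - k - 1 = a := by omega
        rw [e2, e1]
        ring
      · rw [pow_succ]
        exact le_of_eq (by ring)
      · have e1 : 2 * K - (k + 1) = a := by omega
        have e2 : 2 * K - k - 1 = a := by omega
        rw [e2, e1, pow_succ]
        exact le_of_eq (by ring)
      · rw [← mul_add, ← mul_assoc, mul_comm 2 (2 ^ k), mul_assoc]
        exact Nat.mul_le_mul_left _ (by omega)
      · have e1 : 2 * (2 ^ k + 2 ^ (k + 1) * (2 * K - (k + 1) - 1)) =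
            2 ^ k * (2 * (1 + 2 * (2 * K - (k + 1) - 1))) := by
          rw [pow_succ]
          ring
        rw [e1]
        exact Nat.mul_le_mul_left _ (by omega)

end Pool.Agent.TOpt
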