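import Mathlib
import Pool.Agent.TOpt.RecFam
import Pool.Agent.TOpt.Chain

/-!
# Graphs with large pebbling number

PACKAGE. Prove `exists_dag` from `exists_family` and `exists_chain` (other packages).

PROOF. Take `k = K` in `exists_family`, `r = 2K + K * 16K ≤ 18 K^2`, `m = 2 ^ K (8K+2)`,
`θ = 2 ^ K (K - 1) ≥ 1`, `F = 2 ^ K * K`, `w = 2 ^ K * 2K ≤ m`, `d = 2 ^ K / (20 * K)`:
`(r + 1) * d ≤ (18 K^2 + 1) * (2 ^ K / (20 K)) < 2 ^ K * K`, since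
`20 K * (r + 1) * d ≤ (18 K^2 + 1) 2 ^ K < 20 K^2 2 ^ K`. The number of nodes is at most
`2 ^ K (10K + 2 + K (8K+2)) (18K^2 + 1) + 2 ^ K (8K + 2) + 1 ≤ 2 ^ K * 1000 * K ^ 4`
(`10K+2+K(8K+2) ≤ 24 K^2`, `18 K^2 + 1 ≤ 19 K^2`, `24 * 19 = 456`, `8K+3 ≤ 12 K^4`).
-/

set_option autoImplicit false

namespace Pool.Agent.TOpt

theorem exists_dag (K : ℕ) (hK : 2 ≤ K) :
    ∃ (V : Type) (_ : Fintype V) (_ : DecidableEq V) (pd : V → Option (V × V)) (τ : V)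
      (h : V → ℕ), Fintype.card V ≤ 2 ^ K * (1000 * K ^ 4) ∧
      (∀ v p, pd v = some p → h p.1 < h v ∧ h p.2 < h v) ∧
      ∀ T, Reach (prs pd) (2 ^ K / (20 * K)) T → τ ∉ T := by
  obtain ⟨V, _, _, pr, h, E, -, hlt, hdeg, hcard, hcl⟩ := exists_family K hK K le_rfl
  have hP : 1 ≤ 2 ^ K := Nat.one_le_two_pow
  have e2 : 2 * K - K = K := by omega
  rw [e2] at hcl
  -- the condition on d
  have hd : (2 * K + K * (16 * K) + 1) * (2 ^ K / (20 * K)) < 2 ^ K * K := by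
    have h1 : 20 * K * (2 ^ K / (20 * K)) ≤ 2 ^ K := Nat.mul_div_le _ _
    have h2 : 2 * K + K * (16 * K) + 1 < 20 * K * K := by nlinarith
    rcases Nat.eq_zero_or_pos (2 ^ K / (20 * K)) with h3 | h3
    · rw [h3, Nat.mul_zero]
      exact Nat.mul_pos hP (by omega)
    · calc (2 * K + K * (16 * K) + 1) * (2 ^ K / (20 * K)) < (20 * K * K) * (2 ^ K / (20 * K)) :=
            Nat.mul_lt_mul_of_pos_right h2 h3
        _ = (20 * K * (2 ^ K / (20 * K))) * K := by ring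
        _ ≤ 2 ^ K * K := Nat.mul_le_mul_right _ h1
  obtain ⟨V', i1, i2, pd, τ, h', hc, hh', hR⟩ := exists_chain (d := 2 ^ K / (20 * K)) pr h E hlt
    hdeg hcl (Nat.mul_pos hP (by omega)) (Nat.mul_le_mul_left _ (by omega)) hd
  refine ⟨V', i1, i2, pd, τ, h', hc.trans ?_, hh', hR⟩
  rw [hcard]
  -- the number of nodes
  have hK2 : K ≤ K ^ 2 := by nlinarith
  have hK2' : 2 * K ≤ K ^ 2 := by nlinarith
  have hK4 : K ^ 2 * K ^ 2 = K ^ 4 := by ring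
  have h4 : 1 ≤ K ^ 2 := by nlinarith
  have a1 : 10 * K + 2 + K * (8 * K + 2) ≤ 15 * K ^ 2 := by nlinarith
  have a2 : 2 * K + K * (16 * K) + 1 ≤ 18 * K ^ 2 := by nlinarith
  have a3 : 8 * K + 2 ≤ 5 * K ^ 4 := by
    have : 8 * K + 2 ≤ 5 * K ^ 2 := by nlinarith
    have h5 : K ^ 2 ≤ K ^ 4 := by nlinarith
    omega
  have a4 : 1 ≤ K ^ 4 := by nlinarith
  calc 2 ^ K * (10 * K + 2 + K * (8 * K + 2)) * (2 * K + K * (16 * K) + 1) + 2 ^ K * (8 * K + 2) + 1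
      ≤ 2 ^ K * (15 * K ^ 2) * (18 * K ^ 2) + 2 ^ K * (5 * K ^ 4) + 2 ^ K * K ^ 4 := by
        refine add_le_add (add_le_add ?_ ?_) ?_
        · exact Nat.mul_le_mul (Nat.mul_le_mul_left _ a1) a2
        · exact Nat.mul_le_mul_left _ a3
        · exact Nat.mul_pos hP (by omega)
    _ = 2 ^ K * (276 * K ^ 4) := by ring
    _ ≤ 2 ^ K * (1000 * K ^ 4) := Nat.mul_le_mul_left _ (Nat.mul_le_mul_right _ (by norm_num))

end Pool.Agent.TOpt
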