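import Mathlib
import Pool.Agent.TOpt.Defs

/-!
# The matrix has large rank

PACKAGE. Prove `matA_rank_ge` (helper lemmas allowed, keep the statement).

PROOF. For `σ : V → Bool` and `x : V → Fin q` let `ex σ x : V → Fin (q + 1)` be
`fun v => if σ v then (x v).succ else 0`, and for `y : V → Fin q` let `ey y v := (y v).succ`. Let
`U : Matrix (V → Fin q) (V → Fin (q + 1)) 𝔽` be
`U x z := ∑ σ : V → Bool, if z = ex σ x then ∏ v, (if σ v then 1 else -1) else 0`, and let `W` be the
`0`-`1` matrix with `W z y = 1` iff `z = ey y`. Then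
`(U * matA * W) x y = ∑ σ, (∏ v, if σ v then 1 else -1) * matA (ex σ x) (ey y)`
`= ∑ T reachable, (-1) ^ T.card * ∑ σ, (∏ v, if σ v then 1 else -1) * [agr (ex σ x) (ey y) ⊆ T]`.
The condition `agr (ex σ x) (ey y) ⊆ T` is a conjunction over `v`: `v ∈ T ∨ ex σ x v ≠ ey y v`, that
is, `v ∈ T ∨ σ v = false ∨ x v ≠ y v`. So the inner sum is a product over `v`
(`Finset.prod_univ_sum` / `Fintype.piFinset` / `Finset.prod_add`): the factor of `v ∈ T` is
`1 - 1 = 0`, the factor of `v ∉ T` is `(if x v ≠ y v then 1 else 0) - 1 = -[x v = y v]`. Hence only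
`T = ∅` contributes (it is reachable, `Reach.empty`), and the sum is
`(-1) ^ card V * [x = y]`. So `U * matA * W = (-1) ^ card V • 1` has rank `q ^ card V`
(`Matrix.rank_one`, `Matrix.rank_of_isUnit`), and the rank of a product is at most the rank of the
factor in the middle.
-/

set_option autoImplicit false

namespace Pool.Agent.TOpt

variable {𝔽 : Type} [Field 𝔽] {V : Type} [Fintype V] [DecidableEq V]

private def matLow_ex {q : ℕ} (σ : V → Bool) (x : V → Fin q) : V → Fin (q + 1) :=
  fun v => if σ v then (x v).succ else 0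

private def matLow_ey {q : ℕ} (y : V → Fin q) : V → Fin (q + 1) := fun v => (y v).succ

private def matLow_s (𝔽 : Type) [Field 𝔽] {V : Type} [Fintype V] (σ : V → Bool) : 𝔽 :=
  ∏ v, if σ v then -1 else 1

omit [DecidableEq V] in
private theorem matLow_prod (p : V → Prop) [DecidablePred p] (P : Prop) [Decidable P]
    (h : P ↔ ∀ v, p v) : (∏ v, (if p v then 1 else 0 : 𝔽)) = if P then 1 else 0 := by
  by_cases hP : P
  · rw [if_pos hP]
    exact Finset.prod_eq_one fun v _ => if_pos (h.1 hP v)
  · rw [if_neg hP]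
    have : ∃ v, ¬ p v := by
      by_contra hn
      push Not at hn
      exact hP (h.2 hn)
    obtain ⟨v, hv⟩ := this
    exact Finset.prod_eq_zero (Finset.mem_univ v) (if_neg hv)

private theorem matLow_inner {q : ℕ} (T : Finset V) (x y : V → Fin q) :
    (∑ σ : V → Bool, matLow_s 𝔽 σ * (if agr (matLow_ex σ x) (matLow_ey y) ⊆ T then 1 else 0)) =
      ∏ v, (if v ∈ T then 0 else if x v = y v then 1 else 0 : 𝔽) := by
  classical
  have h1 : ∀ v, (∑ b : Bool, ((if b then -1 else 1 : 𝔽) *
      (if v ∈ T ∨ ¬ ((if b then (x v).succ else 0 : Fin (q + 1)) = (y v).succ) then 1 else 0))) =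
      (if v ∈ T then 0 else if x v = y v then 1 else 0 : 𝔽) := by
    intro v
    rw [Fintype.sum_bool]
    have h0 : ¬ ((0 : Fin (q + 1)) = (y v).succ) := fun h => (Fin.succ_ne_zero _) h.symm
    by_cases hv : v ∈ T
    · simp [hv]
    · by_cases hxy : x v = y v
      · simp [hv, hxy, h0]
      · simp [hv, hxy, h0]
  rw [← Finset.prod_congr rfl fun v _ => h1 v, Finset.prod_univ_sum, Fintype.piFinset_univ]
  refine Finset.sum_congr rfl fun σ _ => ?_
  rw [Finset.prod_mul_distrib, matLow_prod _ (agr (matLow_ex σ x) (matLow_ey y) ⊆ T)]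
  · rfl
  constructor
  · intro h v
    by_cases hv : (if σ v then (x v).succ else 0 : Fin (q + 1)) = (y v).succ
    · left
      apply h
      unfold agr
      rw [Finset.mem_filter]
      exact ⟨Finset.mem_univ v, hv⟩
    · right
      exact hv
  · intro h v hv
    unfold agr at hv
    rw [Finset.mem_filter] at hv
    rcases h v with h1 | h1
    · exact h1
    · exact absurd hv.2 h1

private theorem matLow_sum (pr : V → Finset V) (d q : ℕ) (x y : V → Fin q) :
    (∑ σ : V → Bool, matLow_s 𝔽 σ * matA 𝔽 pr d (q + 1) (matLow_ex σ x) (matLow_ey y)) =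
      if x = y then 1 else 0 := by
  classical
  have h1 : ∀ σ : V → Bool,
      matLow_s 𝔽 σ * matA 𝔽 pr d (q + 1) (matLow_ex σ x) (matLow_ey y) =
      ∑ T ∈ Finset.univ.filter (fun T : Finset V => Reach pr d T),
        (-1) ^ T.card * (matLow_s 𝔽 σ *
          (if agr (matLow_ex σ x) (matLow_ey y) ⊆ T then 1 else 0)) := by
    intro σ
    unfold matA
    rw [Finset.mul_sum]
    refine Finset.sum_congr (by congr) fun T _ => ?_
    split_ifs
    · ring
    · ring
  rw [Finset.sum_congr rfl fun σ _ => h1 σ, Finset.sum_comm]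
  simp only [← Finset.mul_sum]
  rw [Finset.sum_eq_single (∅ : Finset V)]
  · rw [matLow_inner]
    simp only [Finset.notMem_empty, if_false, Finset.card_empty, pow_zero, one_mul]
    rw [matLow_prod _ (x = y)]
    constructor
    · rintro rfl v
      rfl
    · intro h
      funext v
      exact h v
  · intro T _ hT
    rw [matLow_inner]
    obtain ⟨v, hv⟩ := Finset.nonempty_iff_ne_empty.2 hT
    rw [Finset.prod_eq_zero (Finset.mem_univ v) (by rw [if_pos hv]), mul_zero]
  · intro h
    exact absurd (Finset.mem_filter.2 ⟨Finset.mem_univ _, Reach.empty⟩) h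

theorem matA_rank_ge (pr : V → Finset V) (d q : ℕ) :
    q ^ Fintype.card V ≤ (matA 𝔽 pr d (q + 1)).rank := by
  classical
  let U : Matrix (V → Fin q) (V → Fin (q + 1)) 𝔽 := fun x z =>
    ∑ σ : V → Bool, if z = matLow_ex σ x then matLow_s 𝔽 σ else 0
  let W : Matrix (V → Fin (q + 1)) (V → Fin q) 𝔽 := fun z y => if z = matLow_ey y then 1 else 0
  have h1 : ∀ x z', (U * matA 𝔽 pr d (q + 1)) x z' =
      ∑ σ : V → Bool, matLow_s 𝔽 σ * matA 𝔽 pr d (q + 1) (matLow_ex σ x) z' := by
    intro x z'
    rw [Matrix.mul_apply]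
    simp only [U, Finset.sum_mul, ite_mul, zero_mul]
    rw [Finset.sum_comm]
    refine Finset.sum_congr rfl fun σ _ => ?_
    rw [Finset.sum_ite_eq' Finset.univ (matLow_ex σ x)
      (fun z => matLow_s 𝔽 σ * matA 𝔽 pr d (q + 1) z z'), if_pos (Finset.mem_univ _)]
  have h2 : U * matA 𝔽 pr d (q + 1) * W = 1 := by
    ext x y
    rw [Matrix.mul_apply, Matrix.one_apply]
    simp only [W, mul_ite, mul_one, mul_zero]
    rw [Finset.sum_ite_eq' Finset.univ (matLow_ey y)
      (fun z => (U * matA 𝔽 pr d (q + 1)) x z), if_pos (Finset.mem_univ _), h1]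
    exact matLow_sum pr d q x y
  have h3 : (1 : Matrix (V → Fin q) (V → Fin q) 𝔽).rank = q ^ Fintype.card V := by
    rw [Matrix.rank_one]
    simp
  rw [← h3, ← h2]
  exact (Matrix.rank_mul_le_left _ _).trans (Matrix.rank_mul_le_right _ _)

end Pool.Agent.TOpt
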