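import Mathlib
import Pool.Agent.TOpt.Defs

/-!
# The restrictions of the matrix to the rectangles have small rank

PACKAGE. Prove `matA_rank_rect` and `matA_sink` (helper lemmas allowed, keep the statements).

PROOF of `matA_rank_rect`. Fix `x`, `y` with `X x` and `Y y`; then `pr v ⊆ agr x y` and
`v ∉ agr x y`. In the sum `matA x y = ∑ T reachable with agr x y ⊆ T, (-1) ^ T.card` the sets `T` are
paired: `T ↔ T.erase v` (if `v ∈ T`) or `insert v T` (if `v ∉ T` and `T.card < d`). Both sets of a
pair contain `agr x y` (as `v ∉ agr x y`), both or none is reachable: `Reach.add` and `Reach.del`,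
as `pr v ⊆ agr x y ⊆ T` (and `v ∉ pr v`, since `pr v ⊆ agr x y` and `v ∉ agr x y`). Their signs are
opposite. So they cancel (`Finset.sum_involution`), and what remains are the `T` with `v ∉ T` and
`T.card = d` (always `T.card ≤ d` for reachable `T`, by induction). So on the rectangle
`matA x y = ∑ T, if (T reachable ∧ T.card = d ∧ v ∉ T) then (-1) ^ d * [agr x y ⊆ T] else 0`.
The masked matrix is therefore the sum, over these at most `(card V).choose d` sets `T`, of matrices
`if X x ∧ Y y then (-1) ^ d * [∀ i ∉ T, x i ≠ y i] else 0`, each of which is a product `P * Q` where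
`P x z = if X x ∧ z = (x restricted to Tᶜ) then (-1) ^ d else 0` and
`Q z y = if Y y ∧ ∀ i ∉ T, z i ≠ y i then 1 else 0`, `z : {i // i ∉ T} → Fin q`, so it has rank at
most `card ({i // i ∉ T} → Fin q) = q ^ (card V - d)` (`Matrix.rank_mul_le_left`,
`Matrix.rank_le_card_width`/`rank_le_width`). The rank is subadditive.

PROOF of `matA_sink`. `X x` and `Y y` imply `τ ∈ agr x y`, and no reachable `T` contains `τ`, so all
terms are `0`, the masked matrix is `0`.
-/

set_option autoImplicit false

namespace Pool.Agent.TOpt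

variable {𝔽 : Type} [Field 𝔽] {V : Type} [Fintype V] [DecidableEq V]

private theorem matup_add {X Y : Type} [Fintype X] [Fintype Y] (A B : Matrix X Y 𝔽) :
    (A + B).rank ≤ A.rank + B.rank := by
  classical
  unfold Matrix.rank
  rw [Matrix.mulVecLin_add]
  refine le_trans ?_ (Submodule.finrank_add_le_finrank_add_finrank _ _)
  apply Submodule.finrank_mono
  rintro _ ⟨v, rfl⟩
  exact Submodule.add_mem_sup ⟨v, rfl⟩ ⟨v, rfl⟩

private theorem matup_sum {X Y R : Type} [Fintype X] [Fintype Y] (t : Finset R)
    (A : R → Matrix X Y 𝔽) {ρ : ℕ} (h : ∀ j ∈ t, (A j).rank ≤ ρ) :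
    (∑ j ∈ t, A j).rank ≤ t.card * ρ := by
  classical
  induction t using Finset.induction_on with
  | empty => simp
  | insert a t ha ih =>
    rw [Finset.sum_insert ha, Finset.card_insert_of_notMem ha]
    refine le_trans (matup_add _ _) ?_
    have h1 := h a (Finset.mem_insert_self a t)
    have h2 := ih fun j hj => h j (Finset.mem_insert_of_mem hj)
    calc (A a).rank + (∑ j ∈ t, A j).rank ≤ ρ + t.card * ρ := Nat.add_le_add h1 h2
      _ = (t.card + 1) * ρ := by ring

omit [Fintype V] in
private theorem matup_reach_card {pr : V → Finset V} {d : ℕ} {T : Finset V}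
    (h : Reach pr d T) : T.card ≤ d := by
  induction h with
  | empty => simp
  | add _ hv _ hc _ =>
    rw [Finset.card_insert_of_notMem hv]
    omega
  | del _ _ _ ih => exact (Finset.card_le_card (Finset.subset_insert _ _)).trans ih

open Classical in
/-- The terms with `v ∈ T` or less than `d` elements cancel. -/
private theorem matup_cancel (pr : V → Finset V) (d : ℕ) (v : V) (A : Finset V)
    (h1 : pr v ⊆ A) (h2 : v ∉ A) :
    ∑ T ∈ (Finset.univ.filter (fun T : Finset V => Reach pr d T)).filter
      (fun T => ¬ (T.card = d ∧ v ∉ T)),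
      (if A ⊆ T then (-1) ^ T.card else 0 : 𝔽) = 0 := by
  have hA : ∀ T : Finset V, A ⊆ T → A ⊆ T.erase v := fun T hT a ha =>
    Finset.mem_erase.2 ⟨fun h => h2 (h ▸ ha), hT ha⟩
  refine Finset.sum_involution
    (fun T _ => if A ⊆ T then (if v ∈ T then T.erase v else insert v T) else T) ?_ ?_ ?_ ?_
  · intro T hT
    by_cases hAT : A ⊆ T
    · rw [if_pos hAT, if_pos hAT]
      by_cases hv : v ∈ T
      · rw [if_pos hv, if_pos (hA T hAT)]
        have h3 : T.card = (T.erase v).card + 1 := (Finset.card_erase_add_one hv).symm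
        rw [h3, pow_succ]
        ring
      · rw [if_neg hv, if_pos (hAT.trans (Finset.subset_insert _ _)),
          Finset.card_insert_of_notMem hv, pow_succ]
        ring
    · rw [if_neg hAT, if_neg hAT, if_neg hAT, add_zero]
  · intro T hT hne
    by_cases hAT : A ⊆ T
    · rw [if_pos hAT]
      by_cases hv : v ∈ T
      · rw [if_pos hv]
        intro h
        rw [← h] at hv
        exact Finset.notMem_erase v T hv
      · rw [if_neg hv]
        intro h
        exact hv (h ▸ Finset.mem_insert_self v T)
    · rw [if_neg hAT] at hne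
      exact absurd rfl hne
  · intro T hT
    rw [Finset.mem_filter, Finset.mem_filter] at hT ⊢
    obtain ⟨⟨-, hR⟩, hd⟩ := hT
    by_cases hAT : A ⊆ T
    · rw [if_pos hAT]
      by_cases hv : v ∈ T
      · rw [if_pos hv]
        have h3 : T.card = (T.erase v).card + 1 := (Finset.card_erase_add_one hv).symm
        have h4 := matup_reach_card hR
        refine ⟨⟨Finset.mem_univ _, ?_⟩, fun h => by omega⟩
        refine Reach.del (v := v) ?_ (Finset.notMem_erase v T) (h1.trans (hA T hAT))
        rw [Finset.insert_erase hv]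
        exact hR
      · rw [if_neg hv]
        have h4 := matup_reach_card hR
        have h5 : T.card ≠ d := fun h => hd ⟨h, hv⟩
        exact ⟨⟨Finset.mem_univ _, Reach.add hR hv (h1.trans hAT) (by omega)⟩,
          fun h => h.2 (Finset.mem_insert_self v T)⟩
    · rw [if_neg hAT]
      exact ⟨⟨Finset.mem_univ _, hR⟩, hd⟩
  · intro T hT
    by_cases hAT : A ⊆ T
    · simp only [if_pos hAT]
      by_cases hv : v ∈ T
      · simp only [if_pos hv]
        rw [if_pos (hA T hAT), if_neg (Finset.notMem_erase v T), Finset.insert_erase hv]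
      · simp only [if_neg hv]
        rw [if_pos (hAT.trans (Finset.subset_insert _ _)), if_pos (Finset.mem_insert_self v T),
          Finset.erase_insert hv]
    · simp only [if_neg hAT]

open Classical in
/-- The matrix of a set `T`. -/
private theorem matup_rank_one (d q : ℕ) (T : Finset V) (X Y : (V → Fin q) → Prop) :
    (Matrix.of fun x y : V → Fin q => if X x ∧ Y y ∧ agr x y ⊆ T then (-1) ^ d else (0 : 𝔽)).rank ≤
      q ^ (Fintype.card V - T.card) := by
  let P : Matrix (V → Fin q) ({i // i ∉ T} → Fin q) 𝔽 := Matrix.of fun x z =>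
    if X x ∧ z = (fun i => x i.1) then (-1) ^ d else 0
  let Q : Matrix ({i // i ∉ T} → Fin q) (V → Fin q) 𝔽 := Matrix.of fun z y =>
    if Y y ∧ ∀ i : {i // i ∉ T}, z i ≠ y i.1 then 1 else 0
  have hPQ : (Matrix.of fun x y : V → Fin q =>
      if X x ∧ Y y ∧ agr x y ⊆ T then (-1) ^ d else (0 : 𝔽)) = P * Q := by
    ext x y
    rw [Matrix.mul_apply, Finset.sum_eq_single (fun i : {i // i ∉ T} => x i.1)]
    · have h1 : agr x y ⊆ T ↔ ∀ i : {i // i ∉ T}, x i.1 ≠ y i.1 := by
        constructor
        · intro h i hi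
          exact i.2 (h (Finset.mem_filter.2 ⟨Finset.mem_univ _, hi⟩))
        · intro h i hi
          by_contra hT
          exact h ⟨i, hT⟩ (Finset.mem_filter.1 hi).2
      simp only [P, Q, Matrix.of_apply, and_true, h1]
      by_cases hX : X x <;> by_cases hY : (Y y ∧ ∀ i : {i // i ∉ T}, x i.1 ≠ y i.1) <;>
        simp [hX, hY]
    · intro z _ hz
      simp only [P, Matrix.of_apply]
      rw [if_neg fun h => hz h.2, zero_mul]
    · intro h
      exact absurd (Finset.mem_univ _) h
  rw [hPQ]
  refine (Matrix.rank_mul_le_left P Q).trans ((Matrix.rank_le_card_width P).trans (le_of_eq ?_))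
  rw [Fintype.card_fun, Fintype.card_fin, Fintype.card_subtype_compl, Fintype.card_coe]

open Classical in
theorem matA_rank_rect (pr : V → Finset V) (d q : ℕ) (v : V) (X Y : (V → Fin q) → Prop)
    (h : ∀ x y, X x → Y y → pr v ⊆ agr x y ∧ v ∉ agr x y) :
    (Matrix.of fun x y => if X x ∧ Y y then matA 𝔽 pr d q x y else 0).rank ≤
      (Fintype.card V).choose d * q ^ (Fintype.card V - d) := by
  let S : Finset (Finset V) := (Finset.univ.filter (fun T : Finset V => Reach pr d T)).filter
    fun T => T.card = d ∧ v ∉ T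
  have hM : (Matrix.of fun x y : V → Fin q => if X x ∧ Y y then matA 𝔽 pr d q x y else 0) =
      ∑ T ∈ S, Matrix.of fun x y : V → Fin q =>
        if X x ∧ Y y ∧ agr x y ⊆ T then (-1) ^ d else (0 : 𝔽) := by
    ext x y
    rw [Matrix.sum_apply]
    simp only [Matrix.of_apply]
    by_cases hXY : X x ∧ Y y
    · rw [if_pos hXY]
      obtain ⟨h1, h2⟩ := h x y hXY.1 hXY.2
      unfold matA
      rw [← Finset.sum_filter_add_sum_filter_not _ (fun T : Finset V => T.card = d ∧ v ∉ T),
        matup_cancel pr d v _ h1 h2, add_zero]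
      refine Finset.sum_congr rfl fun T hT => ?_
      have h3 : T.card = d := (Finset.mem_filter.1 hT).2.1
      rw [h3]
      simp [hXY.1, hXY.2]
    · rw [if_neg hXY]
      symm
      refine Finset.sum_eq_zero fun T _ => if_neg fun h => hXY ⟨h.1, h.2.1⟩
  have hS : S.card ≤ (Fintype.card V).choose d := by
    rw [← Finset.card_univ, ← Finset.card_powersetCard]
    refine Finset.card_le_card fun T hT => ?_
    rw [Finset.mem_powersetCard]
    exact ⟨Finset.subset_univ _, (Finset.mem_filter.1 hT).2.1⟩
  rw [hM]
  refine (matup_sum S _ (ρ := q ^ (Fintype.card V - d)) fun T hT => ?_).trans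
    (Nat.mul_le_mul_right _ hS)
  have h3 : T.card = d := (Finset.mem_filter.1 hT).2.1
  have h4 := matup_rank_one (𝔽 := 𝔽) d q T X Y
  rw [h3] at h4
  exact h4

open Classical in
theorem matA_sink (pr : V → Finset V) (d q : ℕ) (τ : V) (hτ : ∀ T, Reach pr d T → τ ∉ T)
    (X Y : (V → Fin q) → Prop) (h : ∀ x y, X x → Y y → τ ∈ agr x y) :
    (Matrix.of fun x y => if X x ∧ Y y then matA 𝔽 pr d q x y else 0).rank = 0 := by
  have hM : (Matrix.of fun x y : V → Fin q => if X x ∧ Y y then matA 𝔽 pr d q x y else 0) = 0 := by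
    ext x y
    simp only [Matrix.of_apply, Matrix.zero_apply]
    by_cases hXY : X x ∧ Y y
    · rw [if_pos hXY]
      unfold matA
      refine Finset.sum_eq_zero fun T hT => if_neg fun hs => ?_
      exact hτ T (Finset.mem_filter.1 hT).2 (hs (h x y hXY.1 hXY.2))
    · rw [if_neg hXY]
  rw [hM, Matrix.rank_zero]

end Pool.Agent.TOpt
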