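import Mathlib

/-!
# An inequality for the rank method

PACKAGE. Prove `rank_numeric`.

PROOF. Let `q = 16 g`. We need
(A) `(16 g) ^ N ≤ 2 ^ d * (16 g - 1) ^ N` for `N ≤ g d`: it suffices (as `(16 g - 1) ≤ 16 g`, first
for `N = g d`; for smaller `N` multiply the inequality for `g d` down: `x ^ N * y ^ (gd - N) ≤ ...`)
that `(16 g) ^ g ≤ 2 * (16 g - 1) ^ g`, i.e. `(1 - 1/(16g)) ^ g ≥ 1/2`, which is Bernoulli:
`(1 - 1/(16g)) ^ g ≥ 1 - 1/16` (`one_add_mul_le_pow`, over the reals or rationals).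
(B) `(g d).choose d ≤ (4 g) ^ d`: `choose ≤ (g d) ^ d / d!` (`Nat.choose_le_pow_div` or
`Nat.descFactorial_le_pow`) and `d ^ d ≤ 4 ^ d * d!` (induction, `(d+1)^d ≤ 4 d^d`, from
`(1 + 1/d)^d ≤ e ≤ 4`, e.g. `Real.add_one_le_exp`); and `N.choose d ≤ (g d).choose d`
(`Nat.choose_le_choose`/`Nat.choose_mono`).
Then `2 ^ d * N.choose d * q ^ (N - d) * 2 ^ d ≤ 2 ^ d * (4 g) ^ d * 2 ^ d * q ^ (N - d) =
(16 g) ^ d * q ^ (N - d)`; if `d ≤ N` this is `q ^ N ≤ 2 ^ d * (q - 1) ^ N`, cancel `2 ^ d`. If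
`N < d`, then `N.choose d = 0` and the claim is trivial.
-/

set_option autoImplicit false

namespace Pool.Agent.TOpt

private theorem num1_a (N d g : ℕ) (hg : 1 ≤ g) (hN : N ≤ g * d) :
    (16 * g : ℝ) ^ N ≤ 2 ^ d * (16 * g - 1) ^ N := by
  have hg' : (1 : ℝ) ≤ g := by exact_mod_cast hg
  have hx : (0 : ℝ) < 16 * g := by linarith
  set r : ℝ := 1 - 1 / (16 * g) with hr
  have h1 : 1 / (16 * (g : ℝ)) ≤ 1 := by
    rw [div_le_one hx]
    linarith
  have hr0 : 0 ≤ r := by rw [hr]; linarith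
  have hr1 : r ≤ 1 := by
    rw [hr]
    have : 0 ≤ 1 / (16 * (g : ℝ)) := by positivity
    linarith
  have hrg : 1 / 2 ≤ r ^ g := by
    have h2 := one_add_mul_le_pow (a := -(1 / (16 * (g : ℝ)))) (by linarith) g
    have h3 : (g : ℝ) * -(1 / (16 * (g : ℝ))) = -(1 / 16) := by
      field_simp
    rw [h3, ← sub_eq_add_neg, ← sub_eq_add_neg] at h2
    rw [hr]
    linarith
  have hrN : (1 / 2 : ℝ) ^ d ≤ r ^ N := by
    calc (1 / 2 : ℝ) ^ d ≤ (r ^ g) ^ d := pow_le_pow_left₀ (by norm_num) hrg d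
      _ = r ^ (g * d) := by rw [pow_mul]
      _ ≤ r ^ N := pow_le_pow_of_le_one hr0 hr1 hN
  have h4 : (16 * g - 1 : ℝ) = r * (16 * g) := by
    rw [hr]
    field_simp
  rw [h4, mul_pow r]
  have h5 : (1 : ℝ) ≤ 2 ^ d * r ^ N := by
    calc (1 : ℝ) = 2 ^ d * (1 / 2) ^ d := by
          rw [← mul_pow]
          norm_num
      _ ≤ 2 ^ d * r ^ N := mul_le_mul_of_nonneg_left hrN (by positivity)
  calc (16 * g : ℝ) ^ N = 1 * (16 * g : ℝ) ^ N := (one_mul _).symm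
    _ ≤ 2 ^ d * r ^ N * (16 * g) ^ N := mul_le_mul_of_nonneg_right h5 (by positivity)
    _ = 2 ^ d * (r ^ N * (16 * g) ^ N) := mul_assoc _ _ _

private theorem num1_b (N d g : ℕ) (hN : N ≤ g * d) :
    (N.choose d : ℝ) ≤ (4 * g) ^ d := by
  have h1 : (N.choose d : ℝ) ≤ ((g * d : ℕ) : ℝ) ^ d / (d.factorial : ℝ) := by
    have h2 : (N.choose d : ℝ) ≤ ((g * d).choose d : ℝ) := by
      exact_mod_cast Nat.choose_le_choose d hN
    exact h2.trans (Nat.choose_le_pow_div (α := ℝ) d (g * d))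
  have h3 : (d : ℝ) ^ d / (d.factorial : ℝ) ≤ 4 ^ d := by
    calc (d : ℝ) ^ d / (d.factorial : ℝ) ≤ Real.exp d :=
          Real.pow_div_factorial_le_exp (d : ℝ) (Nat.cast_nonneg d) d
      _ = Real.exp 1 ^ d := by rw [← Real.exp_nat_mul, mul_one]
      _ ≤ 4 ^ d := by
          refine pow_le_pow_left₀ (Real.exp_pos 1).le ?_ d
          have := Real.exp_one_lt_d9
          linarith
  calc (N.choose d : ℝ) ≤ ((g * d : ℕ) : ℝ) ^ d / (d.factorial : ℝ) := h1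
    _ = (g : ℝ) ^ d * ((d : ℝ) ^ d / (d.factorial : ℝ)) := by
        push_cast
        rw [mul_pow, mul_div_assoc]
    _ ≤ (g : ℝ) ^ d * 4 ^ d := mul_le_mul_of_nonneg_left h3 (by positivity)
    _ = (4 * g) ^ d := by rw [mul_pow, mul_comm]

theorem rank_numeric (N d g : ℕ) (hg : 1 ≤ g) (hN : N ≤ g * d) :
    2 ^ d * (N.choose d * (16 * g) ^ (N - d)) ≤ (16 * g - 1) ^ N := by
  rcases Nat.lt_or_ge N d with h | h
  · rw [Nat.choose_eq_zero_of_lt h, zero_mul, mul_zero]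
    exact Nat.zero_le _
  · have ha := num1_a N d g hg hN
    have hb := num1_b N d g hN
    have hsub : ((16 * g - 1 : ℕ) : ℝ) = 16 * g - 1 := by
      rw [Nat.cast_sub (by omega)]
      push_cast
      ring
    have h1 : (16 * g : ℝ) ^ N = (16 * g) ^ d * (16 * g) ^ (N - d) := by
      rw [← pow_add, Nat.add_sub_cancel' h]
    have h2 : (2 : ℝ) ^ d * (2 ^ d * (N.choose d * (16 * g) ^ (N - d))) ≤
        2 ^ d * (16 * g - 1) ^ N := by
      calc (2 : ℝ) ^ d * (2 ^ d * (N.choose d * (16 * g) ^ (N - d)))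
          ≤ 2 ^ d * (2 ^ d * ((4 * g) ^ d * (16 * g) ^ (N - d))) := by gcongr
        _ = (16 * g) ^ N := by
            rw [h1, ← mul_assoc, ← mul_assoc, ← mul_pow, ← mul_pow]
            congr 2
            ring
        _ ≤ 2 ^ d * (16 * g - 1) ^ N := ha
    have h3 : (2 : ℝ) ^ d * (N.choose d * (16 * g) ^ (N - d)) ≤ (16 * g - 1) ^ N :=
      le_of_mul_le_mul_left h2 (by positivity)
    rw [← hsub] at h3
    exact_mod_cast h3

end Pool.Agent.TOpt
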