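import Mathlib
import Pool.Agent.TOpt.Defs

/-!
# The rank method

PACKAGE. Prove `rank_le_of_sp` (helper lemmas allowed, keep the statement).

PROOF. Let `(R, W, v, l, τ)` be the span program. For every `x : X`: since `f (zx x) = true`, `τ` is
in the span of the `v j` with `zx x (l j) = true`, so there are `w x : R → 𝔽` with
`∑ j, w x j • v j = τ` and `w x j = 0` if `zx x (l j) = false`
(`Submodule.mem_span_image_iff_exists_fun` or `Finsupp.mem_span_image_iff_linearCombination`). For
every `y : Y`: `τ` is not in the span `U` of the `v j` with `zy y (l j) = true`, so there is a linear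
functional `φ y : W →ₗ[𝔽] 𝔽` with `φ y τ = 1` and `φ y = 0` on `U`
(`Submodule.exists_le_ker_of_notMem` or `Submodule.exists_dual_map_eq_bot_of_notMem`, then scale).
Then `1 = φ y τ = ∑ j, w x j * φ y (v j)`, and the term of `j` is `0` except if
`zx x (l j) = true` and `zy y (l j) = false`. So, with
`M j x y := if zx x (l j) = true ∧ zy y (l j) = false then A x y else 0`,
`A = ∑ j, diagonal (fun x => w x j) * M j * diagonal (fun y => φ y (v j))`. The rank is subadditive
(`Matrix.rank_add_le`, or via `LinearMap.range`; prove it for finite sums) and does not increase by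
multiplication from both sides (`Matrix.rank_mul_le_left`, `Matrix.rank_mul_le_right`). Hence
`A.rank ≤ ∑ j, (M j).rank ≤ card R * ρ ≤ s * ρ`.
-/

set_option autoImplicit false

namespace Pool.Agent.TOpt

open Pool.Agent.FewNeg

variable {𝔽 : Type} [Field 𝔽] {ι : Type}

private theorem sprank_add {X Y : Type} [Fintype X] [Fintype Y] (A B : Matrix X Y 𝔽) :
    (A + B).rank ≤ A.rank + B.rank := by
  classical
  unfold Matrix.rank
  rw [Matrix.mulVecLin_add]
  refine le_trans ?_ (Submodule.finrank_add_le_finrank_add_finrank _ _)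
  apply Submodule.finrank_mono
  rintro _ ⟨v, rfl⟩
  exact Submodule.add_mem_sup ⟨v, rfl⟩ ⟨v, rfl⟩

private theorem sprank_sum {X Y R : Type} [Fintype X] [Fintype Y] (t : Finset R)
    (A : R → Matrix X Y 𝔽) {ρ : ℕ} (h : ∀ j ∈ t, (A j).rank ≤ ρ) :
    (∑ j ∈ t, A j).rank ≤ t.card * ρ := by
  classical
  induction t using Finset.induction_on with
  | empty => simp
  | insert a t ha ih =>
    rw [Finset.sum_insert ha, Finset.card_insert_of_notMem ha]
    refine le_trans (sprank_add _ _) ?_
    have h1 := h a (Finset.mem_insert_self a t)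
    have h2 := ih fun j hj => h j (Finset.mem_insert_of_mem hj)
    calc (A a).rank + (∑ j ∈ t, A j).rank ≤ ρ + t.card * ρ := Nat.add_le_add h1 h2
      _ = (t.card + 1) * ρ := by ring

private theorem sprank_diag {X Y : Type} [Fintype X] [Fintype Y] [DecidableEq X] [DecidableEq Y]
    (M : Matrix X Y 𝔽) (a : X → 𝔽) (b : Y → 𝔽) :
    (Matrix.of fun x y => a x * M x y * b y).rank ≤ M.rank := by
  have h : (Matrix.of fun x y => a x * M x y * b y) =
      Matrix.diagonal a * M * Matrix.diagonal b := by
    ext x y
    rw [Matrix.mul_diagonal, Matrix.diagonal_mul]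
    rfl
  rw [h]
  exact le_trans (Matrix.rank_mul_le_left _ _) (Matrix.rank_mul_le_right _ _)

/-- **The rank method**: the number of rows of a monotone span program is at least the rank of a
matrix, divided by the largest rank of its restrictions to the rectangles of the variables. -/
theorem rank_le_of_sp {X Y : Type} [Fintype X] [Fintype Y] [DecidableEq X] [DecidableEq Y]
    (A : Matrix X Y 𝔽) {s ρ : ℕ} {f : BF ι} (hf : HasSP 𝔽 s f) (zx : X → ι → Bool)
    (zy : Y → ι → Bool) (hx : ∀ x, f (zx x) = true) (hy : ∀ y, f (zy y) = false)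
    (hρ : ∀ i, (Matrix.of fun x y => if zx x i = true ∧ zy y i = false then A x y else 0).rank ≤ ρ) :
    A.rank ≤ s * ρ := by
  classical
  obtain ⟨R, _, W, _, _, v, l, τ, hR, hf⟩ := hf
  have h1 : ∀ x : X, ∃ w : R → 𝔽, ∑ j, w j • v j = τ ∧ ∀ j, zx x (l j) ≠ true → w j = 0 := by
    intro x
    have h2 := (hf (zx x)).1 (hx x)
    rw [Finsupp.mem_span_image_iff_linearCombination] at h2
    obtain ⟨w, hw, hw'⟩ := h2
    refine ⟨w, ?_, ?_⟩
    · rw [← hw', Finsupp.linearCombination_apply, Finsupp.sum_fintype]
      intro j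
      exact zero_smul _ _
    · intro j hj
      by_contra hne
      exact hj (hw (Finsupp.mem_support_iff.2 hne))
  have h3 : ∀ y : Y, ∃ φ : W →ₗ[𝔽] 𝔽, φ τ = 1 ∧ ∀ j, zy y (l j) = true → φ (v j) = 0 := by
    intro y
    have h4 : τ ∉ Submodule.span 𝔽 (v '' {j | zy y (l j) = true}) := by
      intro h
      have := (hf (zy y)).2 h
      rw [hy y] at this
      exact Bool.false_ne_true this
    obtain ⟨φ, hφ, hφ'⟩ := Submodule.exists_le_ker_of_notMem h4
    refine ⟨(φ τ)⁻¹ • φ, ?_, ?_⟩
    · rw [LinearMap.smul_apply, smul_eq_mul, inv_mul_cancel₀ hφ]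
    · intro j hj
      have h5 : φ (v j) = 0 := hφ' (Submodule.subset_span ⟨j, hj, rfl⟩)
      rw [LinearMap.smul_apply, h5, smul_zero]
  choose w hw hw' using h1
  choose φ hφ hφ' using h3
  have key : A = ∑ j, Matrix.of fun x y => w x j *
      (Matrix.of fun x y => if zx x (l j) = true ∧ zy y (l j) = false then A x y else 0) x y *
      φ y (v j) := by
    ext x y
    rw [Matrix.sum_apply]
    simp only [Matrix.of_apply]
    have h6 : (1 : 𝔽) = ∑ j, w x j * φ y (v j) := by
      rw [← hφ y, ← hw x, map_sum]
      simp only [map_smul, smul_eq_mul]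
    calc A x y = A x y * 1 := (mul_one _).symm
      _ = ∑ j, A x y * (w x j * φ y (v j)) := by rw [h6, Finset.mul_sum]
      _ = _ := by
        refine Finset.sum_congr rfl fun j _ => ?_
        split_ifs with h7
        · ring
        · rw [mul_zero, zero_mul]
          by_cases h8 : zx x (l j) = true
          · have h9 : zy y (l j) = true := by
              cases h10 : zy y (l j)
              · exact absurd ⟨h8, h10⟩ h7
              · rfl
            rw [hφ' y j h9, mul_zero, mul_zero]
          · rw [hw' x j h8, zero_mul, mul_zero]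
  rw [key]
  refine le_trans (sprank_sum Finset.univ _ (ρ := ρ) fun j _ => ?_) ?_
  · exact le_trans (sprank_diag _ _ _) (hρ (l j))
  · rw [Finset.card_univ]
    exact Nat.mul_le_mul_right ρ hR

end Pool.Agent.TOpt
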