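import Mathlib
import Pool.Agent.TOpt.SPRank
import Pool.Agent.TOpt.MatLow
import Pool.Agent.TOpt.MatUp
import Pool.Agent.TOpt.Num1

/-!
# Lifted graphs have large monotone span programs

PACKAGE. Prove `lift_main` from the theorems of the imported files (which are other packages; use
them as they are stated).

PROOF. Let `N = card V`, `q = 16 g`, `pr = prs pd`, `r = lrule pd τ q`, `f = clF r (inr false)
(inr true)`. For `x : V → Fin q` let `zx x : J → Bool` be: `zx x (inl (v,a,b,c))` is
`decide (c = x v)` if `pd v = none`, and `decide (a = x p.1 ∧ b = x p.2 ∧ c = x v)` if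
`pd v = some p`; `zx x (inr a) = decide (a = x τ)`. For `y` let `zy y (inl (v,a,b,c))` be
`!decide (c ≠ y v)` if `pd v = none`, `!decide (a = y p.1 ∧ b = y p.2 ∧ c ≠ y v)` if `pd v = some p`,
and `zy y (inr a) = !decide (a = y τ)`.
(1) `f (zx x) = true`: by induction on `h v`, `inl (v, x v)` is derivable for every `v`
(rule `inl (v, x v, x v, x v)` or `inl (v, x p.1, x p.2, x v)`), then the rule `inr (x τ)` gives the
goal.
(2) `f (zy y) = false`: all derivable elements are `inr false` or `inl (v, y v)` (induction on `Cl`,
for the rule `inl (v,a,b,c)` with `zy = true`: if `pd v = none` then `c = y v`; if `pd v = some p`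
then by induction `a = y p.1`, `b = y p.2`, so `c = y v`; the rule `inr a` needs `inl (τ, a)`, so
`a = y τ`, but then `zy y (inr a) = false`).
(3) For the rule `j = inl (v,a,b,c)` apply `matA_rank_rect` with `X x := zx x j = true`,
`Y y := zy y j = false`: then `pr v ⊆ agr x y` and `v ∉ agr x y`. For `inr a` apply `matA_sink`.
(4) By `rank_le_of_sp` and `matA_rank_ge` (with `q - 1` in place of `q`, as `q = (q - 1) + 1`):
`(q - 1) ^ N ≤ s * (N.choose d * q ^ (N - d))`, and by `rank_numeric`
`2 ^ d * (N.choose d * q ^ (N - d)) ≤ (q - 1) ^ N`. If `N.choose d * q ^ (N - d) > 0` cancel it. It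
is positive if `d ≤ N`. If `N < d` then `N.choose d = 0`, so `(q - 1) ^ N ≤ 0`, which is false.
-/

set_option autoImplicit false

namespace Pool.Agent.TOpt

open Pool.Agent.FewNeg

variable {𝔽 : Type} [Field 𝔽] {V : Type} [Fintype V] [DecidableEq V]

/-- The inputs of the colourings `x`. -/
private def liftMain_zx (pd : V → Option (V × V)) (τ : V) (q : ℕ) (x : V → Fin q) :
    (V × Fin q × Fin q × Fin q) ⊕ Fin q → Bool
  | Sum.inl (v, a, b, c) =>
      match pd v with
      | none => decide (c = x v)
      | some p => decide (a = x p.1 ∧ b = x p.2 ∧ c = x v)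
  | Sum.inr a => decide (a = x τ)

/-- The inputs of the colourings `y`. -/
private def liftMain_zy (pd : V → Option (V × V)) (τ : V) (q : ℕ) (y : V → Fin q) :
    (V × Fin q × Fin q × Fin q) ⊕ Fin q → Bool
  | Sum.inl (v, a, b, c) =>
      match pd v with
      | none => !decide (c ≠ y v)
      | some p => !decide (a = y p.1 ∧ b = y p.2 ∧ c ≠ y v)
  | Sum.inr a => !decide (a = y τ)

omit [Fintype V] [DecidableEq V] in
private theorem liftMain_der (pd : V → Option (V × V)) (τ : V) (q : ℕ) (h : V → ℕ)
    (hh : ∀ v p, pd v = some p → h p.1 < h v ∧ h p.2 < h v) (x : V → Fin q) :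
    ∀ (n : ℕ) (v : V), h v ≤ n →
      Cl (lrule pd τ q) (Sum.inr false) (liftMain_zx pd τ q x) (Sum.inl (v, x v)) := by
  intro n
  induction n using Nat.strong_induction_on with
  | _ n ih =>
    intro v hv
    rcases hp : pd v with _ | p
    · have h1 : (lrule pd τ q (Sum.inl (v, x v, x v, x v))) =
          (Sum.inr false, Sum.inr false, Sum.inl (v, x v)) := by
        simp only [lrule, hp]
      have h2 := Cl.step (r := lrule pd τ q) (s := Sum.inr false)
        (z := liftMain_zx pd τ q x) (Sum.inl (v, x v, x v, x v))
        (by simp only [liftMain_zx, hp, decide_true])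
        (by rw [h1]; exact Cl.start) (by rw [h1]; exact Cl.start)
      rw [h1] at h2
      exact h2
    · have h1 : (lrule pd τ q (Sum.inl (v, x p.1, x p.2, x v))) =
          (Sum.inl (p.1, x p.1), Sum.inl (p.2, x p.2), Sum.inl (v, x v)) := by
        simp only [lrule, hp]
      have h3 := hh v p hp
      have h2 := Cl.step (r := lrule pd τ q) (s := Sum.inr false)
        (z := liftMain_zx pd τ q x) (Sum.inl (v, x p.1, x p.2, x v))
        (by simp only [liftMain_zx, hp, and_self, decide_true])
        (by rw [h1]; exact ih (h p.1) (by omega) p.1 le_rfl)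
        (by rw [h1]; exact ih (h p.2) (by omega) p.2 le_rfl)
      rw [h1] at h2
      exact h2

omit [Fintype V] [DecidableEq V] in
private theorem liftMain_yes (pd : V → Option (V × V)) (τ : V) (q : ℕ) (h : V → ℕ)
    (hh : ∀ v p, pd v = some p → h p.1 < h v ∧ h p.2 < h v) (x : V → Fin q) :
    clF (lrule pd τ q) (Sum.inr false) (Sum.inr true) (liftMain_zx pd τ q x) = true := by
  unfold clF
  simp only [decide_eq_true_eq]
  exact Cl.step (r := lrule pd τ q) (s := Sum.inr false) (z := liftMain_zx pd τ q x)
    (Sum.inr (x τ)) (by simp only [liftMain_zx, decide_true])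
    (liftMain_der pd τ q h hh x (h τ) τ le_rfl) Cl.start

omit [Fintype V] [DecidableEq V] in
private theorem liftMain_inv (pd : V → Option (V × V)) (τ : V) (q : ℕ) (y : V → Fin q)
    (e : (V × Fin q) ⊕ Bool)
    (he : Cl (lrule pd τ q) (Sum.inr false) (liftMain_zy pd τ q y) e) :
    e = Sum.inr false ∨ ∃ v, e = Sum.inl (v, y v) := by
  induction he with
  | start => exact Or.inl rfl
  | step j hj _ _ ih1 ih2 =>
    rcases j with ⟨v, a, b, c⟩ | a
    · rcases hp : pd v with _ | p
      · right
        refine ⟨v, ?_⟩
        simp only [liftMain_zy, hp, Bool.not_eq_true', decide_eq_false_iff_not, not_not] at hj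
        simp only [lrule, hp, hj]
      · right
        refine ⟨v, ?_⟩
        simp only [lrule, hp] at ih1 ih2
        have h1 : a = y p.1 := by
          rcases ih1 with h | ⟨u, hu⟩
          · cases h
          · have h3 := Sum.inl.inj hu
            have h4 : p.1 = u := congrArg Prod.fst h3
            have h5 : a = y u := congrArg Prod.snd h3
            rw [h5, h4]
        have h2 : b = y p.2 := by
          rcases ih2 with h | ⟨u, hu⟩
          · cases h
          · have h3 := Sum.inl.inj hu
            have h4 : p.2 = u := congrArg Prod.fst h3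
            have h5 : b = y u := congrArg Prod.snd h3
            rw [h5, h4]
        simp only [liftMain_zy, hp, Bool.not_eq_true', decide_eq_false_iff_not] at hj
        have h3 : c = y v := by
          by_contra hc
          exact hj ⟨h1, h2, hc⟩
        simp only [lrule, hp, h3]
    · exfalso
      simp only [lrule] at ih1
      simp only [liftMain_zy, Bool.not_eq_true', decide_eq_false_iff_not] at hj
      rcases ih1 with h | ⟨u, hu⟩
      · cases h
      · have h3 := Sum.inl.inj hu
        have h4 : τ = u := congrArg Prod.fst h3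
        have h5 : a = y u := congrArg Prod.snd h3
        exact hj (by rw [h5, h4])

omit [Fintype V] [DecidableEq V] in
private theorem liftMain_no (pd : V → Option (V × V)) (τ : V) (q : ℕ) (y : V → Fin q) :
    clF (lrule pd τ q) (Sum.inr false) (Sum.inr true) (liftMain_zy pd τ q y) = false := by
  unfold clF
  rw [decide_eq_false_iff_not]
  intro h
  rcases liftMain_inv pd τ q y _ h with h1 | ⟨v, h1⟩
  · exact Bool.noConfusion (Sum.inr.inj h1)
  · cases h1

private theorem liftMain_rect (pd : V → Option (V × V)) (τ : V) (d q : ℕ)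
    (hτ : ∀ T, Reach (prs pd) d T → τ ∉ T) (j : (V × Fin q × Fin q × Fin q) ⊕ Fin q) :
    (Matrix.of fun x y => if liftMain_zx pd τ q x j = true ∧ liftMain_zy pd τ q y j = false
      then matA 𝔽 (prs pd) d q x y else 0).rank ≤
      (Fintype.card V).choose d * q ^ (Fintype.card V - d) := by
  classical
  rcases j with ⟨v, a, b, c⟩ | a
  · have h1 := matA_rank_rect (𝔽 := 𝔽) (prs pd) d q v
      (fun x => liftMain_zx pd τ q x (Sum.inl (v, a, b, c)) = true)
      (fun y => liftMain_zy pd τ q y (Sum.inl (v, a, b, c)) = false) (by
        intro x y hx hy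
        rcases hp : pd v with _ | p
        · simp only [liftMain_zx, hp, decide_eq_true_eq] at hx
          simp only [liftMain_zy, hp, Bool.not_eq_false', decide_eq_true_eq] at hy
          constructor
          · simp [prs, hp]
          · intro h
            unfold agr at h
            rw [Finset.mem_filter] at h
            exact hy (by rw [hx, h.2])
        · simp only [liftMain_zx, hp, decide_eq_true_eq] at hx
          simp only [liftMain_zy, hp, Bool.not_eq_false', decide_eq_true_eq] at hy
          constructor
          · intro u hu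
            simp only [prs, hp, Finset.mem_insert, Finset.mem_singleton] at hu
            unfold agr
            rw [Finset.mem_filter]
            refine ⟨Finset.mem_univ _, ?_⟩
            rcases hu with rfl | rfl
            · rw [← hx.1, ← hy.1]
            · rw [← hx.2.1, ← hy.2.1]
          · intro h
            unfold agr at h
            rw [Finset.mem_filter] at h
            exact hy.2.2 (by rw [hx.2.2, h.2]))
    convert h1
  · have h1 := matA_sink (𝔽 := 𝔽) (prs pd) d q τ hτ
      (fun x => liftMain_zx pd τ q x (Sum.inr a) = true)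
      (fun y => liftMain_zy pd τ q y (Sum.inr a) = false) (by
        intro x y hx hy
        simp only [liftMain_zx, decide_eq_true_eq] at hx
        simp only [liftMain_zy, Bool.not_eq_false', decide_eq_true_eq] at hy
        unfold agr
        rw [Finset.mem_filter]
        exact ⟨Finset.mem_univ _, by rw [← hx, ← hy]⟩)
    refine le_trans (le_of_eq ?_) (Nat.zero_le _)
    convert h1

theorem lift_main (pd : V → Option (V × V)) (τ : V) (d g s : ℕ) (hg : 1 ≤ g)
    (hN : Fintype.card V ≤ g * d) (h : V → ℕ)
    (hh : ∀ v p, pd v = some p → h p.1 < h v ∧ h p.2 < h v)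
    (hτ : ∀ T, Reach (prs pd) d T → τ ∉ T)
    (hs : HasSP 𝔽 s (clF (lrule pd τ (16 * g)) (Sum.inr false) (Sum.inr true))) : 2 ^ d ≤ s := by
  classical
  have hup := rank_le_of_sp (matA 𝔽 (prs pd) d (16 * g)) hs
    (liftMain_zx pd τ (16 * g)) (liftMain_zy pd τ (16 * g))
    (liftMain_yes pd τ (16 * g) h hh) (liftMain_no pd τ (16 * g))
    (liftMain_rect pd τ d (16 * g) hτ)
  have hlow : (16 * g - 1) ^ Fintype.card V ≤ (matA 𝔽 (prs pd) d (16 * g)).rank := by
    have h1 := matA_rank_ge (𝔽 := 𝔽) (prs pd) d (16 * g - 1)
    have h2 : 16 * g - 1 + 1 = 16 * g := by omega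
    rw [h2] at h1
    exact h1
  have hnum := rank_numeric (Fintype.card V) d g hg hN
  have hchain := hnum.trans (hlow.trans hup)
  rcases Nat.eq_zero_or_pos ((Fintype.card V).choose d * (16 * g) ^ (Fintype.card V - d)) with
    h0 | h0
  · exfalso
    rw [h0, mul_zero] at hup
    have h1 : 0 < (16 * g - 1) ^ Fintype.card V := Nat.pow_pos (by omega)
    omega
  · exact Nat.le_of_mul_le_mul_right hchain h0

end Pool.Agent.TOpt

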