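import Mathlib
import Pool.Agent.TOpt.LiftMain
import Pool.Agent.TOpt.DagFin
import Pool.Agent.TOpt.BlkEmb

/-!
# Blocks of almost optimal length which are hard for span programs

PACKAGE. Prove `exists_hard` from `lift_main`, `exists_dag` and `blockF_embed` (other packages).

PROOF. Let `D` be given. Let `K` be the least number `≥ 2` with `D ≤ 2 ^ K / (20 * K)`; such `K` exist,
and either `K = 2` or `2 ^ (K - 1) / (20 (K - 1)) < D`, so `2 ^ K ≤ 40 K (D + 1)` in all cases, and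
`K ≤ c (log (D + 1) + 1)` for a constant `c` (for example `2 ^ K ≤ 40 K (D+1)` and `K ≤ 2 ^ (K / 2) * 4`
give `2 ^ (K / 2) ≤ 160 (D + 1)`). Let `V, pd, τ, h` be given by `exists_dag K`,
`d = 2 ^ K / (20 * K) ≥ D`. If `D = 0` the claim is easy (take any; or treat as `D = 1`, using
`2 ^ 0 ≤ 2 ^ 1`); let `D ≥ 1`, so `d ≥ 1` and `2 ^ K ≤ 20 K (d + 1) ≤ 40 K d`,
`card V ≤ 2 ^ K * 1000 K ^ 4 ≤ g d` with `g = 40000 K ^ 5`. Let `q = 16 g`,
`J = (V × Fin q × Fin q × Fin q) ⊕ Fin q`, `E = (V × Fin q) ⊕ Bool`; `card J ≤ 2 card V q ^ 3`,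
`card E ≤ 2 card V q + 2`, both at most `M := 2 ^ K * K ^ 19 * c'` for a constant `c'`
(`q ≤ 640000 K ^ 5`, `q ^ 3 ≤ c'' K ^ 15`). Let `i = clog 2 M`: `card J, card E ≤ 2 ^ i ≤ 2 M ≤
c''' (D + 1) K ^ 20 ≤ C (D + 1) (log (D + 1) + 1) ^ C`. Take `F = clF (lrule pd τ q) (inr false)
(inr true)` and `ρ` from `blockF_embed`. `F (fun _ => false) = false` as only `inr false` is derivable
without rules. `HasSP 𝔽 s F → 2 ^ D ≤ 2 ^ d ≤ s` by `lift_main`.
-/

set_option autoImplicit false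

namespace Pool.Agent.TOpt

open Pool.Agent.FewNeg

private theorem hard_sq (n : ℕ) : (n + 4) ^ 2 ≤ 2 ^ (n + 4) := by
  induction n with
  | zero => norm_num
  | succ n ih =>
    have h : 2 ^ (n + 1 + 4) = 2 * 2 ^ (n + 4) := by
      rw [show n + 1 + 4 = (n + 4) + 1 by ring, pow_succ]
      ring
    rw [h]
    have h2 : (n + 1 + 4) ^ 2 + (n ^ 2 + 6 * n + 7) = 2 * (n + 4) ^ 2 := by ring
    omega

private theorem hard_half (K : ℕ) : K ≤ 4 * 2 ^ (K / 2) := by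
  have h1 : K / 2 < 2 ^ (K / 2) := Nat.lt_two_pow_self
  omega

/-- The choice of the size of the graph. -/
private theorem hard_K (D : ℕ) : ∃ K : ℕ, 2 ≤ K ∧ (D + 1) * (20 * K) ≤ 2 ^ K ∧
    2 ^ K ≤ 40 * (D + 1) * K ∧ K ≤ 16 * (Nat.log 2 (D + 1) + 1) := by
  classical
  have hex : ∃ K : ℕ, 2 ≤ K ∧ (D + 1) * (20 * K) ≤ 2 ^ K := by
    refine ⟨20 * (D + 1), by omega, ?_⟩
    have h1 := hard_sq (20 * (D + 1) - 4)
    rw [Nat.sub_add_cancel (by omega)] at h1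
    refine le_trans (le_of_eq ?_) h1
    ring
  obtain ⟨h2, hK⟩ := Nat.find_spec hex
  have hmin := fun m => Nat.find_min hex (m := m)
  set K := Nat.find hex with hKdef
  have h3 : K ≠ 2 := by
    intro h
    rw [h] at hK
    omega
  have h4 : 2 ^ (K - 1) < (D + 1) * (20 * (K - 1)) := by
    by_contra hcon
    exact hmin (K - 1) (by omega) ⟨by omega, not_lt.1 hcon⟩
  have h5 : 2 ^ K = 2 * 2 ^ (K - 1) := by
    conv_lhs => rw [show K = (K - 1) + 1 by omega, pow_succ]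
    ring
  have h6 : 2 ^ K ≤ 40 * (D + 1) * K := by
    have h7 : (D + 1) * (20 * (K - 1)) ≤ (D + 1) * (20 * K) :=
      Nat.mul_le_mul_left _ (by omega)
    rw [h5]
    calc 2 * 2 ^ (K - 1) ≤ 2 * ((D + 1) * (20 * K)) := by omega
      _ = 40 * (D + 1) * K := by ring
  refine ⟨K, h2, hK, h6, ?_⟩
  have h8 : 2 ^ (K - K / 2) ≤ 160 * (D + 1) := by
    have h9 : 2 ^ (K - K / 2) * 2 ^ (K / 2) ≤ 160 * (D + 1) * 2 ^ (K / 2) := by
      rw [← pow_add, Nat.sub_add_cancel (Nat.div_le_self K 2)]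
      calc 2 ^ K ≤ 40 * (D + 1) * K := h6
        _ ≤ 40 * (D + 1) * (4 * 2 ^ (K / 2)) := Nat.mul_le_mul_left _ (hard_half K)
        _ = _ := by ring
    exact Nat.le_of_mul_le_mul_right h9 (by positivity)
  have h10 : D + 1 < 2 ^ (Nat.log 2 (D + 1) + 1) := Nat.lt_pow_succ_log_self (by norm_num) _
  have h11 : 2 ^ (K - K / 2) < 2 ^ (Nat.log 2 (D + 1) + 9) := by
    calc 2 ^ (K - K / 2) ≤ 160 * (D + 1) := h8
      _ < 256 * 2 ^ (Nat.log 2 (D + 1) + 1) := by omega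
      _ = 2 ^ (Nat.log 2 (D + 1) + 9) := by
        rw [show Nat.log 2 (D + 1) + 9 = 8 + (Nat.log 2 (D + 1) + 1) by ring, pow_add 2 8]
        norm_num
  have h12 := (Nat.pow_lt_pow_iff_right (by norm_num : 1 < 2)).1 h11
  omega

/-- The bound for the numbers of rules and elements. -/
private theorem hard_card (K N : ℕ) (hK : 2 ≤ K) (hN : N ≤ 2 ^ K * (1000 * K ^ 4)) :
    N * (16 * (40000 * K ^ 5)) ^ 3 + 16 * (40000 * K ^ 5) ≤
      (1000 * 640000 ^ 3 + 640000 + 2) * (2 ^ K * K ^ 19) ∧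
    N * (16 * (40000 * K ^ 5)) + 2 ≤
      (1000 * 640000 ^ 3 + 640000 + 2) * (2 ^ K * K ^ 19) := by
  have hK1 : 1 ≤ K := by omega
  have h2K : 1 ≤ 2 ^ K := Nat.one_le_two_pow
  have e1 : K ^ 5 ≤ 2 ^ K * K ^ 19 := by
    calc K ^ 5 ≤ K ^ 19 := Nat.pow_le_pow_right hK1 (by norm_num)
      _ ≤ 2 ^ K * K ^ 19 := Nat.le_mul_of_pos_left _ (by positivity)
  have e2 : 2 ^ K * K ^ 9 ≤ 2 ^ K * K ^ 19 :=
    Nat.mul_le_mul_left _ (Nat.pow_le_pow_right hK1 (by norm_num))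
  have e3 : 1 ≤ 2 ^ K * K ^ 19 := Nat.mul_pos (by positivity) (by positivity)
  constructor
  · have h1 : N * (16 * (40000 * K ^ 5)) ^ 3 ≤ 1000 * 640000 ^ 3 * (2 ^ K * K ^ 19) := by
      calc N * (16 * (40000 * K ^ 5)) ^ 3 ≤ 2 ^ K * (1000 * K ^ 4) * (16 * (40000 * K ^ 5)) ^ 3 :=
            Nat.mul_le_mul_right _ hN
        _ = _ := by ring
    have h2 : 16 * (40000 * K ^ 5) ≤ 640000 * (2 ^ K * K ^ 19) := by
      calc 16 * (40000 * K ^ 5) = 640000 * K ^ 5 := by ring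
        _ ≤ _ := Nat.mul_le_mul_left _ e1
    generalize 2 ^ K * K ^ 19 = M at *
    nlinarith
  · have h1 : N * (16 * (40000 * K ^ 5)) ≤ 1000 * 640000 * (2 ^ K * K ^ 19) := by
      calc N * (16 * (40000 * K ^ 5)) ≤ 2 ^ K * (1000 * K ^ 4) * (16 * (40000 * K ^ 5)) :=
            Nat.mul_le_mul_right _ hN
        _ = 1000 * 640000 * (2 ^ K * K ^ 9) := by ring
        _ ≤ _ := Nat.mul_le_mul_left _ e2
    generalize 2 ^ K * K ^ 19 = M at *
    nlinarith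

private theorem hard_false {E J : Type} (r : J → E × E × E) (s t : E) (hst : s ≠ t) :
    clF r s t (fun _ => false) = false := by
  classical
  have h : ¬ Cl r s (fun _ => false) t := by
    intro h
    cases h with
    | start => exact hst rfl
    | step j hj _ _ => exact Bool.false_ne_true hj
  unfold clF
  exact decide_eq_false h

theorem exists_hard : ∃ C : ℕ, ∀ D : ℕ, ∃ (i : ℕ) (J : Type) (ρ : ℕ → J ⊕ Bool) (F : BF J),
    2 ^ i ≤ C * (D + 1) * (Nat.log 2 (D + 1) + 1) ^ C ∧ F (fun _ => false) = false ∧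
    (∀ z : J → Bool, blockF i (fun p => Sum.elim z id (ρ p)) = F z) ∧
    ∀ (𝔽 : Type) [Field 𝔽] (s : ℕ), HasSP 𝔽 s F → 2 ^ D ≤ s := by
  obtain ⟨c, hc⟩ : ∃ c : ℕ, c = 1000 * 640000 ^ 3 + 640000 + 2 := ⟨_, rfl⟩
  obtain ⟨C, hC⟩ : ∃ C : ℕ, C = 80 * c * 16 ^ 20 + 20 := ⟨_, rfl⟩
  refine ⟨C, fun D => ?_⟩
  obtain ⟨K, hK2, hKD, hK3, hK4⟩ := hard_K D
  obtain ⟨V, _, _, pd, τ, h, hV, hh, hτ⟩ := exists_dag K hK2
  set d := 2 ^ K / (20 * K) with hd
  have hd1 : D + 1 ≤ d := (Nat.le_div_iff_mul_le (by omega)).2 hKD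
  have hd2 : 2 ^ K ≤ 40 * K * d := by
    have h1 : 2 ^ K < 20 * K * (d + 1) := Nat.lt_mul_div_succ _ (by omega)
    have h2 : 20 * K * (d + 1) ≤ 20 * K * (2 * d) := Nat.mul_le_mul_left _ (by omega)
    calc 2 ^ K ≤ 20 * K * (2 * d) := by omega
      _ = 40 * K * d := by ring
  set g := 40000 * K ^ 5 with hg
  have hg1 : 1 ≤ g := by
    rw [hg]
    have : 0 < K ^ 5 := by positivity
    omega
  have hVg : Fintype.card V ≤ g * d := by
    calc Fintype.card V ≤ 2 ^ K * (1000 * K ^ 4) := hV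
      _ ≤ 40 * K * d * (1000 * K ^ 4) := Nat.mul_le_mul_right _ hd2
      _ = g * d := by
        rw [hg]
        ring
  obtain ⟨hcJ, hcE⟩ := hard_card K (Fintype.card V) hK2 hV
  rw [← hg, ← hc] at hcJ hcE
  set M := c * (2 ^ K * K ^ 19) with hM
  have hM2 : 2 ≤ M := le_trans (Nat.le_add_left 2 _) hcE
  have hMi : M ≤ 2 ^ Nat.clog 2 M := Nat.le_pow_clog (by norm_num) M
  have hiM : 2 ^ Nat.clog 2 M ≤ 2 * M := by
    have h1 := Nat.pow_pred_clog_lt_self (b := 2) (by norm_num) (x := M) (by omega)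
    have h2 : 0 < Nat.clog 2 M := Nat.clog_pos (by norm_num) (by omega)
    have h3 : 2 ^ Nat.clog 2 M = 2 * 2 ^ (Nat.clog 2 M).pred := by
      conv_lhs => rw [← Nat.succ_pred_eq_of_pos h2, pow_succ]
      ring
    omega
  have cardE : Fintype.card ((V × Fin (16 * g)) ⊕ Bool) ≤ 2 ^ Nat.clog 2 M := by
    rw [Fintype.card_sum, Fintype.card_prod, Fintype.card_fin, Fintype.card_bool]
    exact hcE.trans hMi
  have cardJ : Fintype.card ((V × Fin (16 * g) × Fin (16 * g) × Fin (16 * g)) ⊕ Fin (16 * g)) ≤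
      2 ^ Nat.clog 2 M := by
    rw [Fintype.card_sum, Fintype.card_prod, Fintype.card_prod, Fintype.card_prod,
      Fintype.card_fin]
    refine le_trans (le_of_eq ?_) (hcJ.trans hMi)
    ring
  have hst : (Sum.inr false : (V × Fin (16 * g)) ⊕ Bool) ≠ Sum.inr true := by simp
  obtain ⟨ρ, hρ⟩ := blockF_embed (Nat.clog 2 M) cardE cardJ (lrule pd τ (16 * g))
    (Sum.inr false) (Sum.inr true) hst
  refine ⟨Nat.clog 2 M, _, ρ, clF (lrule pd τ (16 * g)) (Sum.inr false) (Sum.inr true), ?_,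
    hard_false _ _ _ hst, hρ, ?_⟩
  · set L := Nat.log 2 (D + 1) with hL
    have hCL : (L + 1) ^ 20 ≤ (L + 1) ^ C := Nat.pow_le_pow_right (by omega) (by omega)
    calc 2 ^ Nat.clog 2 M ≤ 2 * M := hiM
      _ = 2 * c * 2 ^ K * K ^ 19 := by
        rw [hM]
        ring
      _ ≤ 2 * c * (40 * (D + 1) * K) * K ^ 19 :=
        Nat.mul_le_mul_right _ (Nat.mul_le_mul_left _ hK3)
      _ = 80 * c * (D + 1) * K ^ 20 := by ring
      _ ≤ 80 * c * (D + 1) * (16 * (L + 1)) ^ 20 :=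
        Nat.mul_le_mul_left _ (Nat.pow_le_pow_left hK4 20)
      _ = (80 * c * 16 ^ 20) * (D + 1) * (L + 1) ^ 20 := by
        rw [mul_pow]
        ring
      _ ≤ C * (D + 1) * (L + 1) ^ C :=
        Nat.mul_le_mul (Nat.mul_le_mul_right _ (by omega)) hCL
  · intro 𝔽 _ s hs
    have h1 := lift_main pd τ d g s hg1 hVg h hh hτ hs
    exact (Nat.pow_le_pow_right (by norm_num) (by omega)).trans h1

end Pool.Agent.TOpt
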