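import Mathlib
import Pool.Agent.TOpt.Hard
import Pool.Agent.TOpt.SPGame
import Pool.Agent.TOpt.BlkMono
import Pool.Agent.FewG.Sub

/-!
# The lower bound

PACKAGE. Prove `LTC_lower` from `exists_hard`, `gdecides_lower`, `MS_sub` and the lemmas of
`BlkMono` (other packages). Compare `Pool/Agent/CGame/FinA.lean`, theorem `LTA_game`.

PROOF. Let `C₀` be the constant of `exists_hard`. Let `S`, `s`, `P` be given with
`h : GDecides (HasSP 𝔽 s) S P (slice LTC n)`; `P ≥ 1` (by induction on the game). If `n ≤ P` or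
`n ≤ log s` (or `n = 0`) the claim is trivial. So let `P < n`, `log s < n`. Let
`D = log s + log P + 2`, so `P * s < 2 ^ D` (`s < 2 ^ (log s + 1)`, `P < 2 ^ (log P + 1)`). Take
`i, J, ρ, F` from `exists_hard D`, `Λ := log n + 1`: `D + 1 ≤ (log s + 1) * 4 Λ` and
`log (D + 1) + 1 ≤ 4 Λ` (as `D + 1 ≤ 2 n + 3`), so
`2 ^ i ≤ C₀ (log s + 1) 4 Λ (4 Λ) ^ C₀`. If `i ≥ Λ` then `2 ^ i ≥ 2 ^ Λ > n` and the claim follows from
`n < 2 ^ i ≤ C₀ (log s + 1) (4 Λ) ^ (C₀ + 1)`. Let `i < Λ`; `bl i ≤ 2 ^ i * 7 Λ`. Suppose that the claim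
fails, `n > C Λ ^ C (P + S.card) (log s + 1)` with `C` large; then
`(P + S.card) * bl i ≤ n / Λ`. Apply `MS_sub` with `ι = Fin (bl i)`, `pos = val`, the function
`F₁ z = blockF i (fun p => if hp : p < bl i then z ⟨p, hp⟩ else false)` and `N = P + S.card`
(hypotheses: `blockF_zero`, `blockF_congr`, `bl_pos`): `B`, `σ` with `P ≤ B.card`. Then put the
constants into the blocks: `σ' p = inl (b, j)` if `σ p = inl (b, a)` and `ρ a = inl j`, `inr c` if
`σ p = inl (b, a)` and `ρ a = inr c` or `σ p = inr c`. For `z : Fin N × J → Bool`,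
`slice LTC n (fun p => Sum.elim z id (σ' p)) = orC B F z`: apply the equation for `σ` to
`y (b, a) = Sum.elim (fun j => z (b, j)) id (ρ a)`, and
`F₁ (fun a => y (b, a)) = blockF i (fun p => Sum.elim (fun j => z (b, j)) id (ρ p))` by
`blockF_congr`. By `gdecides_lower`: `HasSP 𝔽 (P * s) F`, so `2 ^ D ≤ P * s < 2 ^ D`.
-/

set_option autoImplicit false

namespace Pool.Agent.TOpt

open Pool.Agent.FewNeg Pool.Agent.FewG Pool.Agent.CGame

/-- The function of a block, with the letters as variables. -/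
noncomputable def bF (i : ℕ) : BF (Fin (bl i)) := fun z =>
  blockF i (fun p => if hp : p < bl i then z ⟨p, hp⟩ else false)

/-- Constants are put into the variables of the copies. -/
private def cmp {n N : ℕ} {κ J : Type} (σ : Fin n → (Fin N × κ) ⊕ Bool) (ρ : κ → J ⊕ Bool) :
    Fin n → (Fin N × J) ⊕ Bool := fun p =>
  match σ p with
  | Sum.inl (b, a) =>
    match ρ a with
    | Sum.inl j => Sum.inl (b, j)
    | Sum.inr c => Sum.inr c
  | Sum.inr c => Sum.inr c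

private theorem cmp_elim {n N : ℕ} {κ J : Type} (σ : Fin n → (Fin N × κ) ⊕ Bool)
    (ρ : κ → J ⊕ Bool) (z : Fin N × J → Bool) (p : Fin n) :
    Sum.elim z id (cmp σ ρ p) =
      Sum.elim (fun q : Fin N × κ => Sum.elim (fun j => z (q.1, j)) id (ρ q.2)) id (σ p) := by
  unfold cmp
  rcases hσ : σ p with ⟨b, a⟩ | c
  · rcases hρ : ρ a with j | c
    · simp [hρ]
    · simp [hρ]
  · rfl

theorem guses_pos {ι : Type} {𝒜 : BF ι → Prop} {G : Game ι} :
    ∀ {P : ℕ}, GUses 𝒜 G P → 1 ≤ P := by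
  induction G with
  | out f => exact fun h => h.2
  | round T q next ih =>
    rintro P ⟨-, P', h2, h3⟩
    have h4 := ih (fun _ => false) (h3 _)
    have h5 : 1 * 1 ≤ (T + 1) * P' := Nat.mul_le_mul (by omega) h4
    omega

theorem slice_LTC_sub {n i : ℕ} (hi : i < Nat.log 2 n + 1) (S : Finset (Fin n)) {N : ℕ}
    (ht : N * bl i ≤ n / (Nat.log 2 n + 1)) :
    ∃ (B : Finset (Fin N)) (σ : Fin n → (Fin N × Fin (bl i)) ⊕ Bool), N ≤ B.card + S.card ∧
      (∀ p ∈ S, σ p = Sum.inr false) ∧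
      ∀ y : Fin N × Fin (bl i) → Bool,
        slice LTC n (fun p => Sum.elim y id (σ p)) = orC B (bF i) y := by
  obtain ⟨B, σ, g1, g2, -, g4⟩ := MS_sub (S := fun n => Nat.log 2 n + 1) (K := fun _ i => bl i)
    (G := fun _ i => blockF i) (F := bF i) (pos := Fin.val) hi Fin.val_injective
    (fun a => a.2)
    (blockF_zero i _ fun p hp => by rw [dif_pos hp])
    (fun i' _ => bl_pos i') (fun i' _ y hy => blockF_zero i' y hy)
    (fun y => blockF_congr i fun p hp => by rw [dif_pos hp]) S (N := N) ht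
  exact ⟨B, σ, g1, g2, g4⟩

/-- The copies of the hard function in the slices. -/
theorem slice_LTC_hard {n i : ℕ} (hi : i < Nat.log 2 n + 1) (S : Finset (Fin n))
    {N : ℕ} (ht : N * bl i ≤ n / (Nat.log 2 n + 1)) {J : Type} {ρ : ℕ → J ⊕ Bool} {F : BF J}
    (hρ : ∀ z : J → Bool, blockF i (fun p => Sum.elim z id (ρ p)) = F z) :
    ∃ (B : Finset (Fin N)) (σ : Fin n → (Fin N × J) ⊕ Bool), N ≤ B.card + S.card ∧
      (∀ p ∈ S, σ p = Sum.inr false) ∧
      ∀ y : Fin N × J → Bool, slice LTC n (fun p => Sum.elim y id (σ p)) = orC B F y := by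
  obtain ⟨B, σ, g1, g2, g4⟩ := slice_LTC_sub hi S ht
  refine ⟨B, cmp σ (fun a => ρ a.val), g1, fun p hp => ?_, fun z => ?_⟩
  · unfold cmp
    rw [g2 p hp]
  · have e1 : (fun p => Sum.elim z id (cmp σ (fun a : Fin (bl i) => ρ a.val) p)) = fun p =>
        Sum.elim (fun q : Fin N × Fin (bl i) => Sum.elim (fun j => z (q.1, j)) id (ρ q.2.val))
          id (σ p) := funext fun p => cmp_elim σ _ z p
    rw [e1, g4]
    have e2 : ∀ b : Fin N, bF i (fun a => Sum.elim (fun j => z (b, j)) id (ρ a.val)) =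
        F fun j => z (b, j) := by
      intro b
      rw [← hρ]
      exact blockF_congr i fun p hp => by rw [dif_pos hp]
    unfold orC
    rw [Bool.eq_iff_iff]
    simp only [decide_eq_true_eq, e2]

private theorem low_num {C₀ D a Λ i : ℕ}
    (hD1 : D + 1 ≤ a * (4 * Λ)) (hD2 : Nat.log 2 (D + 1) + 1 ≤ 4 * Λ)
    (hi : 2 ^ i ≤ C₀ * (D + 1) * (Nat.log 2 (D + 1) + 1) ^ C₀) :
    2 ^ i ≤ (C₀ * 4 ^ (C₀ + 1)) * Λ ^ (C₀ + 1) * a := by
  calc 2 ^ i ≤ C₀ * (D + 1) * (Nat.log 2 (D + 1) + 1) ^ C₀ := hi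
    _ ≤ C₀ * (a * (4 * Λ)) * (4 * Λ) ^ C₀ :=
      Nat.mul_le_mul (Nat.mul_le_mul_left _ hD1) (Nat.pow_le_pow_left hD2 _)
    _ = (C₀ * 4 ^ (C₀ + 1)) * Λ ^ (C₀ + 1) * a := by
      rw [mul_pow, pow_succ, pow_succ]
      ring

theorem LTC_lower : ∃ C : ℕ, ∀ (𝔽 : Type) [Field 𝔽] (n : ℕ) (S : Finset (Fin n)) (s P : ℕ),
    GDecides (HasSP 𝔽 s) S P (slice LTC n) →
      n ≤ C * (Nat.log 2 n + 1) ^ C * (P + S.card) * (Nat.log 2 s + 1) := by
  obtain ⟨C₀, hC₀⟩ := exists_hard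
  set c := C₀ * 4 ^ (C₀ + 1) with hc
  refine ⟨7 * c + C₀ + 3, fun 𝔽 _ n S s P h => ?_⟩
  set C := 7 * c + C₀ + 3 with hC
  set Λ := Nat.log 2 n + 1 with hΛ
  set a := Nat.log 2 s + 1 with ha
  have hP1 : 1 ≤ P := by
    obtain ⟨G, -, h2, -⟩ := h
    exact guses_pos (h2 fun _ => false)
  have hΛ1 : 1 ≤ Λ := by omega
  have ha1 : 1 ≤ a := by omega
  have hCΛ : 1 ≤ C * Λ ^ C := Nat.mul_pos (by omega) (Nat.pow_pos hΛ1)
  rcases Nat.eq_zero_or_pos n with hn0 | hn0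
  · exact hn0.le.trans (Nat.zero_le _)
  rcases Nat.lt_or_ge P n with hPn | hPn
  swap
  · calc n ≤ P := hPn
      _ ≤ 1 * (P + S.card) * 1 := by omega
      _ ≤ C * Λ ^ C * (P + S.card) * a :=
        Nat.mul_le_mul (Nat.mul_le_mul_right _ hCΛ) ha1
  rcases Nat.lt_or_ge (Nat.log 2 s) n with hsn | hsn
  swap
  · calc n ≤ a := by omega
      _ = 1 * 1 * a := by omega
      _ ≤ C * Λ ^ C * (P + S.card) * a :=
        Nat.mul_le_mul_right _ (Nat.mul_le_mul hCΛ (by omega))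
  by_contra hcon
  push Not at hcon
  obtain ⟨i, J, ρ, F, h1, h2, h3, h4⟩ := hC₀ (Nat.log 2 s + Nat.log 2 P + 2)
  have hlogP : Nat.log 2 P + 1 ≤ Λ := by
    have := Nat.log_mono_right (b := 2) hPn.le
    omega
  have hD1 : Nat.log 2 s + Nat.log 2 P + 2 + 1 ≤ a * (4 * Λ) := by
    have e : a + Λ + 1 ≤ a * (4 * Λ) := by nlinarith
    omega
  have hΛn : Λ ≤ n := by
    have := Nat.log_lt_self 2 (x := n) (by omega)
    omega
  have hD2 : Nat.log 2 (Nat.log 2 s + Nat.log 2 P + 2 + 1) + 1 ≤ 4 * Λ := by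
    have e1 : Nat.log 2 s + Nat.log 2 P + 2 + 1 ≤ n * 2 * 2 := by omega
    have e2 := Nat.log_mono_right (b := 2) e1
    rw [Nat.log_mul_base (by norm_num) (by omega), Nat.log_mul_base (by norm_num) (by omega)]
      at e2
    omega
  have h5 := low_num hD1 hD2 h1
  rw [← hc] at h5
  have hpow : Λ ^ (C₀ + 3) ≤ Λ ^ C := Nat.pow_le_pow_right hΛ1 (by omega)
  have hbig : (P + S.card) * (7 * c * Λ ^ (C₀ + 3) * a) ≤ n := by
    calc (P + S.card) * (7 * c * Λ ^ (C₀ + 3) * a) =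
        (7 * c) * Λ ^ (C₀ + 3) * (P + S.card) * a := by ring
      _ ≤ C * Λ ^ C * (P + S.card) * a :=
        Nat.mul_le_mul_right _ (Nat.mul_le_mul_right _ (Nat.mul_le_mul (by omega) hpow))
      _ ≤ n := hcon.le
  rcases Nat.lt_or_ge i Λ with hiΛ | hiΛ
  swap
  · have e1 : n < 2 ^ Λ := Nat.lt_pow_succ_log_self (by norm_num) n
    have e2 : 2 ^ Λ ≤ 2 ^ i := Nat.pow_le_pow_right (by norm_num) hiΛ
    have e3 : c * Λ ^ (C₀ + 1) * a ≤ (P + S.card) * (7 * c * Λ ^ (C₀ + 3) * a) := by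
      calc c * Λ ^ (C₀ + 1) * a ≤ 7 * c * Λ ^ (C₀ + 3) * a :=
            Nat.mul_le_mul_right _ (Nat.mul_le_mul (by omega)
              (Nat.pow_le_pow_right hΛ1 (by omega)))
        _ ≤ _ := Nat.le_mul_of_pos_left _ (by omega)
    omega
  have hbl : bl i * Λ ≤ 7 * c * Λ ^ (C₀ + 3) * a := by
    calc bl i * Λ = 2 ^ i * (6 * i + 1) * Λ := rfl
      _ ≤ (c * Λ ^ (C₀ + 1) * a) * (7 * Λ) * Λ :=
        Nat.mul_le_mul_right _ (Nat.mul_le_mul h5 (by omega))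
      _ = 7 * c * Λ ^ (C₀ + 3) * a := by ring
  have ht : (P + S.card) * bl i ≤ n / Λ := by
    refine (Nat.le_div_iff_mul_le hΛ1).2 ?_
    calc (P + S.card) * bl i * Λ = (P + S.card) * (bl i * Λ) := by ring
      _ ≤ _ := Nat.mul_le_mul_left _ hbl
      _ ≤ n := hbig
  obtain ⟨B, σ, g1, g2, g3⟩ := slice_LTC_hard hiΛ S ht h3
  have h6 : HasSP 𝔽 (P * s) F := gdecides_lower h2 g2 g3 h (by omega)
  have h7 := h4 𝔽 (P * s) h6
  have h8 : P < 2 ^ (Nat.log 2 P + 1) := Nat.lt_pow_succ_log_self (by norm_num) _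
  have h9 : s < 2 ^ (Nat.log 2 s + 1) := Nat.lt_pow_succ_log_self (by norm_num) _
  have h10 : P * s < 2 ^ (Nat.log 2 s + Nat.log 2 P + 2) := by
    calc P * s < 2 ^ (Nat.log 2 P + 1) * 2 ^ (Nat.log 2 s + 1) := Nat.mul_lt_mul'' h8 h9
      _ = 2 ^ (Nat.log 2 s + Nat.log 2 P + 2) := by
        rw [← pow_add]
        congr 1
        omega
  omega

end Pool.Agent.TOpt
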