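import Mathlib
import Pool.Agent.TOpt.NNF

/-!
# Circuits with `t` NOT gates in normal form

PACKAGE. Prove the theorems below (helper lemmas allowed, keep the statements).

`NForm t D f`: there are monotone formulas `ψ j` (`j < t`) and `φ` of depth at most `D` in the
variables and `t` further variables; `z j` is the negation of the value of `ψ j`, which depends only
on `z 0, ..., z (j - 1)`; and `f` is the value of `φ`.

* `NForm.of_md`: `t = 0`, `φ` is `f` with the variables renamed.
* `NForm.ite`: for `f`: `ψ^A, φ^A`; for `g`: `ψ^B, φ^B`, both with `t` NOT gates. New: `ψ 0 = u`,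
  `ψ (j+1) (x, z) = (u x && ψ^A j (x, tail z)) || (z 0 && ψ^B j (x, tail z))`,
  `φ (x, z) = (u x && φ^A (x, tail z)) || (z 0 && φ^B (x, tail z))`, where `tail z j = z (j+1)`. If
  `u x = true` then `z 0 = false`, and `tail z` is the sequence of `A`; if `u x = false` then
  `z 0 = true` and `tail z` is the sequence of `B`. Depth `D + 2`.
* `NForm.computes`: construct a straight-line program: by induction on `j ≤ t` a list
  `SLP L s j` which contains all variables at depth `0` and the functions `x ↦ z x i`, `i < j`, at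
  depth at most `j * D`: add the formula `ψ j` (induction on `MD`: if the list contains the variables
  and the functions `z i` at depth at most `e`, it can be extended, without NOT gates, by the function
  `x ↦ ψ (x, z x)` at depth at most `e + D`), then a NOT gate. Finally add `φ`.
* `NForm.mono_t`: a circuit with fewer NOT gates: `t' ≥ t` (add NOT gates with constant inputs at the
  end), not needed: `Computes` allows at most `t` NOT gates.
-/

set_option autoImplicit false

namespace Pool.Agent.TOpt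

open Pool.Agent.FewNeg

variable {ι : Type}

/-- Circuits with `t` NOT gates in normal form. -/
def NForm (t D : ℕ) (f : BF ι) : Prop :=
  ∃ (ψ : Fin t → BF (ι ⊕ Fin t)) (φ : BF (ι ⊕ Fin t)), (∀ j, MD D (ψ j)) ∧ MD D φ ∧
    (∀ (j : Fin t) (x : ι → Bool) (z z' : Fin t → Bool), (∀ i, i < j → z i = z' i) →
      ψ j (Sum.elim x z) = ψ j (Sum.elim x z')) ∧
    ∀ (x : ι → Bool) (z : Fin t → Bool), (∀ j, z j = !(ψ j (Sum.elim x z))) →
      f x = φ (Sum.elim x z)

/-- Renaming of the variables. -/
private theorem nform_rename {κ lam : Type} {D : ℕ} {f : BF κ} (h : MD D f) (r : κ → lam) :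
    MD D (fun y : lam → Bool => f fun k => y (r k)) := by
  have := MD.comp (e := 0) h (fun k => fun y : lam → Bool => y (r k)) (fun k => MD.var (r k))
  simpa using this

/-- The renaming of `ι ⊕ Fin t` to `ι ⊕ Fin (t + 1)`. -/
private def nform_r (t : ℕ) : ι ⊕ Fin t → ι ⊕ Fin (t + 1) :=
  Sum.map id Fin.succ

private theorem nform_elim (t : ℕ) (x : ι → Bool) (z : Fin (t + 1) → Bool) :
    (fun k => Sum.elim x z (nform_r t k)) = Sum.elim x (fun j => z j.succ) := by
  funext k
  cases k <;> rfl

theorem NForm.of_md {D : ℕ} {f : BF ι} (h : MD D f) : NForm 0 D f := by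
  refine ⟨fun j => j.elim0, fun y => f fun k => y (Sum.inl k), fun j => j.elim0,
    nform_rename h Sum.inl, fun j => j.elim0, fun x z _ => rfl⟩

theorem NForm.ite {t D : ℕ} {u f g F : BF ι} (hu : MD D u) (hf : NForm t D f) (hg : NForm t D g)
    (hF : ∀ x, F x = if u x = true then f x else g x) : NForm (t + 1) (D + 2) F := by
  obtain ⟨ψA, φA, a1, a2, a3, a4⟩ := hf
  obtain ⟨ψB, φB, b1, b2, b3, b4⟩ := hg
  -- the combination of two functions
  let cmb : BF (ι ⊕ Fin t) → BF (ι ⊕ Fin t) → BF (ι ⊕ Fin (t + 1)) := fun p q y =>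
    (u (fun i => y (Sum.inl i)) && p (fun k => y (nform_r t k))) ||
      (y (Sum.inr 0) && q (fun k => y (nform_r t k)))
  have hmd : ∀ p q, MD D p → MD D q → MD (D + 2) (cmb p q) := by
    intro p q hp hq
    exact MD.or (MD.and (nform_rename hu Sum.inl) (nform_rename hp _))
      (MD.and ((MD.var (Sum.inr 0)).mono (Nat.zero_le D)) (nform_rename hq _))
  have hval : ∀ p q (x : ι → Bool) (z : Fin (t + 1) → Bool), cmb p q (Sum.elim x z) =
      ((u x && p (Sum.elim x fun j => z j.succ)) || (z 0 && q (Sum.elim x fun j => z j.succ))) := by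
    intro p q x z
    show ((u x && p (fun k => Sum.elim x z (nform_r t k))) ||
      (z 0 && q (fun k => Sum.elim x z (nform_r t k)))) = _
    rw [nform_elim]
  refine ⟨Fin.cons (fun y => u fun i => y (Sum.inl i)) fun j => cmb (ψA j) (ψB j), cmb φA φB,
    ?_, hmd _ _ a2 b2, ?_, ?_⟩
  · intro j
    refine Fin.cases ?_ (fun j => ?_) j
    · rw [Fin.cons_zero]
      exact (nform_rename hu Sum.inl).mono (by omega)
    · rw [Fin.cons_succ]
      exact hmd _ _ (a1 j) (b1 j)
  · intro j
    refine Fin.cases ?_ (fun j => ?_) j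
    · intro x z z' _
      rw [Fin.cons_zero]
      rfl
    · intro x z z' h
      rw [Fin.cons_succ, hval, hval, h 0 (Fin.succ_pos j),
        a3 j x (fun j => z j.succ) (fun j => z' j.succ) fun i hi => h _ (Fin.succ_lt_succ_iff.2 hi),
        b3 j x (fun j => z j.succ) (fun j => z' j.succ) fun i hi => h _ (Fin.succ_lt_succ_iff.2 hi)]
  · intro x z h
    have h0 := h 0
    rw [Fin.cons_zero] at h0
    have h0' : z 0 = !(u x) := h0
    have hs : ∀ j : Fin t, z j.succ = !(cmb (ψA j) (ψB j) (Sum.elim x z)) := by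
      intro j
      have := h j.succ
      rwa [Fin.cons_succ] at this
    rw [hval, hF, h0']
    by_cases hux : u x = true
    · rw [if_pos hux, a4 x (fun j => z j.succ) fun j => ?_]
      · simp [hux]
      · show z j.succ = _
        rw [hs, hval, h0']
        simp [hux]
    · rw [if_neg hux, b4 x (fun j => z j.succ) fun j => ?_]
      · simp [hux]
      · show z j.succ = _
        rw [hs, hval, h0']
        simp [hux]

/-- A formula can be added to a straight-line program. -/
private theorem nform_add {κ : Type} {D : ℕ} {f : BF (ι ⊕ κ)} (h : MD D f) (e t : ℕ)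
    (g : κ → BF ι) : ∀ (L : List (BF ι × ℕ)) (s : ℕ), SLP L s t →
      (∀ k, ∃ d ≤ e, (g k, d) ∈ L) → ∃ (L' : List (BF ι × ℕ)) (s' d' : ℕ), SLP L' s' t ∧
        (∀ p ∈ L, p ∈ L') ∧ ((fun x => f (Sum.elim x fun k => g k x)), d') ∈ L' ∧ d' ≤ e + D := by
  induction h with
  | var k =>
    intro L s hL hg
    cases k with
    | inl i =>
      exact ⟨_, s, 0, SLP.var i hL, fun p hp => List.mem_cons_of_mem _ hp, List.mem_cons_self,
        Nat.zero_le _⟩
    | inr k =>
      obtain ⟨d, hd, hk⟩ := hg k
      exact ⟨L, s, d, hL, fun p hp => hp, hk, by omega⟩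
  | const b =>
    intro L s hL _
    exact ⟨_, s, 0, SLP.const b hL, fun p hp => List.mem_cons_of_mem _ hp, List.mem_cons_self,
      Nat.zero_le _⟩
  | @and D f₁ f₂ _ _ ih₁ ih₂ =>
    intro L s hL hg
    obtain ⟨L₁, s₁, d₁, c1, c2, c3, c4⟩ := ih₁ L s hL hg
    obtain ⟨L₂, s₂, d₂, c5, c6, c7, c8⟩ := ih₂ L₁ s₁ c1 fun k => by
      obtain ⟨d, hd, hk⟩ := hg k
      exact ⟨d, hd, c2 _ hk⟩
    exact ⟨_, s₂ + 1, _, SLP.and c5 (c6 _ c3) c7,
      fun p hp => List.mem_cons_of_mem _ (c6 _ (c2 _ hp)), List.mem_cons_self, by omega⟩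
  | @or D f₁ f₂ _ _ ih₁ ih₂ =>
    intro L s hL hg
    obtain ⟨L₁, s₁, d₁, c1, c2, c3, c4⟩ := ih₁ L s hL hg
    obtain ⟨L₂, s₂, d₂, c5, c6, c7, c8⟩ := ih₂ L₁ s₁ c1 fun k => by
      obtain ⟨d, hd, hk⟩ := hg k
      exact ⟨d, hd, c2 _ hk⟩
    exact ⟨_, s₂ + 1, _, SLP.or c5 (c6 _ c3) c7,
      fun p hp => List.mem_cons_of_mem _ (c6 _ (c2 _ hp)), List.mem_cons_self, by omega⟩
  | succ _ ih =>
    intro L s hL hg
    obtain ⟨L₁, s₁, d₁, c1, c2, c3, c4⟩ := ih L s hL hg
    exact ⟨L₁, s₁, d₁, c1, c2, c3, by omega⟩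

theorem NForm.computes {t D : ℕ} {f : BF ι} (h : NForm t D f) :
    ∃ s, Computes s ((t + 1) * D) t f := by
  obtain ⟨ψ, φ, h1, h2, h3, h4⟩ := h
  have key : ∀ j : ℕ, j ≤ t → ∃ (L : List (BF ι × ℕ)) (s : ℕ) (Z : Fin t → BF ι), SLP L s j ∧
      (∀ i, ∃ d ≤ j * D, (Z i, d) ∈ L) ∧
      ∀ i : Fin t, i.val < j → ∀ x, Z i x = !(ψ i (Sum.elim x fun k => Z k x)) := by
    intro j
    induction j with
    | zero =>
      intro _
      exact ⟨_, 0, fun _ _ => false, SLP.const false SLP.nil,
        fun i => ⟨0, Nat.zero_le _, List.mem_cons_self⟩, fun i hi => absurd hi (Nat.not_lt_zero _)⟩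
    | succ j ih =>
      intro hj
      obtain ⟨L, s, Z, c1, c2, c3⟩ := ih (by omega)
      obtain ⟨L', s', d', e1, e2, e3, e4⟩ := nform_add (h1 ⟨j, hj⟩) (j * D) j Z L s c1 c2
      have hjD : j * D + D = (j + 1) * D := by ring
      -- the new functions agree with the old ones before `j`
      have hagr : ∀ (i : Fin t), i.val ≤ j → ∀ x, ∀ k, k < i →
          Z k x = Function.update Z ⟨j, hj⟩
            (fun x => !(ψ ⟨j, hj⟩ (Sum.elim x fun k => Z k x))) k x := by
        intro i hi x k hk
        rw [Function.update_of_ne]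
        intro hkj
        have h5 : k.val < i.val := hk
        rw [hkj] at h5
        simp only at h5
        omega
      refine ⟨_, s', Function.update Z ⟨j, hj⟩ fun x => !(ψ ⟨j, hj⟩ (Sum.elim x fun k => Z k x)),
        SLP.not e1 e3, fun i => ?_, fun i hi x => ?_⟩
      · by_cases hij : i = ⟨j, hj⟩
        · subst hij
          rw [Function.update_self]
          exact ⟨d', by omega, List.mem_cons_self⟩
        · rw [Function.update_of_ne hij]
          obtain ⟨d, hd, hk⟩ := c2 i
          exact ⟨d, by omega, List.mem_cons_of_mem _ (e2 _ hk)⟩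
      · have hψ := h3 i x (fun k => Z k x) (fun k => Function.update Z ⟨j, hj⟩
            (fun x => !(ψ ⟨j, hj⟩ (Sum.elim x fun k => Z k x))) k x)
            (fun k hk => hagr i (by omega) x k hk)
        rw [← hψ]
        by_cases hij : i = ⟨j, hj⟩
        · subst hij
          rw [Function.update_self]
        · rw [Function.update_of_ne hij]
          refine c3 i ?_ x
          have : i.val ≠ j := fun h => hij (Fin.ext h)
          omega
  obtain ⟨L, s, Z, c1, c2, c3⟩ := key t le_rfl
  obtain ⟨L', s', d', e1, e2, e3, e4⟩ := nform_add h2 (t * D) t Z L s c1 c2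
  have hf : (fun x => φ (Sum.elim x fun k => Z k x)) = f := by
    funext x
    exact (h4 x (fun k => Z k x) fun j => c3 j j.2 x).symm
  rw [hf] at e3
  have htD : t * D + D = (t + 1) * D := by ring
  exact ⟨s', L', s', d', t, e1, e3, le_rfl, by omega, le_rfl⟩

end Pool.Agent.TOpt
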