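import Mathlib
import Pool.Agent.TOpt.NNF

/-!
# Thick slices of monotone functions

PACKAGE. Prove `thick_slice` (helper lemmas allowed, keep the statement) from the theorems of
`NNF.lean` (other package).

PROOF. `wt x` is the number of ones. `h 0 x := decide (k ≤ wt x) && φ (Sum.elim x fun i => decide (k ≤
wt (update x i false)))`, `h (j + 1) x := φ (Sum.elim x fun i => h j (update x i false))`.
CLAIM: for all `j`: (a) `f x = true`, `k ≤ wt x` → `h j x = true`; (b) `f x = false`, `wt x ≤ k + j` →
`h j x = false`. Note that `φ` is monotone (`MD` functions are monotone) and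
`f x = φ (Sum.elim x fun i => !(x i))`.
`j = 0`: (a): for `x i = false` we have `update x i false = x`, so the `i`-th new input is
`decide (k ≤ wt x) = true`. So the new inputs are at least `!(x i)`, and `φ (..) ≥ f x = true`. (b): if
`wt x < k` clear. If `wt x = k`: for `x i = true`, `wt (update x i false) = k - 1 < k`, so the new
input is `false`; so the new inputs are at most `!(x i)` and `φ (..) ≤ f x = false`.
`j + 1`: (a) for `x i = false` the new input is `h j x = true` by (a) for `j`. (b) for `x i = true` and
`x' = update x i false`: `wt x' ≤ k + j` and `f x' ≤ f x = false` (`f` is monotone), so `h j x' = false`.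
Depth: `h 0` has depth `D + (r + 1) ^ 2 + 1` (`MD.thr`, and `MD.comp` for the substitution
`update x i false`, or with the threshold function of the set `A.erase i`), `h j` has depth
`(j + 1) * D + (r + 1) ^ 2 + 1` (`MD.comp` with the functions `x i` and
`fun x => h j (update x i false)`; the latter has a formula of the same depth as `h j`: substitution
of a constant, `MD.comp` with depth `0`). Take `j = m - 1`: on `k ≤ wt x < k + m` the function is `f`.
-/

set_option autoImplicit false

namespace Pool.Agent.TOpt

open Pool.Agent.FewNeg

/-- The number of ones. -/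
def wt {ι : Type} [Fintype ι] (x : ι → Bool) : ℕ := (Finset.univ.filter fun i => x i = true).card

private theorem Thick_le_iff {a b : Bool} : a ≤ b ↔ (a = true → b = true) := by
  cases a <;> cases b <;> decide

private theorem Thick_md_monotone {ι : Type} {d : ℕ} {f : BF ι} (h : MD d f) : Monotone f := by
  induction h with
  | var i => exact fun x y hxy => hxy i
  | const b => exact fun x y _ => le_refl _
  | and _ _ h1 h2 =>
    intro x y hxy
    have a1 := Thick_le_iff.1 (h1 hxy)
    have a2 := Thick_le_iff.1 (h2 hxy)
    refine Thick_le_iff.2 fun h => ?_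
    simp only [Bool.and_eq_true] at h ⊢
    exact ⟨a1 h.1, a2 h.2⟩
  | or _ _ h1 h2 =>
    intro x y hxy
    have a1 := Thick_le_iff.1 (h1 hxy)
    have a2 := Thick_le_iff.1 (h2 hxy)
    refine Thick_le_iff.2 fun h => ?_
    simp only [Bool.or_eq_true] at h ⊢
    exact h.imp a1 a2
  | succ _ ih => exact ih

section
variable {ι : Type} [Fintype ι] [DecidableEq ι]

private def Thick_h (φ : BF (ι ⊕ ι)) (k : ℕ) : ℕ → BF ι
  | 0 => fun x => decide (k ≤ wt x) &&
      φ (Sum.elim x fun i => decide (k ≤ wt (Function.update x i false)))
  | j + 1 => fun x => φ (Sum.elim x fun i => Thick_h φ k j (Function.update x i false))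

private theorem Thick_filter_update (x : ι → Bool) (i : ι) :
    (Finset.univ.filter fun j => Function.update x i false j = true) =
      (Finset.univ.erase i).filter fun j => x j = true := by
  ext j
  by_cases hj : j = i
  · subst hj; simp
  · simp [Function.update_of_ne hj, hj]

private theorem Thick_wt_update (x : ι → Bool) (i : ι) :
    wt (Function.update x i false) = ((Finset.univ.erase i).filter fun j => x j = true).card := by
  unfold wt
  rw [Thick_filter_update]

private theorem Thick_wt_update_lt (x : ι → Bool) (i : ι) (hi : x i = true) :
    wt (Function.update x i false) + 1 = wt x := by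
  rw [Thick_wt_update, Finset.filter_erase]
  unfold wt
  rw [Finset.card_erase_of_mem (by simp [hi])]
  have : 0 < (Finset.univ.filter fun i => x i = true).card :=
    Finset.card_pos.2 ⟨i, by simp [hi]⟩
  omega

private theorem Thick_update_eq (x : ι → Bool) (i : ι) (hi : x i = false) :
    Function.update x i false = x := by
  rw [← hi, Function.update_eq_self]

private theorem Thick_update_le (x : ι → Bool) (i : ι) : Function.update x i false ≤ x := by
  intro j
  by_cases hj : j = i
  · subst hj; simp
  · simp [Function.update_of_ne hj]

private theorem Thick_md {D r : ℕ} {φ : BF (ι ⊕ ι)} (hφ : MD D φ)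
    (hr : Fintype.card ι ≤ 2 ^ r) (k : ℕ) (j : ℕ) :
    MD ((j + 1) * D + (r + 1) ^ 2 + 1) (Thick_h φ k j) := by
  induction j with
  | zero =>
    have h1 : MD ((r + 1) ^ 2) (fun x : ι → Bool => decide (k ≤ wt x)) :=
      MD.thr r k Finset.univ (by simpa using hr)
    have h2 : ∀ i : ι, MD ((r + 1) ^ 2)
        (fun x : ι → Bool => decide (k ≤ wt (Function.update x i false))) := by
      intro i
      have h3 := MD.thr r k (Finset.univ.erase i)
        ((Finset.card_le_card (Finset.erase_subset _ _)).trans (by simpa using hr))
      have h4 : (fun x : ι → Bool => decide (k ≤ wt (Function.update x i false))) =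
          fun x : ι → Bool =>
            decide (k ≤ ((Finset.univ.erase i).filter fun i => x i = true).card) := by
        funext x
        rw [Thick_wt_update]
      rw [h4]
      exact h3
    have h5 := MD.comp hφ (Sum.elim (fun i (x : ι → Bool) => x i)
      (fun i (x : ι → Bool) => decide (k ≤ wt (Function.update x i false))))
      (e := (r + 1) ^ 2) (by
        rintro (i | i)
        · exact (MD.var i).mono (Nat.zero_le _)
        · exact h2 i)
    have h6 : (fun x : ι → Bool => φ fun k' => Sum.elim (fun i (x : ι → Bool) => x i)
      (fun i (x : ι → Bool) => decide (k ≤ wt (Function.update x i false))) k' x) =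
        fun x => φ (Sum.elim x fun i => decide (k ≤ wt (Function.update x i false))) := by
      funext x
      congr 1
      funext k'
      rcases k' with i | i <;> rfl
    rw [h6] at h5
    have h7 := MD.and (h1.mono (Nat.le_add_left _ D)) h5
    have h8 : (0 + 1) * D + (r + 1) ^ 2 + 1 = D + (r + 1) ^ 2 + 1 := by ring
    rw [h8]
    exact h7
  | succ j ih =>
    have h2 : ∀ i : ι, MD ((j + 1) * D + (r + 1) ^ 2 + 1)
        (fun x : ι → Bool => Thick_h φ k j (Function.update x i false)) := by
      intro i
      have h3 := MD.comp ih (fun l => if l = i then (fun _ : ι → Bool => false)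
        else fun x : ι → Bool => x l) (e := 0) (by
          intro l
          by_cases hl : l = i
          · simp only [hl, if_true]
            exact MD.const false
          · simp only [hl, if_false]
            exact MD.var l)
      have h4 : (fun x : ι → Bool => Thick_h φ k j (Function.update x i false)) =
          (fun x => Thick_h φ k j fun l => (if l = i then (fun _ : ι → Bool => false)
            else fun x : ι → Bool => x l) x) := by
        funext x
        congr 1
        funext l
        by_cases hl : l = i
        · subst hl; simp
        · simp [hl, Function.update_of_ne hl]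
      rw [h4]
      exact h3
    have h5 := MD.comp hφ (Sum.elim (fun i (x : ι → Bool) => x i)
      (fun i (x : ι → Bool) => Thick_h φ k j (Function.update x i false)))
      (e := (j + 1) * D + (r + 1) ^ 2 + 1) (by
        rintro (i | i)
        · exact (MD.var i).mono (Nat.zero_le _)
        · exact h2 i)
    have h6 : (fun x : ι → Bool => φ fun k' => Sum.elim (fun i (x : ι → Bool) => x i)
      (fun i (x : ι → Bool) => Thick_h φ k j (Function.update x i false)) k' x) =
        Thick_h φ k (j + 1) := by
      funext x
      show _ = φ (Sum.elim x fun i => Thick_h φ k j (Function.update x i false))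
      congr 1
      funext k'
      rcases k' with i | i <;> rfl
    rw [h6] at h5
    exact h5.mono (by ring_nf; omega)

private theorem Thick_ge {f : BF ι} {φ : BF (ι ⊕ ι)} (hφ : Monotone φ)
    (hfφ : ∀ x, f x = φ (Sum.elim x fun i => !(x i))) (k : ℕ) (j : ℕ) :
    ∀ x, f x = true → k ≤ wt x → Thick_h φ k j x = true := by
  induction j with
  | zero =>
    intro x hx hk
    show (decide (k ≤ wt x) && φ _) = true
    rw [Bool.and_eq_true]
    refine ⟨decide_eq_true hk, ?_⟩
    rw [hfφ x] at hx
    refine Thick_le_iff.1 (hφ ?_) hx
    rintro (i | i)
    · exact le_refl _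
    · show (!(x i)) ≤ decide (k ≤ wt (Function.update x i false))
      refine Thick_le_iff.2 fun h => ?_
      have hi : x i = false := by simpa using h
      rw [Thick_update_eq x i hi]
      exact decide_eq_true hk
  | succ j ih =>
    intro x hx hk
    show φ (Sum.elim x fun i => Thick_h φ k j (Function.update x i false)) = true
    have hx' := hx
    rw [hfφ x] at hx'
    refine Thick_le_iff.1 (hφ ?_) hx'
    rintro (i | i)
    · exact le_refl _
    · show (!(x i)) ≤ Thick_h φ k j (Function.update x i false)
      refine Thick_le_iff.2 fun h => ?_
      have hi : x i = false := by simpa using h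
      rw [Thick_update_eq x i hi]
      exact ih x hx hk

private theorem Thick_le {f : BF ι} (hf : Monotone f) {φ : BF (ι ⊕ ι)} (hφ : Monotone φ)
    (hfφ : ∀ x, f x = φ (Sum.elim x fun i => !(x i))) (k : ℕ) (j : ℕ) :
    ∀ x, Thick_h φ k j x = true → wt x ≤ k + j → f x = true := by
  induction j with
  | zero =>
    intro x hx hk
    have hx1 : (decide (k ≤ wt x) &&
      φ (Sum.elim x fun i => decide (k ≤ wt (Function.update x i false)))) = true := hx
    rw [Bool.and_eq_true] at hx1
    obtain ⟨h1, h2⟩ := hx1
    have h1' := of_decide_eq_true h1
    rw [hfφ x]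
    refine Thick_le_iff.1 (hφ ?_) h2
    rintro (i | i)
    · exact le_refl _
    · show decide (k ≤ wt (Function.update x i false)) ≤ (!(x i))
      refine Thick_le_iff.2 fun h => ?_
      have h3 := of_decide_eq_true h
      by_contra h4
      have hi : x i = true := by simpa using h4
      have := Thick_wt_update_lt x i hi
      omega
  | succ j ih =>
    intro x hx hk
    have hx1 : φ (Sum.elim x fun i => Thick_h φ k j (Function.update x i false)) = true := hx
    by_contra hfx
    apply hfx
    rw [hfφ x]
    refine Thick_le_iff.1 (hφ ?_) hx1
    rintro (i | i)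
    · exact le_refl _
    · show Thick_h φ k j (Function.update x i false) ≤ (!(x i))
      refine Thick_le_iff.2 fun h => ?_
      by_contra h4
      have hi : x i = true := by simpa using h4
      have h5 := Thick_wt_update_lt x i hi
      have h6 := ih _ h (by omega)
      exact hfx (Thick_le_iff.1 (hf (Thick_update_le x i)) h6)

end

/-- A monotone function with a formula of depth `D` over the literals has a monotone formula of depth
`m D + O(log² n)` on every set of `m` consecutive slices. -/
theorem thick_slice {ι : Type} [Fintype ι] [DecidableEq ι] {f : BF ι} (hf : Monotone f) {D r : ℕ}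
    {φ : BF (ι ⊕ ι)} (hφ : MD D φ) (hfφ : ∀ x, f x = φ (Sum.elim x fun i => !(x i)))
    (hr : Fintype.card ι ≤ 2 ^ r) (k m : ℕ) (hm : 1 ≤ m) :
    ∃ g : BF ι, MD (m * D + (r + 1) ^ 2 + 1) g ∧ ∀ x, k ≤ wt x → wt x < k + m → g x = f x := by
  obtain ⟨j, rfl⟩ : ∃ j, m = j + 1 := ⟨m - 1, by omega⟩
  refine ⟨Thick_h φ k j, Thick_md hφ hr k j, fun x h1 h2 => ?_⟩
  have hm' := Thick_md_monotone hφ
  rw [Bool.eq_iff_iff]
  exact ⟨fun h => Thick_le hf hm' hfφ k j x h (by omega), fun h => Thick_ge hm' hfφ k j x h h1⟩

end Pool.Agent.TOpt
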