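import Mathlib
import Pool.Agent.TOpt.Thick
import Pool.Agent.TOpt.NForm

/-!
# Monotone functions need few NOT gates

PACKAGE. Prove `few_not` from `thick_slice` and the theorems about `NForm` (other packages).

PROOF. Let `D₀ = m D + (r + 1) ^ 2 + 1`. CLAIM: for all `t` and `a` there is `g` with
`NForm t (D₀ + 2 t) g` and `g x = f x` for all `x` with `a ≤ wt x < a + 2 ^ t * m`. Induction on `t`:
`t = 0` is `thick_slice`. Step: let `g₁` be the function for `t` and `a + 2 ^ t * m`, `g₂` the function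
for `t` and `a`, `u x = decide (a + 2 ^ t * m ≤ wt x)`, `F x = if u x then g₁ x else g₂ x`:
`NForm.ite` (depth `D₀ + 2 t`, `u` has depth `(r + 1) ^ 2`, `MD.thr` with `A = univ` and `MD.mono`). For
`a = 0`: all `x` satisfy `wt x ≤ card ι < 2 ^ t * m`, so `g = f`. By `NForm.computes`:
`Computes s ((t + 1) (D₀ + 2 t)) t f`.
-/

set_option autoImplicit false

namespace Pool.Agent.TOpt

open Pool.Agent.FewNeg

private theorem FewNot_claim {ι : Type} [Fintype ι] [DecidableEq ι] {f : BF ι} (hf : Monotone f)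
    {D r : ℕ} {φ : BF (ι ⊕ ι)} (hφ : MD D φ)
    (hfφ : ∀ x, f x = φ (Sum.elim x fun i => !(x i)))
    (hr : Fintype.card ι ≤ 2 ^ r) (m : ℕ) (hm : 1 ≤ m) (t : ℕ) : ∀ a : ℕ, ∃ g : BF ι,
      NForm t (m * D + (r + 1) ^ 2 + 1 + 2 * t) g ∧
        ∀ x, a ≤ wt x → wt x < a + 2 ^ t * m → g x = f x := by
  induction t with
  | zero =>
    intro a
    obtain ⟨g, h1, h2⟩ := thick_slice hf hφ hfφ hr a m hm
    exact ⟨g, NForm.of_md h1, fun x h3 h4 => h2 x h3 (by simpa using h4)⟩
  | succ t ih =>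
    intro a
    obtain ⟨g₁, h1, h2⟩ := ih (a + 2 ^ t * m)
    obtain ⟨g₂, h3, h4⟩ := ih a
    have hu : MD (m * D + (r + 1) ^ 2 + 1 + 2 * t)
        (fun x : ι → Bool => decide (a + 2 ^ t * m ≤
          ((Finset.univ : Finset ι).filter fun i => x i = true).card)) :=
      (MD.thr r (a + 2 ^ t * m) (Finset.univ : Finset ι)
        (by rw [Finset.card_univ]; exact hr)).mono (by omega)
    refine ⟨fun x => if decide (a + 2 ^ t * m ≤
      ((Finset.univ : Finset ι).filter fun i => x i = true).card) = true then g₁ x else g₂ x,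
      NForm.ite hu h1 h3 fun x => rfl, fun x h5 h6 => ?_⟩
    have h7 : a + 2 ^ (t + 1) * m = a + 2 ^ t * m + 2 ^ t * m := by ring
    rw [h7] at h6
    show (if decide (a + 2 ^ t * m ≤ wt x) = true then g₁ x else g₂ x) = f x
    by_cases h8 : a + 2 ^ t * m ≤ wt x
    · rw [if_pos (by simpa using h8)]
      exact h2 x h8 h6
    · rw [if_neg (by simpa using h8)]
      exact h4 x h5 (by omega)

theorem few_not {ι : Type} [Fintype ι] [DecidableEq ι] {f : BF ι} (hf : Monotone f) {D r : ℕ}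
    {φ : BF (ι ⊕ ι)} (hφ : MD D φ) (hfφ : ∀ x, f x = φ (Sum.elim x fun i => !(x i)))
    (hr : Fintype.card ι ≤ 2 ^ r) (m t : ℕ) (hm : Fintype.card ι < 2 ^ t * m) :
    ∃ s, Computes s ((t + 1) * (m * D + (r + 1) ^ 2 + 1 + 2 * t)) t f := by
  have hm1 : 1 ≤ m := by
    rcases Nat.eq_zero_or_pos m with h | h
    · subst h
      simp at hm
    · exact h
  obtain ⟨g, h1, h2⟩ := FewNot_claim hf hφ hfφ hr m hm1 t 0
  have hg : g = f := by
    funext x
    refine h2 x (Nat.zero_le _) ?_
    have h3 : wt x ≤ Fintype.card ι := by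
      rw [← Finset.card_univ]
      exact Finset.card_le_card (Finset.filter_subset _ _)
    omega
  rw [hg] at h1
  exact h1.computes

end Pool.Agent.TOpt
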