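import Mathlib
import Pool.Agent.TOpt.NNF
import Pool.Agent.BookPL.Defs
import Pool.Agent.FewNeg.MS

/-!
# POLYLOGSPACE has formulas of polylogarithmic depth

PROOF (Borodin 1977). Let `M` be the machine, `c` the exponent. Fix `n` and `S = (log n + 2) ^ c`
(`S ≥ 1`). Let `Cf` be the finite type `M.Q × Fin (n + 2) × (Fin M.k → Fin S) × (Fin M.k → Fin S →
M.W)` of configurations with the first `S` cells of the work tapes. For an input `x : Fin n → Bool`
(the word `List.ofFn x`) let `st x : Cf → Cf` be the step function of `M`, where configurations whose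
state `q` has `M.out q ≠ none` are not changed, and head positions are cut to `min _ (S - 1)`.
(1) For the input `x`, as long as the computation does not stop and uses only the first `S` cells, the
configurations of `M` are given by the iterates of `st x` on the initial configuration `c₀` (state,
input position, head positions, and the contents of the first `S` cells agree; the other cells are
never scanned and blank). If the machine stops after `t` steps with answer `b` (within the space
bound) then `(st x)^[t] c₀` has a state `q` with `M.out q = some b`, and so have all later iterates;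
and `t < card Cf`: otherwise two of the first `t + 1` iterates are equal (pigeonhole), and the
computation would never stop. Hence for every `N ≥ card Cf` the state `q` of `(st x)^[N] c₀` has
`M.out q = some b`.
(2) `st x c` depends on one letter of the input only (or none, at the endmarkers). So for `c, c'` the
function `x ↦ decide (st x c = c')` is a constant, or `x i`, or `!(x i)`, in any case it is
`fun x => φ (Sum.elim x fun i => !(x i))` with `MD 0 φ`.
(3) By induction on `j`: the function `x ↦ decide ((st x)^[2 ^ j] c = c')` is given by a monotone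
formula over the literals of depth `j * (R + 1)`, where `card Cf ≤ 2 ^ R`: it is the OR over `c''` of
(`(st x)^[2 ^ j] c = c''` and `(st x)^[2 ^ j] c'' = c'`) (`MD.or_finset`).
(4) With `j = R`: `List.ofFn x ∈ L` iff for some `c'` with `M.out c'.1 = some true`
`(st x)^[2 ^ R] c₀ = c'`: depth `R (R + 1) + R`.
(5) `card Cf = card Q * (n + 2) * S ^ k * (card W) ^ (k S)`, so one can take
`R ≤ A * (log n + 2) ^ (c + 1)` for a constant `A` (with `2 ^ R ≥ card Cf`), and
`R (R + 2) ≤ (log n + 2) ^ a` for a suitable `a` (as `log n + 2 ≥ 2`, constants are absorbed).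
-/

set_option autoImplicit false

namespace Pool.Agent.TOpt

open Pool.Agent.FewNeg Pool.Agent.BookPL

/-- Functions of `n` variables with a monotone formula of depth `d` over the literals. -/
private def Lit (n d : ℕ) (f : BF (Fin n)) : Prop :=
  ∃ φ : BF (Fin n ⊕ Fin n), MD d φ ∧ ∀ x : Fin n → Bool, f x = φ (Sum.elim x fun i => !(x i))

private theorem Lit.and {n d : ℕ} {f g : BF (Fin n)} (hf : Lit n d f) (hg : Lit n d g) :
    Lit n (d + 1) (fun x => f x && g x) := by
  obtain ⟨φ, h1, h2⟩ := hf
  obtain ⟨ψ, h3, h4⟩ := hg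
  refine ⟨_, MD.and h1 h3, fun x => ?_⟩
  show (f x && g x) = _
  rw [h2, h4]

private theorem Lit.or_finset {n : ℕ} {Y : Type} {h : Y → BF (Fin n)} {d : ℕ} (r : ℕ)
    (T : Finset Y) (hT : T.card ≤ 2 ^ r) (hh : ∀ a ∈ T, Lit n d (h a)) {F : BF (Fin n)}
    (hF : ∀ u, F u = true ↔ ∃ a ∈ T, h a u = true) : Lit n (d + r) F := by
  classical
  choose! φ h1 h2 using hh
  refine ⟨fun u => decide (∃ a ∈ T, φ a u = true), MD.or_finset r T hT h1 (by simp), fun x => ?_⟩
  rw [Bool.eq_iff_iff, hF, decide_eq_true_iff]
  constructor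
  · rintro ⟨a, ha, h⟩
    exact ⟨a, ha, by rw [← h2 a ha]; exact h⟩
  · rintro ⟨a, ha, h⟩
    exact ⟨a, ha, by rw [h2 a ha]; exact h⟩

private theorem Lit.const (n : ℕ) (b : Bool) : Lit n 0 (fun _ => b) :=
  ⟨_, MD.const b, fun _ => rfl⟩

private theorem Lit.pos (n : ℕ) (i : Fin n) : Lit n 0 (fun x => x i) :=
  ⟨_, MD.var (Sum.inl i), fun _ => rfl⟩

private theorem Lit.neg (n : ℕ) (i : Fin n) : Lit n 0 (fun x => !(x i)) :=
  ⟨_, MD.var (Sum.inr i), fun _ => rfl⟩

/-- A function of one letter. -/
private theorem Lit.one (n : ℕ) (i : Fin n) (g : Bool → Bool) : Lit n 0 (fun x => g (x i)) := by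
  cases h1 : g true <;> cases h0 : g false
  · have : (fun x : Fin n → Bool => g (x i)) = fun _ => false := by
      funext x; cases hx : x i <;> simp [h0, h1]
    rw [this]; exact Lit.const n false
  · have : (fun x : Fin n → Bool => g (x i)) = fun x => !(x i) := by
      funext x; cases hx : x i <;> simp [h0, h1]
    rw [this]; exact Lit.neg n i
  · have : (fun x : Fin n → Bool => g (x i)) = fun x => x i := by
      funext x; cases hx : x i <;> simp [h0, h1]
    rw [this]; exact Lit.pos n i
  · have : (fun x : Fin n → Bool => g (x i)) = fun _ => true := by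
      funext x; cases hx : x i <;> simp [h0, h1]
    rw [this]; exact Lit.const n true

private theorem Lit.mark (n p : ℕ) (g : Mark Bool → Bool) :
    Lit n 0 (fun x => g (inputAt (List.ofFn x) p)) := by
  cases p with
  | zero => exact Lit.const n (g Mark.left)
  | succ p =>
    by_cases hp : p < n
    · have : (fun x : Fin n → Bool => g (inputAt (List.ofFn x) (p + 1))) =
          fun x => (fun b => g (Mark.sym b)) (x ⟨p, hp⟩) := by
        funext x
        have h1 : (List.ofFn x)[p]? = some (x ⟨p, hp⟩) := by
          rw [List.getElem?_eq_getElem (by simpa using hp)]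
          simp
        simp [inputAt, h1]
      rw [this]; exact Lit.one n ⟨p, hp⟩ (fun b => g (Mark.sym b))
    · have : (fun x : Fin n → Bool => g (inputAt (List.ofFn x) (p + 1))) =
          fun _ => g Mark.right := by
        funext x
        have h1 : (List.ofFn x)[p]? = none := by
          rw [List.getElem?_eq_none_iff]
          simpa using hp
        simp [inputAt, h1]
      rw [this]; exact Lit.const n _

section conf

variable (M : OTM Bool) (n S : ℕ)

/-- The configurations with the first `S` cells. -/
private abbrev Cf : Type :=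
  M.Q × Fin (n + 2) × (Fin M.k → Fin S) × (Fin M.k → Fin S → M.W)

variable {M n S}

private def emb (c : Cf M n S) : OCfg M.Q M.W M.k where
  q := c.1
  pos := c.2.1
  head := fun i => c.2.2.1 i
  tape := fun i p => if h : p < S then c.2.2.2 i ⟨p, h⟩ else M.blank

private def proj (hS : 0 < S) (c : OCfg M.Q M.W M.k) : Cf M n S :=
  (c.q, ⟨min c.pos (n + 1), by omega⟩, fun i => ⟨min (c.head i) (S - 1), by omega⟩,
    fun i p => c.tape i p)

private def Good (n S : ℕ) (c : OCfg M.Q M.W M.k) : Prop :=
  c.pos ≤ n + 1 ∧ (∀ i, c.head i < S) ∧ ∀ i p, S ≤ p → c.tape i p = M.blank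

private theorem emb_proj (hS : 0 < S) {c : OCfg M.Q M.W M.k} (hc : Good n S c) :
    emb (proj (n := n) hS c) = c := by
  obtain ⟨q, pos, head, tape⟩ := c
  obtain ⟨h1, h2, h3⟩ := hc
  simp only at h1 h2 h3
  unfold emb proj
  simp only [OCfg.mk.injEq, true_and]
  refine ⟨by omega, ?_, ?_⟩
  · funext i
    have := h2 i
    omega
  · funext i p
    by_cases hp : p < S
    · simp [hp]
    · rw [dif_neg hp, h3 i p (by omega)]

open Classical in
/-- The step function. -/
private noncomputable def st (hS : 0 < S) (x : Fin n → Bool) (c : Cf M n S) : Cf M n S :=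
  if M.out c.1 = none then proj hS (M.step (List.ofFn x) (emb c)) else c

private theorem conf_succ (x : List Bool) (s : ℕ) : M.conf x (s + 1) = M.step x (M.conf x s) := by
  unfold OTM.conf
  rw [Function.iterate_succ_apply']

private theorem conf_add (x : List Bool) (s u : ℕ) :
    M.conf x (s + u) = (M.step x)^[u] (M.conf x s) := by
  unfold OTM.conf
  rw [Nat.add_comm, Function.iterate_add_apply]

private theorem good_conf (hS : 0 < S) {x : Fin n → Bool} {t : ℕ}
    (hsp : M.Space (List.ofFn x) t S) : ∀ s, s ≤ t → Good n S (M.conf (List.ofFn x) s) := by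
  intro s
  induction s with
  | zero =>
    intro _
    refine ⟨?_, fun i => hS, fun i p _ => rfl⟩
    show 0 ≤ n + 1
    omega
  | succ s ih =>
    intro hs
    obtain ⟨h1, h2, h3⟩ := ih (by omega)
    refine ⟨?_, fun i => hsp (s + 1) hs i, fun i p hp => ?_⟩
    · rw [conf_succ]
      show min _ ((List.ofFn x).length + 1) ≤ n + 1
      rw [List.length_ofFn]
      exact min_le_right _ _
    · rw [conf_succ]
      show Function.update ((M.conf (List.ofFn x) s).tape i) ((M.conf (List.ofFn x) s).head i) _ p =
        M.blank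
      rw [Function.update_of_ne (by have := h2 i; omega), h3 i p hp]

private theorem iter_eq (hS : 0 < S) {x : Fin n → Bool} {t : ℕ} {b : Bool}
    (hg : M.Gives (List.ofFn x) t b) (hsp : M.Space (List.ofFn x) t S) :
    ∀ s, s ≤ t → (st hS x)^[s] (proj hS M.init) = proj (n := n) hS (M.conf (List.ofFn x) s) := by
  intro s
  induction s with
  | zero => intro _; rfl
  | succ s ih =>
    intro hs
    rw [Function.iterate_succ_apply', ih (by omega), conf_succ]
    have h1 : M.out (proj (n := n) hS (M.conf (List.ofFn x) s)).1 = none := hg.2 s (by omega)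
    unfold st
    rw [if_pos h1, emb_proj hS (good_conf hS hsp s (by omega))]

private theorem iter_const (hS : 0 < S) {x : Fin n → Bool} {c : Cf M n S} (hc : M.out c.1 ≠ none)
    (s : ℕ) : (st hS x)^[s] c = c := by
  refine Function.iterate_fixed ?_ s
  unfold st
  rw [if_neg hc]

private theorem time_lt [Fintype (Cf M n S)] (hS : 0 < S) {x : Fin n → Bool} {t : ℕ} {b : Bool}
    (hg : M.Gives (List.ofFn x) t b) (hsp : M.Space (List.ofFn x) t S) :
    t < Fintype.card (Cf M n S) := by
  classical
  by_contra hcon
  push Not at hcon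
  obtain ⟨s₁, h1, s₂, h2, hne, heq⟩ := Finset.exists_ne_map_eq_of_card_lt_of_maps_to
    (s := Finset.range (t + 1)) (t := (Finset.univ : Finset (Cf M n S)))
    (f := fun s => proj hS (M.conf (List.ofFn x) s))
    (by rw [Finset.card_univ, Finset.card_range]; omega) (fun _ _ => Finset.mem_univ _)
  rw [Finset.mem_range] at h1 h2
  have key : ∀ s₁ s₂ : ℕ, s₁ < s₂ → s₂ ≤ t → proj (n := n) hS (M.conf (List.ofFn x) s₁) =
      proj hS (M.conf (List.ofFn x) s₂) → False := by
    intro s₁ s₂ hlt hle heq
    have h3 : M.conf (List.ofFn x) s₁ = M.conf (List.ofFn x) s₂ := by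
      rw [← emb_proj hS (good_conf hS hsp s₁ (by omega)), heq,
        emb_proj hS (good_conf hS hsp s₂ hle)]
    have h4 : M.conf (List.ofFn x) (s₁ + (t - s₂)) = M.conf (List.ofFn x) t := by
      have h5 : t = s₂ + (t - s₂) := by omega
      conv_rhs => rw [h5]
      rw [conf_add, conf_add, h3]
    have h6 := hg.2 (s₁ + (t - s₂)) (by omega)
    rw [h4, hg.1] at h6
    exact Option.some_ne_none _ h6
  rcases Nat.lt_or_gt_of_ne hne with h | h
  · exact key s₁ s₂ h (by omega) heq
  · exact key s₂ s₁ h (by omega) heq.symm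

/-- One step with the scanned symbol `m` on the input tape. -/
private def stepM (n : ℕ) (m : Mark Bool) (c : OCfg M.Q M.W M.k) : OCfg M.Q M.W M.k :=
  let r := M.δ c.q m (fun i => c.tape i (c.head i))
  { q := r.1
    pos := min (Dir.apply r.2.1 c.pos) (n + 1)
    head := fun i => Dir.apply (r.2.2 i).2 (c.head i)
    tape := fun i => Function.update (c.tape i) (c.head i) (r.2.2 i).1 }

private theorem step_eq (x : Fin n → Bool) (c : OCfg M.Q M.W M.k) :
    M.step (List.ofFn x) c = stepM n (inputAt (List.ofFn x) c.pos) c := by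
  unfold OTM.step stepM
  rw [List.length_ofFn]

open Classical in
private theorem lit_st (hS : 0 < S) (c c' : Cf M n S) :
    Lit n 0 (fun x => decide (st hS x c = c')) := by
  by_cases hc : M.out c.1 = none
  · have h2 : (fun x : Fin n → Bool => decide (st hS x c = c')) = fun x =>
        (fun m => decide (proj hS (stepM n m (emb c)) = c')) (inputAt (List.ofFn x) (emb c).pos) := by
      funext x
      unfold st
      rw [if_pos hc, step_eq]
    rw [h2]
    exact Lit.mark n _ (fun m => decide (proj hS (stepM n m (emb c)) = c'))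
  · have h2 : (fun x : Fin n → Bool => decide (st hS x c = c')) = fun _ => decide (c = c') := by
      funext x
      unfold st
      rw [if_neg hc]
    rw [h2]
    exact Lit.const n _

open Classical in
private theorem lit_pow [Fintype (Cf M n S)] (hS : 0 < S) {R : ℕ}
    (hR : Fintype.card (Cf M n S) ≤ 2 ^ R) (j : ℕ) : ∀ c c' : Cf M n S,
    Lit n (j * (R + 1)) (fun x => decide ((st hS x)^[2 ^ j] c = c')) := by
  induction j with
  | zero =>
    intro c c'
    have := lit_st hS c c'
    simpa using this
  | succ j ih =>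
    intro c c'
    have h1 : Lit n (j * (R + 1) + 1 + R) (fun x => decide ((st hS x)^[2 ^ (j + 1)] c = c')) := by
      refine Lit.or_finset R (Finset.univ : Finset (Cf M n S)) (by rw [Finset.card_univ]; exact hR)
        (fun a _ => (ih c a).and (ih a c')) ?_
      intro x
      have h2 : (st hS x)^[2 ^ (j + 1)] c = (st hS x)^[2 ^ j] ((st hS x)^[2 ^ j] c) := by
        rw [← Function.iterate_add_apply]
        congr 1
        rw [pow_succ]
        ring_nf
      simp [h2]
    have h3 : (j + 1) * (R + 1) = j * (R + 1) + 1 + R := by ring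
    rw [h3]
    exact h1

end conf

private theorem two_pow_ge (m : ℕ) : m ≤ 2 ^ m := Nat.lt_two_pow_self.le

theorem inPL_depth {L : Set (List Bool)} (h : InPL Bool L) : ∃ a : ℕ, ∀ n : ℕ,
    ∃ φ : BF (Fin n ⊕ Fin n), MD ((Nat.log 2 n + 2) ^ a) φ ∧
      ∀ x : Fin n → Bool, slice L n x = φ (Sum.elim x fun i => !(x i)) := by
  classical
  obtain ⟨M, c, hM⟩ := h
  let := M.finQ
  let := M.finW
  set A : ℕ := Fintype.card M.Q + 1 + M.k + Fintype.card M.W * M.k with hA
  refine ⟨A * (A + 2) + (2 * c + 2), fun n => ?_⟩
  set l : ℕ := Nat.log 2 n + 2 with hl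
  have hl2 : 2 ≤ l := by omega
  set S : ℕ := l ^ c with hSd
  have hS : 0 < S := by positivity
  set R : ℕ := Fintype.card M.Q + l + S * M.k + Fintype.card M.W * M.k * S with hR
  have hcard : Fintype.card (Cf M n S) ≤ 2 ^ R := by
    have h1 : Fintype.card (Cf M n S) = Fintype.card M.Q * ((n + 2) * (S ^ M.k *
        (Fintype.card M.W ^ S) ^ M.k)) := by
      simp [Fintype.card_prod]
    rw [h1]
    have hn : n + 2 ≤ 2 ^ l := by
      have h2 : n < 2 ^ (Nat.log 2 n + 1) := Nat.lt_pow_succ_log_self (by norm_num) n
      have h3 : 2 ^ l = 2 * 2 ^ (Nat.log 2 n + 1) := by rw [hl]; ring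
      have h4 : 1 ≤ 2 ^ (Nat.log 2 n) := Nat.one_le_two_pow
      have h5 : 2 ^ (Nat.log 2 n + 1) = 2 * 2 ^ (Nat.log 2 n) := by ring
      omega
    calc Fintype.card M.Q * ((n + 2) * (S ^ M.k * (Fintype.card M.W ^ S) ^ M.k))
        ≤ 2 ^ Fintype.card M.Q * (2 ^ l * ((2 ^ S) ^ M.k *
          ((2 ^ Fintype.card M.W) ^ S) ^ M.k)) :=
          Nat.mul_le_mul (two_pow_ge _) (Nat.mul_le_mul hn (Nat.mul_le_mul
            (Nat.pow_le_pow_left (two_pow_ge _) _)
            (Nat.pow_le_pow_left (Nat.pow_le_pow_left (two_pow_ge _) _) _)))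
      _ = 2 ^ R := by
          rw [hR, ← pow_mul, ← pow_mul, ← pow_mul, ← pow_add, ← pow_add, ← pow_add]
          congr 1
          ring
  have hRle : R ≤ A * l ^ (c + 1) := by
    have h1 : 1 ≤ l ^ (c + 1) := Nat.one_le_pow _ _ (by omega)
    have h2 : l ≤ l ^ (c + 1) := Nat.le_self_pow (by omega) _
    have h3 : S ≤ l ^ (c + 1) := Nat.pow_le_pow_right (by omega) (by omega)
    rw [hR, hA]
    have e1 : Fintype.card M.Q ≤ Fintype.card M.Q * l ^ (c + 1) := Nat.le_mul_of_pos_right _ h1
    have e2 : S * M.k ≤ M.k * l ^ (c + 1) := by rw [Nat.mul_comm]; exact Nat.mul_le_mul_left _ h3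
    have e3 : Fintype.card M.W * M.k * S ≤ Fintype.card M.W * M.k * l ^ (c + 1) :=
      Nat.mul_le_mul_left _ h3
    calc Fintype.card M.Q + l + S * M.k + Fintype.card M.W * M.k * S
        ≤ Fintype.card M.Q * l ^ (c + 1) + l ^ (c + 1) + M.k * l ^ (c + 1) +
          Fintype.card M.W * M.k * l ^ (c + 1) := by omega
      _ = _ := by ring
  have hfin : R * (R + 1) + R ≤ l ^ (A * (A + 2) + (2 * c + 2)) := by
    have h1 : 1 ≤ l ^ (c + 1) := Nat.one_le_pow _ _ (by omega)
    have h2 : R + 2 ≤ (A + 2) * l ^ (c + 1) := by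
      have : (A + 2) * l ^ (c + 1) = A * l ^ (c + 1) + 2 * l ^ (c + 1) := by ring
      omega
    calc R * (R + 1) + R = R * (R + 2) := by ring
      _ ≤ (A * l ^ (c + 1)) * ((A + 2) * l ^ (c + 1)) := Nat.mul_le_mul hRle h2
      _ = A * (A + 2) * l ^ (2 * c + 2) := by ring
      _ ≤ l ^ (A * (A + 2)) * l ^ (2 * c + 2) :=
          Nat.mul_le_mul_right _ ((two_pow_ge _).trans (Nat.pow_le_pow_left hl2 _))
      _ = _ := by rw [← pow_add]
  have hlit : Lit n (R * (R + 1) + R) (slice L n) := by
    refine Lit.or_finset R (Finset.univ.filter fun c' : Cf M n S => M.out c'.1 = some true)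
      ((Finset.card_filter_le _ _).trans (by rw [Finset.card_univ]; exact hcard))
      (fun a _ => lit_pow hS hcard R (proj hS M.init) a) ?_
    intro x
    obtain ⟨t, b, hg, hsp, hiff⟩ := hM (List.ofFn x)
    rw [List.length_ofFn] at hsp
    have ht : t < Fintype.card (Cf M n S) := time_lt hS hg hsp
    have h1 : (st hS x)^[2 ^ R] (proj hS M.init) =
        proj (n := n) hS (M.conf (List.ofFn x) t) := by
      have h2 : 2 ^ R = (2 ^ R - t) + t := by omega
      rw [h2, Function.iterate_add_apply, iter_eq hS hg hsp t le_rfl]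
      refine iter_const hS ?_ _
      show M.out (M.conf (List.ofFn x) t).q ≠ none
      rw [hg.1]
      exact Option.some_ne_none _
    rw [slice_eq_true, hiff]
    constructor
    · intro hb
      refine ⟨_, ?_, decide_eq_true h1⟩
      rw [Finset.mem_filter]
      refine ⟨Finset.mem_univ _, ?_⟩
      show M.out (M.conf (List.ofFn x) t).q = some true
      rw [hg.1, hb]
    · rintro ⟨a, ha, h2⟩
      rw [Finset.mem_filter] at ha
      rw [decide_eq_true_iff, h1] at h2
      have h3 := ha.2
      rw [← h2] at h3
      have h4 : M.out (M.conf (List.ofFn x) t).q = some true := h3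
      rw [hg.1] at h4
      exact Option.some.inj h4
  obtain ⟨φ, h1, h2⟩ := hlit
  exact ⟨φ, h1.mono hfin, h2⟩

end Pool.Agent.TOpt
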