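import Mathlib
import Pool.Agent.TOpt.Borodin
import Pool.Agent.TOpt.FewNot

/-!
# The upper bound

PACKAGE. Prove `upper_bound` from `few_not` and `inPL_depth` (other packages).

PROOF. Let `a` be as in `inPL_depth`, `Λ = log n + 2`. Given `n < 2 ^ t * m` (so `m ≥ 1`), let
`t' = min t Λ`: then also `n < 2 ^ t' * m` (as `n < 2 ^ Λ ≤ 2 ^ Λ * m`). `few_not` with `ι = Fin n`,
`r = log n + 1`, `D = Λ ^ a` and `t'` gives `Computes s ((t' + 1) (m Λ ^ a + Λ ^ 2 + 1 + 2 t')) t'`,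
and `(Λ + 1) (m Λ ^ a + Λ ^ 2 + 1 + 2 Λ) ≤ m Λ ^ (a + 6)` or similar (`Λ ≥ 2`, `m ≥ 1`), and
`Computes.mono` (in `Pool/Agent/FewNeg/Elim.lean`) gives the claim with `C` large.
-/

set_option autoImplicit false

namespace Pool.Agent.TOpt

open Pool.Agent.FewNeg Pool.Agent.BookPL

theorem upper_bound {L : Set (List Bool)} (h : InPL Bool L) (hL : ∀ n, Monotone (slice L n)) :
    ∃ C : ℕ, ∀ n m t : ℕ, n < 2 ^ t * m →
      ∃ s, Computes s (m * (Nat.log 2 n + 2) ^ C) t (slice L n) := by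
  obtain ⟨a, ha⟩ := inPL_depth h
  refine ⟨a + 7, fun n m t hnt => ?_⟩
  obtain ⟨φ, hφ, hfφ⟩ := ha n
  have hm : 1 ≤ m := by
    rcases Nat.eq_zero_or_pos m with h0 | h0
    · rw [h0, Nat.mul_zero] at hnt
      omega
    · exact h0
  have hlog : n < 2 ^ (Nat.log 2 n + 1) := Nat.lt_pow_succ_log_self (by norm_num) n
  set Λ : ℕ := Nat.log 2 n + 2 with hΛ
  have hΛ2 : 2 ≤ Λ := by omega
  have hnΛ : n < 2 ^ Λ :=
    hlog.trans_le (Nat.pow_le_pow_right (by norm_num) (by omega))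
  have hm' : n < 2 ^ min t Λ * m := by
    rcases le_total t Λ with h1 | h1
    · rwa [min_eq_left h1]
    · rw [min_eq_right h1]
      exact hnΛ.trans_le (Nat.le_mul_of_pos_right _ hm)
  have hcard : Fintype.card (Fin n) ≤ 2 ^ (Nat.log 2 n + 1) := by
    rw [Fintype.card_fin]
    exact hlog.le
  obtain ⟨s, hs⟩ := few_not (hL n) hφ hfφ hcard m (min t Λ) (by rwa [Fintype.card_fin])
  refine ⟨s, hs.mono le_rfl ?_ (min_le_left _ _)⟩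
  have e0 : Nat.log 2 n + 1 + 1 = Λ := rfl
  rw [e0]
  have e1 : min t Λ + 1 ≤ Λ ^ 2 := by
    have h1 : min t Λ ≤ Λ := min_le_right _ _
    nlinarith
  have e2 : m * Λ ^ a + Λ ^ 2 + 1 + 2 * min t Λ ≤ m * Λ ^ (a + 5) := by
    have h1 : min t Λ ≤ Λ := min_le_right _ _
    have h2 : Λ ^ 2 + 1 + 2 * min t Λ ≤ Λ ^ 4 := by
      have h3 : Λ + 1 ≤ Λ ^ 2 := by nlinarith
      have h4 : (Λ + 1) ^ 2 ≤ (Λ ^ 2) ^ 2 := Nat.pow_le_pow_left h3 2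
      have h5 : (Λ ^ 2) ^ 2 = Λ ^ 4 := by ring
      nlinarith
    have h6 : Λ ^ a ≤ Λ ^ (a + 4) := Nat.pow_le_pow_right (by omega) (by omega)
    have h7 : Λ ^ 4 ≤ Λ ^ (a + 4) := Nat.pow_le_pow_right (by omega) (by omega)
    have h8 : Λ ^ (a + 5) = Λ * Λ ^ (a + 4) := by ring
    have h9 : m * Λ ^ a ≤ m * Λ ^ (a + 4) := Nat.mul_le_mul_left m h6
    have h10 : Λ ^ 4 ≤ m * Λ ^ (a + 4) := h7.trans (Nat.le_mul_of_pos_left _ hm)
    have h11 : 2 * (m * Λ ^ (a + 4)) ≤ m * Λ ^ (a + 5) := by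
      rw [h8]
      have h12 : 2 * (m * Λ ^ (a + 4)) ≤ Λ * (m * Λ ^ (a + 4)) := Nat.mul_le_mul_right _ hΛ2
      calc 2 * (m * Λ ^ (a + 4)) ≤ Λ * (m * Λ ^ (a + 4)) := h12
        _ = m * (Λ * Λ ^ (a + 4)) := by ring
    omega
  calc (min t Λ + 1) * (m * Λ ^ a + Λ ^ 2 + 1 + 2 * min t Λ)
      ≤ Λ ^ 2 * (m * Λ ^ (a + 5)) := Nat.mul_le_mul e1 e2
    _ = m * Λ ^ (a + 7) := by ring

end Pool.Agent.TOpt
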