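import Mathlib
import Pool.Agent.TOpt.BlkDefs
import Pool.Agent.FewNeg.PowU
import Pool.Agent.Book19.Defs
import Pool.Agent.B7219d.PTIter
import Pool.Agent.BookPL.Log2

/-!
# The block language is in P

PROOF. Let `m = n / (log n + 1)` be the length of the segments. The mark of the element `c < 2 ^ i`
of the block `j` of the segment `i` is stored at the position `i m + j bl i + c` (note
`2 ^ i ≤ bl i`); initially no marks. In a round the element `c` of a block gets a mark if it has one,
or `c = 0`, or there is a rule `j' < 2 ^ i` of the block which is present, whose pointers `0` and `1`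
point to marked elements, and whose pointer `2` is `c`. After at most `n` rounds with new marks the
marked elements are the derivable ones. Finally the word is accepted if for some `i < log n + 1` and
`j < m / bl i` the block has the value `1`.
-/

set_option autoImplicit false

namespace Pool.Agent.TOpt

open Pool.Agent.FewNeg Pool.Agent.PT

/-- The length of the segments. -/
private def tm (n : ℕ) : ℕ := n / (Nat.log 2 n + 1)

/-- `2 ^ i`, except if it is greater than `n`. -/
private def tk (n i : ℕ) : ℕ := if 2 ^ i ≤ n then 2 ^ i else 0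

/-- The length of the blocks of the segment `i`. -/
private def tb (n i : ℕ) : ℕ := tk n i * (6 * i + 1)

/-- The segment of the position `p`. -/
private def tsg (n p : ℕ) : ℕ := p / tm n

/-- The number of elements of the block of the position `p`. -/
private def tkk (n p : ℕ) : ℕ := tk n (tsg n p)

/-- The length of the block of the position `p`. -/
private def tbb (n p : ℕ) : ℕ := tb n (tsg n p)

/-- The first position of the block of the position `p`. -/
private def tbs (n p : ℕ) : ℕ := tsg n p * tm n + p % tm n / tbb n p * tbb n p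

/-- The position in the block. -/
private def tzz (n p : ℕ) : ℕ := p % tm n % tbb n p

private theorem tk_eq (n i : ℕ) (hn : n ≠ 0) (hi : i < Nat.log 2 n + 1) : tk n i = 2 ^ i := by
  have h : 2 ^ i ≤ n :=
    (Nat.pow_le_pow_right (by norm_num) (Nat.lt_succ_iff.1 hi)).trans (Nat.pow_log_le_self 2 hn)
  rw [tk, if_pos h]

private theorem tb_eq (n i : ℕ) (hn : n ≠ 0) (hi : i < Nat.log 2 n + 1) : tb n i = bl i := by
  rw [tb, tk_eq n i hn hi, bl]

private theorem uf_tm {Γ : Type} : UF (fun (x : List Γ) _ => tm x.length) :=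
  UF.len.div ((BookPL.UF.log2 UF.len).add (UF.const 1))

private theorem uf_tk {Γ : Type} {f : List Γ → (ℕ → ℕ) → ℕ} (hf : UF f) :
    UF (fun (x : List Γ) e => tk x.length (f x e)) :=
  UF.powP (UF.const 2) hf UF.len fun _ _ => Nat.prime_two

private theorem uf_tr {Γ : Type} {f : List Γ → (ℕ → ℕ) → ℕ} (hf : UF f) :
    UF (fun (x : List Γ) e => 6 * f x e + 1) :=
  ((UF.const 6).mul hf).add (UF.const 1)

private theorem uf_tb {Γ : Type} {f : List Γ → (ℕ → ℕ) → ℕ} (hf : UF f) :
    UF (fun (x : List Γ) e => tb x.length (f x e)) :=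
  (uf_tk hf).mul (uf_tr hf)

private theorem uf_tsg {Γ : Type} {f : List Γ → (ℕ → ℕ) → ℕ} (hf : UF f) :
    UF (fun (x : List Γ) e => tsg x.length (f x e)) := hf.div uf_tm

private theorem uf_tkk {Γ : Type} {f : List Γ → (ℕ → ℕ) → ℕ} (hf : UF f) :
    UF (fun (x : List Γ) e => tkk x.length (f x e)) := uf_tk (uf_tsg hf)

private theorem uf_tbb {Γ : Type} {f : List Γ → (ℕ → ℕ) → ℕ} (hf : UF f) :
    UF (fun (x : List Γ) e => tbb x.length (f x e)) := uf_tb (uf_tsg hf)

private theorem uf_tbs {Γ : Type} {f : List Γ → (ℕ → ℕ) → ℕ} (hf : UF f) :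
    UF (fun (x : List Γ) e => tbs x.length (f x e)) :=
  ((uf_tsg hf).mul uf_tm).add (((hf.mod uf_tm).div (uf_tbb hf)).mul (uf_tbb hf))

private theorem uf_tzz {Γ : Type} {f : List Γ → (ℕ → ℕ) → ℕ} (hf : UF f) :
    UF (fun (x : List Γ) e => tzz x.length (f x e)) :=
  (hf.mod uf_tm).mod (uf_tbb hf)

/-- The letter at position `p`. -/
private def bt (w : List (Bool × Bool)) (p : ℕ) : Bool := (w.getD p (false, false)).1

/-- The mark at position `p`. -/
private def mk (w : List (Bool × Bool)) (p : ℕ) : Bool := (w.getD p (false, false)).2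

/-- The pointer `k` of the rule `j` of the block of scale `i` which starts at the position `b`. -/
private def pt (k n : ℕ) (w : List (Bool × Bool)) (b i j : ℕ) : ℕ :=
  ∑ t ∈ Finset.range i, if bt w (b + (j * (6 * i + 1) + 2 * (k * i + t))) = true then tk n t else 0

/-- The position `p` belongs to an element of a block. -/
private def EL (n p : ℕ) : Prop :=
  tsg n p < Nat.log 2 n + 1 ∧ p % tm n / tbb n p < tm n / tbb n p ∧ tzz n p < tkk n p

/-- The rule `j` of the block of scale `i` which starts at the position `b` derives the element `c`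
from marked elements. -/
private def RU (n : ℕ) (w : List (Bool × Bool)) (b i c j : ℕ) : Prop :=
  (bt w (b + (j * (6 * i + 1) + 6 * i)) = true ∧ mk w (b + pt 0 n w b i j) = true) ∧
    (mk w (b + pt 1 n w b i j) = true ∧ pt 2 n w b i j = c)

/-- The position `p` gets a mark. -/
private def NM (n : ℕ) (w : List (Bool × Bool)) (p : ℕ) : Prop :=
  EL n p ∧ (mk w p = true ∨ tzz n p = 0 ∨
    ∃ j, j < tkk n p ∧ RU n w (tbs n p) (tsg n p) (tzz n p) j)

private theorem up_bt {f : List (Bool × Bool) → (ℕ → ℕ) → ℕ} (hf : UF f) :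
    UP (fun w e => bt w (f w e) = true) := by
  refine ((UP.sym (true, true) hf).or (UP.sym (true, false) hf)).congr fun w e => ?_
  rw [bt, List.getD_eq_getElem?_getD]
  cases w[f w e]? with
  | none => simp
  | some b =>
    obtain ⟨b1, b2⟩ := b
    cases b1 <;> cases b2 <;> simp

private theorem up_mk {f : List (Bool × Bool) → (ℕ → ℕ) → ℕ} (hf : UF f) :
    UP (fun w e => mk w (f w e) = true) := by
  refine ((UP.sym (true, true) hf).or (UP.sym (false, true) hf)).congr fun w e => ?_
  rw [mk, List.getD_eq_getElem?_getD]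
  cases w[f w e]? with
  | none => simp
  | some b =>
    obtain ⟨b1, b2⟩ := b
    cases b1 <;> cases b2 <;> simp

private theorem uf_pt (k : ℕ) : UF (fun (w : List (Bool × Bool)) e =>
    pt k w.length w (e 0) (e 1) (e 2)) := by
  refine UF.sum (b := fun _ e => e 1) (f := fun w e t =>
    if bt w (e 0 + (e 2 * (6 * e 1 + 1) + 2 * (k * e 1 + t))) = true then tk w.length t else 0)
    (UF.var 1) ?_
  exact UF.ite (P := fun w e =>
    bt w (e 1 + (e 3 * (6 * e 2 + 1) + 2 * (k * e 2 + e 0))) = true)
    (up_bt ((UF.var 1).add (((UF.var 3).mul (uf_tr (UF.var 2))).add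
      ((UF.const 2).mul (((UF.const k).mul (UF.var 2)).add (UF.var 0))))))
    (uf_tk (UF.var 0)) (UF.const 0)

private theorem up_EL {Γ : Type} : UP (fun (w : List Γ) e => EL w.length (e 0)) :=
  (UP.lt (uf_tsg (UF.var 0)) ((BookPL.UF.log2 UF.len).add (UF.const 1))).and
    ((UP.lt (((UF.var 0).mod uf_tm).div (uf_tbb (UF.var 0)))
      (uf_tm.div (uf_tbb (UF.var 0)))).and (UP.lt (uf_tzz (UF.var 0)) (uf_tkk (UF.var 0))))

private theorem up_RU {b i c j : List (Bool × Bool) → (ℕ → ℕ) → ℕ} (hb : UF b) (hi : UF i)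
    (hc : UF c) (hj : UF j) :
    UP (fun w e => RU w.length w (b w e) (i w e) (c w e) (j w e)) :=
  ((up_bt (hb.add ((hj.mul (uf_tr hi)).add ((UF.const 6).mul hi)))).and
    (up_mk (hb.add (UF.comp₃ (f := fun w u v z => pt 0 w.length w u v z) (uf_pt 0) hb hi hj)))).and
    ((up_mk (hb.add (UF.comp₃ (f := fun w u v z => pt 1 w.length w u v z) (uf_pt 1) hb hi
      hj))).and
    (UP.eq (UF.comp₃ (f := fun w u v z => pt 2 w.length w u v z) (uf_pt 2) hb hi hj) hc))

private theorem up_NM {f : List (Bool × Bool) → (ℕ → ℕ) → ℕ} (hf : UF f) :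
    UP (fun w e => NM w.length w (f w e)) := by
  refine UP.comp₁ (P := fun w p => NM w.length w p) ?_ hf
  refine up_EL.and ((up_mk (UF.var 0)).or ((UP.eq (uf_tzz (UF.var 0)) (UF.const 0)).or ?_))
  refine UP.bex (P := fun w e j =>
    RU w.length w (tbs w.length (e 0)) (tsg w.length (e 0)) (tzz w.length (e 0)) j)
    (uf_tkk (UF.var 0)) ?_
  exact up_RU (uf_tbs (UF.var 1)) (uf_tsg (UF.var 1)) (uf_tzz (UF.var 1)) (UF.var 0)

/-- The initial letters. -/
private def G0 (x : List Bool) (p : ℕ) : Bool × Bool := (x.getD p false, false)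

open Classical in
/-- The letters after one round. -/
private noncomputable def G1 (w : List (Bool × Bool)) (p : ℕ) : Bool × Bool :=
  (bt w p, decide (NM w.length w p))

private def F0 (x : List Bool) : List (Bool × Bool) := (List.range x.length).map (G0 x)

private noncomputable def F1 (w : List (Bool × Bool)) : List (Bool × Bool) :=
  (List.range w.length).map (G1 w)

/-- There is a new mark. -/
private def QQ (w : List (Bool × Bool)) : Prop :=
  ∃ p, p < w.length ∧ (NM w.length w p ∧ ¬ mk w p = true)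

/-- The block of scale `i` which starts at the position `b` has the value `1`. -/
private def OK (n : ℕ) (w : List (Bool × Bool)) (b i : ℕ) : Prop :=
  (∀ j, j < tk n i → ∀ u, u < 3 * i →
    (bt w (b + (j * (6 * i + 1) + 2 * u)) = true ∨
      bt w (b + (j * (6 * i + 1) + 2 * u + 1)) = true)) ∧
  ((∃ j, j < tk n i ∧ ∃ u, u < 3 * i ∧
    (bt w (b + (j * (6 * i + 1) + 2 * u)) = true ∧
      bt w (b + (j * (6 * i + 1) + 2 * u + 1)) = true)) ∨
  (1 < tk n i ∧ mk w (b + 1) = true))

/-- Some block has the value `1`. -/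
private def RR (w : List (Bool × Bool)) : Prop :=
  ∃ i, i < Nat.log 2 w.length + 1 ∧ ∃ j, j < tm w.length / tb w.length i ∧
    OK w.length w (i * tm w.length + j * tb w.length i) i

private theorem up_G0 (a : Bool × Bool) : UP (fun x e => G0 x (e 0) = a) := by
  obtain ⟨a1, a2⟩ := a
  have h : UP (fun x e => List.getD x (e 0) false = true) := by
    refine (UP.sym true (UF.var 0)).congr fun w e => ?_
    rw [List.getD_eq_getElem?_getD]
    cases w[e 0]? with
    | none => simp
    | some b => simp
  cases a1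
  · refine (h.not.and (UP.const (false = a2))).congr fun x e => ?_
    rw [G0, Prod.mk.injEq, Bool.not_eq_true]
  · refine (h.and (UP.const (false = a2))).congr fun x e => ?_
    rw [G0, Prod.mk.injEq]

private theorem up_G1 (a : Bool × Bool) : UP (fun w e => G1 w (e 0) = a) := by
  classical
  obtain ⟨a1, a2⟩ := a
  have h1 := up_bt (UF.var 0)
  have h2 := up_NM (UF.var 0)
  have h3 : UP (fun w e => bt w (e 0) = a1) := by
    cases a1
    · exact h1.not.congr fun x e => by rw [Bool.not_eq_true]
    · exact h1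
  have h4 : UP (fun w e => decide (NM w.length w (e 0)) = a2) := by
    cases a2
    · exact h2.not.congr fun x e => by rw [decide_eq_false_iff_not]
    · exact h2.congr fun x e => by rw [decide_eq_true_iff]
  refine (h3.and h4).congr fun x e => ?_
  rw [G1, Prod.mk.injEq]

private theorem up_QQ : UP (fun w _ => QQ w) := by
  refine UP.bex (P := fun w _ p => (NM w.length w p ∧ ¬ mk w p = true)) UF.len ?_
  exact (up_NM (UF.var 0)).and (up_mk (UF.var 0)).not

private theorem uf_pos (c : ℕ) {b i j u : List (Bool × Bool) → (ℕ → ℕ) → ℕ} (hb : UF b)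
    (hi : UF i) (hj : UF j) (hu : UF u) :
    UF (fun w e => b w e + (j w e * (6 * i w e + 1) + 2 * u w e + c)) :=
  hb.add (((hj.mul (uf_tr hi)).add ((UF.const 2).mul hu)).add (UF.const c))

private theorem up_OK : UP (fun w e => OK w.length w (e 0) (e 1)) := by
  have h0 {b i j u : List (Bool × Bool) → (ℕ → ℕ) → ℕ} (hb : UF b) (hi : UF i) (hj : UF j)
      (hu : UF u) : UP (fun w e => bt w (b w e + (j w e * (6 * i w e + 1) + 2 * u w e)) = true) :=
    (up_bt (uf_pos 0 hb hi hj hu)).congr fun w e => Iff.rfl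
  have h1 {b i j u : List (Bool × Bool) → (ℕ → ℕ) → ℕ} (hb : UF b) (hi : UF i) (hj : UF j)
      (hu : UF u) :
      UP (fun w e => bt w (b w e + (j w e * (6 * i w e + 1) + 2 * u w e + 1)) = true) :=
    up_bt (uf_pos 1 hb hi hj hu)
  refine UP.and ?_ (UP.or ?_ ?_)
  · refine UP.ball (P := fun w e j => ∀ u, u < 3 * e 1 →
      (bt w (e 0 + (j * (6 * e 1 + 1) + 2 * u)) = true ∨
        bt w (e 0 + (j * (6 * e 1 + 1) + 2 * u + 1)) = true)) (uf_tk (UF.var 1)) ?_
    refine UP.ball (P := fun w e u =>
      (bt w (e 1 + (e 0 * (6 * e 2 + 1) + 2 * u)) = true ∨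
        bt w (e 1 + (e 0 * (6 * e 2 + 1) + 2 * u + 1)) = true))
      ((UF.const 3).mul (UF.var 2)) ?_
    exact (h0 (UF.var 2) (UF.var 3) (UF.var 1) (UF.var 0)).or
      (h1 (UF.var 2) (UF.var 3) (UF.var 1) (UF.var 0))
  · refine UP.bex (P := fun w e j => ∃ u, u < 3 * e 1 ∧
      (bt w (e 0 + (j * (6 * e 1 + 1) + 2 * u)) = true ∧
        bt w (e 0 + (j * (6 * e 1 + 1) + 2 * u + 1)) = true)) (uf_tk (UF.var 1)) ?_
    refine UP.bex (P := fun w e u =>
      (bt w (e 1 + (e 0 * (6 * e 2 + 1) + 2 * u)) = true ∧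
        bt w (e 1 + (e 0 * (6 * e 2 + 1) + 2 * u + 1)) = true))
      ((UF.const 3).mul (UF.var 2)) ?_
    exact (h0 (UF.var 2) (UF.var 3) (UF.var 1) (UF.var 0)).and
      (h1 (UF.var 2) (UF.var 3) (UF.var 1) (UF.var 0))
  · exact (UP.lt (UF.const 1) (uf_tk (UF.var 1))).and (up_mk ((UF.var 0).add (UF.const 1)))

private theorem up_RR : UP (fun w _ => RR w) := by
  refine UP.bex (P := fun w _ i => ∃ j, j < tm w.length / tb w.length i ∧
    OK w.length w (i * tm w.length + j * tb w.length i) i)
    ((BookPL.UF.log2 UF.len).add (UF.const 1)) ?_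
  refine UP.bex (P := fun w e j => OK w.length w (e 0 * tm w.length + j * tb w.length (e 0)) (e 0))
    (uf_tm.div (uf_tb (UF.var 0))) ?_
  exact UP.comp₂ (P := fun w u v => OK w.length w u v) up_OK
    (((UF.var 1).mul uf_tm).add ((UF.var 0).mul (uf_tb (UF.var 1)))) (UF.var 1)

private theorem getD_map_range {β : Type} (n : ℕ) (f : ℕ → β) (p : ℕ) (d : β) :
    ((List.range n).map f).getD p d = if p < n then f p else d := by
  rw [List.getD_eq_getElem?_getD, List.getElem?_map]
  split_ifs with h
  · rw [List.getElem?_range h]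
    rfl
  · rw [List.getElem?_eq_none (by simpa using h)]
    rfl

private theorem length_F1 (w : List (Bool × Bool)) : (F1 w).length = w.length := by simp [F1]

private theorem bt_F1 (w : List (Bool × Bool)) (p : ℕ) : bt (F1 w) p = bt w p := by
  rw [bt, F1, getD_map_range]
  split_ifs with h
  · rfl
  · rw [bt, List.getD_eq_default _ _ (by omega)]

private theorem mk_F1 (w : List (Bool × Bool)) (p : ℕ) :
    mk (F1 w) p = true ↔ p < w.length ∧ NM w.length w p := by
  rw [mk, F1, getD_map_range]
  split_ifs with h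
  · simp [G1, h]
  · simp [h]

private theorem inv (x : List Bool) (i : ℕ) : (F1^[i] (F0 x)).length = x.length ∧
    (∀ p, bt (F1^[i] (F0 x)) p = x.getD p false) ∧
    ∀ p, mk (F1^[i] (F0 x)) p = true → p < x.length ∧ EL x.length p := by
  induction i with
  | zero =>
    refine ⟨by simp [F0], fun p => ?_, fun p hp => ?_⟩
    · change bt (F0 x) p = _
      rw [bt, F0, getD_map_range]
      split_ifs with h
      · rfl
      · rw [List.getD_eq_default _ _ (by omega)]
    · change mk (F0 x) p = true at hp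
      rw [mk, F0, getD_map_range] at hp
      split_ifs at hp with h
      exact absurd hp (by simp [G0])
  | succ i ih =>
    obtain ⟨h1, h2, h3⟩ := ih
    rw [Function.iterate_succ_apply']
    refine ⟨by rw [length_F1, h1], fun p => by rw [bt_F1, h2], fun p hp => ?_⟩
    rw [mk_F1, h1] at hp
    exact ⟨hp.1, hp.2.1⟩

private theorem mk_mono (x : List Bool) (i p : ℕ) (h : mk (F1^[i] (F0 x)) p = true) :
    mk (F1^[i + 1] (F0 x)) p = true := by
  obtain ⟨h1, h2, h3⟩ := inv x i
  rw [Function.iterate_succ_apply', mk_F1, h1]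
  obtain ⟨h4, h5⟩ := h3 p h
  exact ⟨h4, h5, Or.inl h⟩

private theorem exists_stop (x : List Bool) : ∃ s ≤ x.length + 1,
    (∀ i < s, QQ (F1^[i] (F0 x))) ∧ ¬ QQ (F1^[s] (F0 x)) := by
  classical
  set c : ℕ → ℕ := fun i => ((Finset.range x.length).filter
    (fun p => mk (F1^[i] (F0 x)) p = true)).card with hc
  have hle : ∀ i, c i ≤ x.length := fun i => by
    have := Finset.card_filter_le (Finset.range x.length) (fun p => mk (F1^[i] (F0 x)) p = true)
    rwa [Finset.card_range] at this
  have hlt : ∀ i, QQ (F1^[i] (F0 x)) → c i < c (i + 1) := by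
    rintro i ⟨p, hp, hp1, hp2⟩
    have h1 := (inv x i).1
    refine Finset.card_lt_card ⟨fun q hq => ?_, fun hsub => ?_⟩
    · rw [Finset.mem_filter] at hq ⊢
      exact ⟨hq.1, mk_mono x i q hq.2⟩
    · apply hp2
      have h2 : p ∈ (Finset.range x.length).filter
          (fun p => mk (F1^[i + 1] (F0 x)) p = true) := by
        rw [Finset.mem_filter, Finset.mem_range]
        refine ⟨by rwa [h1] at hp, ?_⟩
        rw [Function.iterate_succ_apply', mk_F1]
        exact ⟨hp, hp1⟩
      exact (Finset.mem_filter.1 (hsub h2)).2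
  have hex : ∃ s, ¬ QQ (F1^[s] (F0 x)) := by
    by_contra hcon
    push Not at hcon
    have h1 : ∀ i, i ≤ c i := by
      intro i
      induction i with
      | zero => exact Nat.zero_le _
      | succ i ih =>
        have := hlt i (hcon i)
        omega
    have h2 := h1 (x.length + 1)
    have h3 := hle (x.length + 1)
    omega
  refine ⟨Nat.find hex, ?_, fun i hi => by_contra fun h => Nat.find_min hex hi h,
    Nat.find_spec hex⟩
  have h1 : ∀ i, i ≤ Nat.find hex → i ≤ c i := by
    intro i
    induction i with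
    | zero => exact fun _ => Nat.zero_le _
    | succ i ih =>
      intro hi
      have h2 : QQ (F1^[i] (F0 x)) := by_contra fun h => Nat.find_min hex (by omega) h
      have := hlt i h2
      have := ih (by omega)
      omega
  have h2 := h1 _ le_rfl
  have h3 := hle (Nat.find hex)
  omega

/-- The block `j` of the segment `i`. -/
private def blk (x : List Bool) (i j : ℕ) (p : ℕ) : Bool :=
  x.getD (i * tm x.length + j * tb x.length i + p) false

private theorem dm (n i j z : ℕ) (hi : i < Nat.log 2 n + 1) (hj : j < tm n / tb n i)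
    (hz : z < tk n i) : i * tm n + j * tb n i + z < n ∧
      tsg n (i * tm n + j * tb n i + z) = i ∧ tkk n (i * tm n + j * tb n i + z) = tk n i ∧
      tbs n (i * tm n + j * tb n i + z) = i * tm n + j * tb n i ∧
      tzz n (i * tm n + j * tb n i + z) = z ∧ EL n (i * tm n + j * tb n i + z) := by
  have hk : tk n i ≤ tb n i := Nat.le_mul_of_pos_right _ (by omega)
  have h0 : 0 < tb n i := by omega
  have h1 : (j + 1) * tb n i ≤ tm n := (Nat.le_div_iff_mul_le h0).1 hj
  rw [add_mul, one_mul] at h1
  have h2 : (Nat.log 2 n + 1) * tm n ≤ n := Nat.mul_div_le n _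
  have h3 : (i + 1) * tm n ≤ (Nat.log 2 n + 1) * tm n := Nat.mul_le_mul_right _ hi
  rw [add_mul i, one_mul] at h3
  set p := i * tm n + j * tb n i + z with hp
  have h4 : j * tb n i + z < tm n := by omega
  have h5 : p = tm n * i + (j * tb n i + z) := by rw [hp]; ring
  have e1 : p / tm n = i := by
    rw [h5, Nat.mul_add_div (by omega), Nat.div_eq_of_lt h4, add_zero]
  have e2 : p % tm n = j * tb n i + z := by
    rw [h5, Nat.mul_add_mod, Nat.mod_eq_of_lt h4]
  have e3 : tkk n p = tk n i := by rw [tkk, tsg, e1]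
  have e3' : tbb n p = tb n i := by rw [tbb, tsg, e1]
  have e4 : (j * tb n i + z) / tb n i = j := by
    rw [mul_comm, Nat.mul_add_div h0, Nat.div_eq_of_lt (by omega), add_zero]
  have e5 : (j * tb n i + z) % tb n i = z := by
    rw [mul_comm, Nat.mul_add_mod, Nat.mod_eq_of_lt (by omega)]
  have e6 : tzz n p = z := by rw [tzz, e2, e3', e5]
  refine ⟨by omega, e1, e3, ?_, e6, ?_, ?_, ?_⟩
  · rw [tbs, e3', tsg, e1, e2, e4]
  · rw [tsg, e1]
    exact hi
  · rw [e2, e3', e4]
    exact hj
  · rw [e6, e3]
    exact hz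

private theorem pt_eq (x : List Bool) (w : List (Bool × Bool)) (hw : ∀ p, bt w p = x.getD p false)
    (i j : ℕ) (hx : x.length ≠ 0) (hi : i < Nat.log 2 x.length + 1) (k a : ℕ) :
    pt k x.length w (i * tm x.length + j * tb x.length i) i a = ptr i (blk x i j) a k := by
  rw [pt, ptr]
  refine Finset.sum_congr rfl fun t ht => ?_
  rw [Finset.mem_range] at ht
  rw [tk_eq x.length t hx (by omega), hw]
  rfl

private theorem ptr_lt (i : ℕ) (y : ℕ → Bool) (j k : ℕ) : ptr i y j k < 2 ^ i := by
  have h1 : ptr i y j k ≤ ∑ t ∈ Finset.range i, 2 ^ t := by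
    refine Finset.sum_le_sum fun t _ => ?_
    split_ifs
    · exact le_rfl
    · exact Nat.zero_le _
  have h2 : ∑ t ∈ Finset.range i, 2 ^ t = 2 ^ i - 1 := by
    have := Nat.geomSum_eq (le_refl 2) i
    simpa using this
  have h3 : 0 < 2 ^ i := Nat.two_pow_pos i
  omega

private theorem sound (x : List Bool) (t : ℕ) (i j : ℕ) (hi : i < Nat.log 2 x.length + 1)
    (hj : j < tm x.length / tb x.length i) (hx : x.length ≠ 0) :
    ∀ z, z < 2 ^ i →
      mk (F1^[t] (F0 x)) (i * tm x.length + j * tb x.length i + z) = true →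
      Cl (brule i (blk x i j)) 0 (fun a => blk x i j (a.val * (6 * i + 1) + 6 * i)) z := by
  have e := tk_eq x.length i hx hi
  induction t with
  | zero =>
    intro z _ hz
    change mk (F0 x) _ = true at hz
    rw [mk, F0, getD_map_range] at hz
    split_ifs at hz with h
    exact absurd hz (by simp [G0])
  | succ t ih =>
    intro z hz2 hz
    obtain ⟨h1, h2, h3⟩ := inv x t
    rw [Function.iterate_succ_apply', mk_F1, h1] at hz
    obtain ⟨-, -, hz⟩ := hz
    obtain ⟨-, e1, e2, e3, e4, -⟩ := dm x.length i j z hi hj (by rw [e]; exact hz2)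
    rw [e1, e2, e3, e4] at hz
    rcases hz with hz | hz | ⟨a, ha, ⟨h4, h5⟩, h6, h7⟩
    · exact ih z hz2 hz
    · rw [hz]
      exact Cl.start
    · rw [e] at ha
      rw [pt_eq x _ h2 i j hx hi] at h5 h6 h7
      rw [h2] at h4
      have hs := Cl.step (r := brule i (blk x i j)) (s := 0)
        (z := fun a => blk x i j (a.val * (6 * i + 1) + 6 * i)) ⟨a, ha⟩ h4
        (ih _ (ptr_lt i _ a 0) h5) (ih _ (ptr_lt i _ a 1) h6)
      have h8 : (brule i (blk x i j) ⟨a, ha⟩).2.2 = z := h7
      rwa [h8] at hs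

private theorem complete (x : List Bool) (t : ℕ) (hQ : ¬ QQ (F1^[t] (F0 x))) (i j : ℕ)
    (hi : i < Nat.log 2 x.length + 1) (hj : j < tm x.length / tb x.length i)
    (hx : x.length ≠ 0) (z : ℕ)
    (hz : Cl (brule i (blk x i j)) 0 (fun a => blk x i j (a.val * (6 * i + 1) + 6 * i)) z) :
    z < 2 ^ i ∧ mk (F1^[t] (F0 x)) (i * tm x.length + j * tb x.length i + z) = true := by
  obtain ⟨h1, h2, h3⟩ := inv x t
  have e := tk_eq x.length i hx hi
  have key : ∀ z, z < 2 ^ i →
      NM x.length (F1^[t] (F0 x)) (i * tm x.length + j * tb x.length i + z) →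
      mk (F1^[t] (F0 x)) (i * tm x.length + j * tb x.length i + z) = true := by
    intro z hz2 hz
    by_contra hcon
    exact hQ ⟨_, by rw [h1]; exact (dm x.length i j z hi hj (by rw [e]; exact hz2)).1,
      by rw [h1]; exact hz, hcon⟩
  induction hz with
  | start =>
    have h0 : 0 < 2 ^ i := Nat.two_pow_pos i
    refine ⟨h0, key 0 h0 ?_⟩
    obtain ⟨-, e1, e2, e3, e4, e5⟩ := dm x.length i j 0 hi hj (by rw [e]; exact h0)
    exact ⟨e5, Or.inr (Or.inl e4)⟩
  | step a ha _ _ ih1 ih2 =>
    have h0 : (brule i (blk x i j) a).2.2 < 2 ^ i := ptr_lt i _ a.val 2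
    refine ⟨h0, key _ h0 ?_⟩
    obtain ⟨-, e1, e2, e3, e4, e5⟩ := dm x.length i j _ hi hj (by rw [e]; exact h0)
    refine ⟨e5, Or.inr (Or.inr ?_)⟩
    rw [e1, e2, e3, e4, e]
    refine ⟨a.val, a.2, ⟨?_, ?_⟩, ?_, ?_⟩
    · rw [h2]
      exact ha
    · rw [pt_eq x _ h2 i j hx hi]
      exact ih1.2
    · rw [pt_eq x _ h2 i j hx hi]
      exact ih2.2
    · rw [pt_eq x _ h2 i j hx hi]
      rfl

private theorem mem_iff (x : List Bool) : x ∈ LTC ↔ ∃ i, i < Nat.log 2 x.length + 1 ∧
    ∃ j, j < tm x.length / tb x.length i ∧ blockF i (blk x i j) = true := by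
  rw [LTC, MS_iff x rfl]
  refine exists_congr fun i => and_congr_right fun hi => ?_
  rcases Nat.eq_zero_or_pos x.length with h0 | h0
  · have e1 : tm x.length = 0 := by rw [h0]; rfl
    constructor
    · rintro ⟨j, hj, -⟩
      rw [h0, Nat.zero_div, Nat.zero_div] at hj
      omega
    · rintro ⟨j, hj, -⟩
      rw [e1, Nat.zero_div] at hj
      omega
  · have e : tb x.length i = bl i := tb_eq _ _ h0.ne' hi
    refine exists_congr fun j => ?_
    unfold blk
    rw [e]
    rfl

private theorem final (x : List Bool) (t : ℕ) (hQ : ¬ QQ (F1^[t] (F0 x))) :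
    x ∈ LTC ↔ RR (F1^[t] (F0 x)) := by
  classical
  have h1 := inv x t
  rw [mem_iff, RR, h1.1]
  refine exists_congr fun i => and_congr_right fun hi => exists_congr fun j =>
    and_congr_right fun hj => ?_
  have hx : x.length ≠ 0 := by
    intro h0
    have e1 : tm x.length = 0 := by rw [h0]; rfl
    rw [e1, Nat.zero_div] at hj
    omega
  have e := tk_eq x.length i hx hi
  rw [blockF, decide_eq_true_iff, OK, e]
  simp only [h1.2.1]
  refine and_congr Iff.rfl (or_congr Iff.rfl ?_)
  constructor
  · intro h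
    exact complete x t hQ i j hi hj hx 1 h
  · rintro ⟨hk, h⟩
    exact sound x t i j hi hj hx 1 hk h

theorem inP_LTC : Pool.Agent.Book19.InP Bool LTC := by
  classical
  refine ⟨fun x => decide (x ∈ LTC), ?_, fun x => by simp⟩
  refine B7219d.polyTime_iterate (Γ := Bool × Bool) _ (M₀ := fun x => x.length) (G₀ := G0)
    UF.len up_G0 (M₁ := fun w => w.length) (G₁ := G1) UF.len up_G1 up_QQ up_RR _ F0
    (fun _ => rfl) F1 (fun _ => rfl) (fun N => N + 1) (fun N => N) (PB.id.add (PB.const 1))
    PB.id fun x => ?_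
  have e : (Computability.encodingList Bool).encode x = x := rfl
  rw [e]
  obtain ⟨s, h1, h2, h3⟩ := exists_stop x
  refine ⟨s, h1, h2, h3, fun i _ => (inv x i).1.le, ?_⟩
  rw [decide_eq_true_iff]
  exact final x s h3

end Pool.Agent.TOpt
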